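import Pool.Agent.Y120.G.Word
import Pool.Agent.R351.GD.Prod
import Pool.Agent.R351.GD.PB

/-!
# Words and products over several shifts, with exponents which are polynomial in the degree
-/

set_option autoImplicit false

open PowerSeries

namespace Pool.Agent.R351.GD

open Pool.Agent.Y113

/-- products of `Δ` functions of a G-system -/
theorem words_gen {β : Type} [Fintype β] {q : ℕ} {C : ℝ} {T : Polynomial ℤ} {y : β → ℚ⟦X⟧} (h : GSys q C T y)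
    (Δ : ℕ) : GSys q ((2 ^ (q + 1) * C) ^ Δ * C) T (fun f : Fin Δ → β => ∏ i, y (f i)) := by
  induction Δ with
  | zero =>
    have h1 := GSys.const (ι := Fin 0 → β) h.one_le h.degT h.sizeT
    simpa using h1
  | succ Δ ih =>
    have h3 := prod_asym h ih
    have h4 := h3.reindex (Fin.consEquiv fun _ => β).symm
    have h5 : (fun f : Fin (Δ + 1) → β => ∏ i, y (f i)) = fun j =>
        y ((Fin.consEquiv fun _ => β).symm j).1 * ∏ i, y (((Fin.consEquiv fun _ => β).symm j).2 i) := by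
      funext f
      rw [Fin.prod_univ_succ]
      rfl
    rw [h5]
    refine h4.mono le_rfl (le_of_eq ?_)
    rw [pow_succ]
    ring

theorem two_le_base (g : ℕ) : (2 : ℝ) ≤ (g : ℝ) + 2 := by
  have : (0 : ℝ) ≤ g := Nat.cast_nonneg _
  linarith

/-- words in a family of G-systems with the constants `(g + 2) ^ E` -/
theorem words_base {β : Type} [Fintype β] {q E : ℕ} {T : ℕ → Polynomial ℤ} {y : ℕ → β → ℚ⟦X⟧}
    (h : ∀ g : ℕ, GSys q (((g : ℝ) + 2) ^ E) (T g) (y g)) (Δ g : ℕ) :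
    GSys q (((g : ℝ) + 2) ^ ((q + 1 + E) * Δ + E)) (T g) (fun f : Fin Δ → β => ∏ i, y g (f i)) := by
  refine (words_gen (h g) Δ).mono le_rfl ?_
  have h2 := two_le_base g
  calc ((2 : ℝ) ^ (q + 1) * (((g : ℝ) + 2) ^ E)) ^ Δ * ((g : ℝ) + 2) ^ E
      ≤ (((g : ℝ) + 2) ^ (q + 1) * (((g : ℝ) + 2) ^ E)) ^ Δ * ((g : ℝ) + 2) ^ E := by gcongr
    _ = _ := by rw [← pow_add, ← pow_mul, ← pow_add]

/-- the product of two families -/
theorem prod_base {β γ : Type} [Fintype β] [Fintype γ] {q E E' H : ℕ} {T : Polynomial ℤ} {y : β → ℚ⟦X⟧}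
    {w : γ → ℚ⟦X⟧} (h : GSys q (((H : ℝ) + 2) ^ E) T y) (h' : GSys q (((H : ℝ) + 2) ^ E') T w) :
    GSys q (((H : ℝ) + 2) ^ (q + 1 + (E + E'))) T (fun p : β × γ => y p.1 * w p.2) := by
  refine (prod_asym h h').mono le_rfl ?_
  have h2 := two_le_base H
  calc (2 : ℝ) ^ (q + 1) * (((H : ℝ) + 2) ^ E * ((H : ℝ) + 2) ^ E')
      ≤ ((H : ℝ) + 2) ^ (q + 1) * (((H : ℝ) + 2) ^ E * ((H : ℝ) + 2) ^ E') := by gcongr
    _ = _ := by rw [← pow_add, ← pow_add]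

/-- products over several shifts of a family of G-systems -/
theorem multi_exp (q₀ : ℕ) (E₀ : ℕ → ℕ) (hE₀ : PB E₀) (k : ℕ) : ∃ (q : ℕ) (E : ℕ → ℕ), PB E ∧
    ∀ (Δ : ℕ) (σ : Type) [Fintype σ] (F : ℕ → σ → ℚ⟦X⟧) (Tg : ℕ → Polynomial ℤ),
      (∀ g : ℕ, GSys q₀ (((g : ℝ) + 2) ^ E₀ Δ) (Tg g) (F g)) → ∀ (H : ℕ) (g : Fin k → ℕ), (∀ l, g l ≤ H) →
      GSys q (((H : ℝ) + 2) ^ E Δ) (∏ l, Tg (g l)) (fun b : Fin k → σ => ∏ l, F (g l) (b l)) := by
  induction k with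
  | zero =>
    refine ⟨0, fun _ => 0, PB.const 0, fun Δ σ _ F Tg hF H g _ => ?_⟩
    have h1 : GSys 0 (1 : ℝ) 1 (fun _ : Fin 0 → σ => (1 : ℚ⟦X⟧)) := by
      refine GSys.const le_rfl (by simp) fun l => ?_
      rw [Polynomial.coeff_one]
      split_ifs <;> simp
    simpa using h1
  | succ k ih =>
    obtain ⟨q, Ek, hEkp, hEk⟩ := ih
    obtain ⟨E₁, hE₁⟩ := t_enl q₀ q
    obtain ⟨E₂, hE₂⟩ := t_enl q q₀
    refine ⟨q + q₀, fun Δ => (q + q₀ + 1) + ((E₀ Δ + Ek Δ + 1) * E₁ + (E₀ Δ + Ek Δ + 1) * E₂), ?_,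
      fun Δ σ _ F Tg hF H g hg => ?_⟩
    · have h1 := (hE₀.add hEkp).add (PB.const 1)
      exact (PB.const (q + q₀ + 1)).add ((h1.mul (PB.const E₁)).add (h1.mul (PB.const E₂)))
    have hg1 := one_le_base H
    have hgH : ((g 0 : ℕ) : ℝ) + 2 ≤ (H : ℝ) + 2 := by
      have : ((g 0 : ℕ) : ℝ) ≤ H := by exact_mod_cast hg 0
      linarith
    have h1 : GSys q₀ (((H : ℝ) + 2) ^ (E₀ Δ + Ek Δ)) (Tg (g 0)) (F (g 0)) := by
      refine (hF (g 0)).mono le_rfl ?_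
      exact (pow_le_pow_left₀ (by positivity) hgH _).trans (base_mono hg1 (Nat.le_add_right _ _))
    have h2 : GSys q (((H : ℝ) + 2) ^ (E₀ Δ + Ek Δ)) (∏ l : Fin k, Tg (g l.succ))
        (fun b : Fin k → σ => ∏ l, F (g l.succ) (b l)) :=
      (hEk Δ σ F Tg hF H (fun l => g l.succ) fun l => hg l.succ).mono le_rfl (base_mono hg1 (Nat.le_add_left _ _))
    have h3 := hE₁ _ _ _ (∏ l : Fin k, Tg (g l.succ)) _ h1 h2.degT h2.sizeT
    have h4 := hE₂ _ _ _ (Tg (g 0)) _ h2 h1.degT h1.sizeT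
    have hPT : ∏ l, Tg (g l) = Tg (g 0) * ∏ l : Fin k, Tg (g l.succ) := Fin.prod_univ_succ _
    have h5 : GSys (q + q₀) (((H : ℝ) + 2) ^ ((E₀ Δ + Ek Δ + 1) * E₁)) (∏ l, Tg (g l)) (F (g 0)) := by
      rw [hPT]
      exact h3.mono (by omega) (pow_base H _ _)
    have h6 : GSys (q + q₀) (((H : ℝ) + 2) ^ ((E₀ Δ + Ek Δ + 1) * E₂)) (∏ l, Tg (g l))
        (fun b : Fin k → σ => ∏ l, F (g l.succ) (b l)) := by
      rw [hPT, mul_comm (Tg (g 0))]
      exact h4.mono le_rfl (pow_base H _ _)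
    have h8 := (prod_base h5 h6).reindex (Fin.consEquiv fun _ => σ).symm
    have h9 : (fun b : Fin (k + 1) → σ => ∏ l, F (g l) (b l)) = fun j =>
        F (g 0) ((Fin.consEquiv fun _ => σ).symm j).1 *
          ∏ l : Fin k, F (g l.succ) (((Fin.consEquiv fun _ => σ).symm j).2 l) := by
      funext b
      rw [Fin.prod_univ_succ]
      rfl
    rw [h9]
    exact h8

end Pool.Agent.R351.GD
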