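import Pool.Agent.Y333.SL.GS
import Pool.Agent.R351.GD.S.Col
import Pool.Agent.R351.GD.S.Mul

/-!
# The G-system of the reduced monomials, with exponents which are polynomial in the degree
-/

set_option autoImplicit false

open PowerSeries

namespace Pool.Agent.R351.GD

open Pool.Agent.Y113 Pool.Agent.Y916.Hy Pool.Agent.Y916.Sa Pool.Agent.Y120.GF Pool.Agent.Y960.SA Pool.Agent.Y916.Al
open Pool.Agent.Y333.SL

theorem OS_exp {s : ℕ} (P : Fin s → Polynomial ℤ) (m : Fin s → ℕ) (halg : S_alg) (heint : S_eint)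
    (hP : ∀ a, GoodO (P a) ∧ m a < (P a).natDegree) : ∃ (q : ℕ) (E : ℕ → ℕ), PB E ∧ ∀ Δ g : ℕ,
    GSys q (((g : ℝ) + 2) ^ E Δ) (Tg P g) (OS P m Δ g) := by
  obtain ⟨q, E₀, hE₀⟩ := base_sys P m halg heint hP
  refine ⟨q, fun Δ => q + 1 + (E₀ + ((q + 1 + E₀) * Δ + E₀)), ?_, fun Δ g => ?_⟩
  · exact (PB.const (q + 1)).add ((PB.const E₀).add (((PB.const (q + 1 + E₀)).mul PB.id).add (PB.const E₀)))
  · exact prod_base (hE₀ g).2 (words_base (fun g => (hE₀ g).1) Δ g)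

theorem gs_exp (hrt : S_rt) (halg : S_alg) (heint : S_eint) (hkap : S_kap) (s : ℕ) (P : Fin s → Polynomial ℤ)
    (m : Fin s → ℕ) (hP : ∀ a, GoodO (P a) ∧ m a < (P a).natDegree) (N : ℕ) :
    ∃ q E : ℕ → ℕ, PB q ∧ PB E ∧ ∀ (Δ H : ℕ) (g : Fin N → ℕ), (∀ l, g l ≤ H) → ∀ J : Finset (Fin s × Fin N),
      (∀ i : Fin s × Fin N, ∃ T : Finset (Fin s × Fin N), T ⊆ J ∧
        Sqr (phi (P i.1) (g i.2) * ∏ j ∈ T, phi (P j.1) (g j.2))) →
      ∃ T : Polynomial ℤ, GSys (q Δ) (((H : ℝ) + 2) ^ E Δ) T (wf P m Δ g J) ∧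
        ∀ x : ℂ, x ≠ 0 → ‖x‖ * ((H : ℝ) + 2) ^ E Δ ≤ 1 → Polynomial.aeval x T ≠ 0 ∧
          (∀ i : Fin s × Fin N, Cvc x (rt P g i)) ∧ ∀ i : Fin N × Tau m, Cvc x (Yg P m (g i.1) i.2) := by
  classical
  obtain ⟨q₀, E₀, hE₀p, hE₀⟩ := OS_exp P m halg heint hP
  obtain ⟨q, E₁', hE₁p, hE₁'⟩ := multi_exp q₀ E₀ hE₀p N
  obtain ⟨q₆, E₆, hE₆⟩ := base_sys P m halg heint hP
  -- bounds for `phi`
  choose Ea hEa using fun a => Pool.Agent.Y678.HV.phi_bd (P a)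
  set E₂ := ∑ a, Ea a with hE₂
  set n := ∑ a, (P a).natDegree with hn
  have hna : ∀ a, (P a).natDegree ≤ n := fun a =>
    Finset.single_le_sum (f := fun a => (P a).natDegree) (fun _ _ => Nat.zero_le _) (Finset.mem_univ a)
  have hEaE : ∀ a, Ea a ≤ E₂ := fun a =>
    Finset.single_le_sum (f := fun a => Ea a) (fun _ _ => Nat.zero_le _) (Finset.mem_univ a)
  set cI := Fintype.card (Fin s × Fin N) with hcI
  obtain ⟨E₅, hE₅⟩ := hkap n cI
  set a₀ := (E₂ + 2) * E₅ + E₅ + E₂ + n with ha₀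
  set cF' : ℕ → ℕ := fun Δ => 2 * (2 * (2 * (3 * a₀) * (Δ + 1)) * cI) + 2 * (2 * a₀ * ((Δ + 1) * cI)) * cI with hcF'
  set cN' : ℕ → ℕ := fun Δ => 2 * (2 * (2 * (2 * (3 * a₀) * (Δ + 1)) + 2 * a₀ * (Δ + 1)) * cI) +
    2 * (2 * (2 * a₀ * ((Δ + 1) * cI)) + 2 * a₀ * ((Δ + 1) * cI)) * cI with hcN'
  have hKp : PB fun Δ => Δ + 1 := PB.id.add (PB.const 1)
  have hK'p : PB fun Δ => (Δ + 1) * cI := hKp.mul (PB.const cI)
  have hcFp : PB cF' :=
    ((PB.const 2).mul (((PB.const 2).mul ((PB.const (2 * (3 * a₀))).mul hKp)).mul (PB.const cI))).add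
      (((PB.const 2).mul ((PB.const (2 * a₀)).mul hK'p)).mul (PB.const cI))
  have hcNp : PB cN' :=
    ((PB.const 2).mul (((PB.const 2).mul (((PB.const 2).mul ((PB.const (2 * (3 * a₀))).mul hKp)).add
      ((PB.const (2 * a₀)).mul hKp))).mul (PB.const cI))).add
      (((PB.const 2).mul (((PB.const 2).mul ((PB.const (2 * a₀)).mul hK'p)).add
      ((PB.const (2 * a₀)).mul hK'p))).mul (PB.const cI))
  set cB := Fintype.card (BI m) with hcB'
  refine ⟨fun Δ => q + (cF' Δ + cN' Δ), fun Δ => (E₁' Δ + cF' Δ + cN' Δ + 1) *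
    (2 * (cF' Δ + cN' Δ) + 2 * q + (s + cB * Δ) * N + 6) + (E₂ + n) + (E₆ + 1), ?_, ?_, fun Δ H g hgH J hJ => ?_⟩
  · exact (PB.const q).add (hcFp.add hcNp)
  · exact ((((((hE₁p.add hcFp).add hcNp).add (PB.const 1)).mul ((((((PB.const 2).mul (hcFp.add hcNp)).add
      (PB.const (2 * q))).add (((PB.const s).add ((PB.const cB).mul PB.id)).mul (PB.const N))).add
      (PB.const 6))))).add (PB.const (E₂ + n))).add (PB.const (E₆ + 1))
  set K := Δ + 1 with hK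
  set K' := K * cI with hK'
  set cF := cF' Δ with hcF
  set cN := cN' Δ with hcN
  set E₁ := E₁' Δ with hE₁d
  have hE₁ := hE₁' Δ (WI m Δ) (fun g => OS P m Δ g) (fun g => Tg P g) (hE₀ Δ)
  set E₃ := 2 * (cF + cN) + 2 * q + (s + cB * Δ) * N + 6 with hE₃d
  set B := E₁ + cF + cN with hB
  show ∃ T : Polynomial ℤ, GSys (q + (cF + cN)) (((H : ℝ) + 2) ^ ((B + 1) * E₃ + (E₂ + n) + (E₆ + 1))) T
      (wf P m Δ g J) ∧ ∀ x : ℂ, x ≠ 0 → ‖x‖ * ((H : ℝ) + 2) ^ ((B + 1) * E₃ + (E₂ + n) + (E₆ + 1)) ≤ 1 →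
      Polynomial.aeval x T ≠ 0 ∧
      (∀ i : Fin s × Fin N, Cvc x (rt P g i)) ∧ ∀ i : Fin N × Tau m, Cvc x (Yg P m (g i.1) i.2)
  have hHB : (1 : ℝ) ≤ (H : ℝ) + 2 := one_le_base H
  have hgl : ∀ l, ((g l : ℕ) : ℝ) + 2 ≤ (H : ℝ) + 2 := fun l => by
    have : ((g l : ℕ) : ℝ) ≤ H := by exact_mod_cast hgH l
    linarith
  -- the set of the roots
  choose T hTJ hTs using hJ
  -- bounds
  have hφc : ∀ (i : Fin s × Fin N) (l : ℕ), |(((phi (P i.1) (g i.2)).coeff l : ℤ) : ℝ)| ≤ ((H : ℝ) + 2) ^ E₂ := by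
    intro i l
    refine (hEa i.1 (g i.2) l).trans ?_
    exact (pow_le_pow_left₀ (by positivity) (hgl i.2) _).trans (base_mono hHB (hEaE i.1))
  have hφB : ∀ i : Fin s × Fin N, Bx H a₀ (phi (P i.1) (g i.2)) := by
    intro i
    refine ⟨((Pool.Agent.Y678.HV.phi_natDegree _ _).trans (hna i.1)).trans (by omega), fun l => ?_⟩
    exact (hφc i l).trans (base_mono hHB (by omega))
  have hφ0 : ∀ i : Fin s × Fin N, 0 < (phi (P i.1) (g i.2)).coeff 0 := by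
    intro i
    rw [Pool.Agent.Y678.HV.phi_coeff_zero]
    exact (hP i.1).1.pos
  have hkap' : ∀ i : Fin s × Fin N, ∃ (M : ℤ) (W : Polynomial ℤ), 0 < M ∧ M ≤ (((H + 2) ^ E₂ : ℕ) + 2 : ℤ) ^ E₅ ∧
      W.natDegree ≤ E₅ ∧ (∀ l, |W.coeff l| ≤ (((H + 2) ^ E₂ : ℕ) + 2 : ℤ) ^ E₅) ∧
      ps (Polynomial.C M * phi (P i.1) (g i.2)) * Rt (phi (P i.1) (g i.2)) =
        ps W * ∏ j ∈ T i, Rt (phi (P j.1) (g j.2)) := by
    intro i
    refine hE₅ ((H + 2) ^ E₂) (Fin s × Fin N) (T i) i (fun j => phi (P j.1) (g j.2)) le_rfl (fun j => ?_) (hTs i)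
    refine ⟨hφ0 j, (Pool.Agent.Y678.HV.phi_natDegree _ _).trans (hna j.1), fun l => ?_⟩
    have h1 := hφc j l
    have h2 : ((|(phi (P j.1) (g j.2)).coeff l| : ℤ) : ℝ) ≤ (((H + 2) ^ E₂ : ℕ) : ℝ) := by
      push_cast
      exact h1
    exact_mod_cast h2
  choose M W hM0 hM1 hW1 hW2 hMW using hkap'
  have hbig : ((((((H + 2) ^ E₂ : ℕ) + 2 : ℤ) ^ E₅ : ℤ)) : ℝ) ≤ ((H : ℝ) + 2) ^ ((E₂ + 2) * E₅) := by
    push_cast
    have hx : (2 : ℝ) ≤ (H : ℝ) + 2 := by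
      have : (0 : ℝ) ≤ H := Nat.cast_nonneg _
      linarith
    have h3 : ((H : ℝ) + 2) ^ E₂ + 2 ≤ ((H : ℝ) + 2) ^ (E₂ + 2) := by
      have h4 : (1 : ℝ) ≤ ((H : ℝ) + 2) ^ E₂ := one_le_pow₀ hHB
      have h5 : (4 : ℝ) ≤ ((H : ℝ) + 2) ^ 2 := by nlinarith
      rw [pow_add]
      nlinarith [mul_le_mul_of_nonneg_left h5 (show (0 : ℝ) ≤ ((H : ℝ) + 2) ^ E₂ by positivity)]
    calc (((H : ℝ) + 2) ^ E₂ + 2) ^ E₅ ≤ (((H : ℝ) + 2) ^ (E₂ + 2)) ^ E₅ :=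
          pow_le_pow_left₀ (by positivity) h3 _
      _ = _ := by rw [pow_mul]
  have hMB : ∀ i, |((M i : ℤ) : ℝ)| ≤ ((H : ℝ) + 2) ^ a₀ := by
    intro i
    have h1 : (0 : ℝ) < (M i : ℤ) := by exact_mod_cast hM0 i
    rw [abs_of_pos h1]
    have h2 : ((M i : ℤ) : ℝ) ≤ ((((((H + 2) ^ E₂ : ℕ) + 2 : ℤ) ^ E₅ : ℤ)) : ℝ) := by exact_mod_cast hM1 i
    exact (h2.trans hbig).trans (base_mono hHB (by omega))
  have hWB : ∀ i, Bx H a₀ (W i) := by
    intro i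
    refine ⟨(hW1 i).trans (by omega), fun l => ?_⟩
    have h2 : ((|(W i).coeff l| : ℤ) : ℝ) ≤ ((((((H + 2) ^ E₂ : ℕ) + 2 : ℤ) ^ E₅ : ℤ)) : ℝ) := by
      exact_mod_cast hW2 i l
    rw [Int.cast_abs] at h2
    exact (h2.trans hbig).trans (base_mono hHB (by omega))
  set c : Fin s × Fin N → ℤ := fun i => (phi (P i.1) (g i.2)).coeff 0 with hc
  have hcB : ∀ i, |((c i : ℤ) : ℝ)| ≤ ((H : ℝ) + 2) ^ a₀ := fun i => (hφB i).2 0
  have hr : ∀ i, rt P g i ^ 2 * ps (phi (P i.1) (g i.2)) = ((c i : ℤ) : ℚ⟦X⟧) := by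
    intro i
    rw [rt, (hrt _ (hφ0 i)).1, hc]
    simp
  -- the collapse
  set FF := fac K K' M (fun i : Fin s × Fin N => phi (P i.1) (g i.2)) with hFF
  choose kk pp hkk hpp using word_red P m Δ g J M c W T hr hTJ hMW
  choose wd hwd using wf_word P m Δ g J
  have hCB : ∀ a, a ≤ B → ((H : ℝ) + 2) ^ a ≤ ((H : ℝ) + 2) ^ B := fun a ha => base_mono hHB ha
  have hFB : Bx H cF FF := fac_bd K K' H a₀ cI le_rfl M _ hMB hφB
  have hNB : ∀ b : Fin N → WI m Δ, Bx H cN (num K K' M (fun i : Fin s × Fin N => phi (P i.1) (g i.2)) W c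
      (fun i => eR m Δ (b i.2) i.1) (kk b)) := fun b =>
    num_bd K K' H a₀ cI le_rfl M c _ W hMB hcB hφB hWB _ _ (fun i => eR_le m Δ _ _) (hkk b)
  have hG0 := (hE₁ H g (fun l => hgH l)).mono le_rfl (hCB E₁ (by omega))
  have hcardW : Fintype.card (Fin N → WI m Δ) ≤ 2 ^ ((s + cB * Δ) * N) := by
    rw [Fintype.card_fun, Fintype.card_prod, Fintype.card_fun, Fintype.card_fun, Fintype.card_bool, Fintype.card_fin,
      Fintype.card_fin, Fintype.card_fin, pow_mul, pow_add, pow_mul]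
    refine Nat.pow_le_pow_left (Nat.mul_le_mul_left _ (Nat.pow_le_pow_left ?_ _)) _
    exact Nat.lt_two_pow_self.le
  have hcol := col_exp q (cF + cN) ((s + cB * Δ) * N) (Fin N → WI m Δ) (KI m Δ J) (((H : ℝ) + 2) ^ B)
    (∏ l, Tg P (g l)) FF
    (fun b => ∏ l, OS P m Δ (g l) (b l)) (wf P m Δ g J) wd
    (fun b p => if p = pp b then num K K' M (fun i : Fin s × Fin N => phi (P i.1) (g i.2)) W c
      (fun i => eR m Δ (b i.2) i.1) (kk b) else 0)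
    hcardW hG0 hwd (hFB.1.trans (by omega))
    (fun l => (hFB.2 l).trans (hCB _ (by omega))) ?_ ?_ ?_
  rotate_left
  · intro b p
    split_ifs
    · exact (hNB b).1.trans (by omega)
    · simp
  · intro b p l
    split_ifs
    · exact ((hNB b).2 l).trans (hCB _ (by omega))
    · simp; positivity
  · intro b
    rw [Finset.sum_eq_single (pp b)]
    · rw [if_pos rfl]
      exact hpp b
    · intro p _ hp
      rw [if_neg hp, ps_zero, zero_mul]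
    · intro h
      exact absurd (Finset.mem_univ _) h
  have hG : GSys (q + (cF + cN)) (((H : ℝ) + 2) ^ ((B + 1) * E₃)) ((∏ l, Tg P (g l)) * FF) (wf P m Δ g J) :=
    hcol.mono le_rfl (pow_base H _ _)
  refine ⟨(∏ l, Tg P (g l)) * FF, hG.mono le_rfl (base_mono hHB (by omega)), fun x hx0 hxE => ?_⟩
  have hxR : ∀ a, a ≤ (B + 1) * E₃ + (E₂ + n) + (E₆ + 1) → ‖x‖ * ((H : ℝ) + 2) ^ a ≤ 1 := fun a ha =>
    (mul_le_mul_of_nonneg_left (base_mono hHB ha) (norm_nonneg _)).trans hxE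
  have hxp : 0 < ‖x‖ := norm_pos_iff.2 hx0
  -- convergence
  have hxlt : ((H : ℝ) + 2) ^ E₆ * ‖x‖ < 1 := by
    refine lt_of_lt_of_le ?_ (hxR (E₆ + 1) (by omega))
    rw [mul_comm]
    refine mul_lt_mul_of_pos_left ?_ hxp
    exact pow_lt_pow_right₀ (by linarith [show (0 : ℝ) ≤ H by positivity]) (by omega)
  have hcvb : ∀ (l : Fin N) (b : BI m), Cvc x (bf P m (g l) b) := by
    intro l b
    refine Cvc.of_bound (A := ((H : ℝ) + 2) ^ E₆) (B := ((H : ℝ) + 2) ^ E₆) (by positivity) hxlt fun i => ?_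
    have h1 : |((coeff i (bf P m (g l) b) : ℚ) : ℝ)| ≤ ((((g l : ℕ) : ℝ) + 2) ^ E₆) ^ (i + 1) :=
      (hE₆ (g l)).1.size b i
    have h2 : ((((g l : ℕ) : ℝ) + 2) ^ E₆) ^ (i + 1) ≤ (((H : ℝ) + 2) ^ E₆) ^ (i + 1) :=
      pow_le_pow_left₀ (by positivity) (pow_le_pow_left₀ (by positivity) (hgl l) _) _
    have h3 := h1.trans h2
    rw [pow_succ'] at h3
    rw [Complex.norm_ratCast]
    exact h3
  -- non-vanishing
  have hph : ∀ i : Fin s × Fin N, Polynomial.aeval x (phi (P i.1) (g i.2)) ≠ 0 := fun i =>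
    phi_neC (hP i.1).1.pos (hna i.1) (hφc i) (hxR _ (by omega))
  refine ⟨?_, fun i => ?_, fun i => ?_⟩
  · rw [map_mul, map_prod]
    refine mul_ne_zero (Finset.prod_ne_zero_iff.2 fun l _ => ?_) ?_
    · unfold Tg
      rw [map_mul, map_mul, Polynomial.aeval_X, map_prod]
      refine mul_ne_zero (mul_ne_zero hx0 (Finset.prod_ne_zero_iff.2 fun a _ => hph (a, l))) ?_
      rw [map_add, map_mul, map_one, Polynomial.aeval_X, Polynomial.aeval_C]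
      intro h
      have h1 : ((g l : ℕ) : ℂ) * x = -1 := by
        have h2 : (algebraMap ℤ ℂ) (g l : ℤ) = ((g l : ℕ) : ℂ) := by simp
        rw [h2] at h
        linear_combination h
      have h2 : ‖((g l : ℕ) : ℂ) * x‖ = 1 := by rw [h1]; simp
      rw [norm_mul, Complex.norm_natCast] at h2
      have h3 := hxR 1 (by omega)
      rw [pow_one] at h3
      have h4 := hgl l
      nlinarith
    · rw [hFF]
      unfold fac
      rw [map_mul, map_prod, map_prod]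
      refine mul_ne_zero (Finset.prod_ne_zero_iff.2 fun i _ => ?_) (Finset.prod_ne_zero_iff.2 fun i _ => ?_)
      · rw [map_pow, map_mul, Polynomial.aeval_C]
        refine pow_ne_zero _ (mul_ne_zero ?_ (hph i))
        rw [eq_intCast]
        exact_mod_cast (hM0 i).ne'
      · rw [map_pow]
        exact pow_ne_zero _ (hph i)
  · have h1 := hcvb i.2 (Sum.inl (Sum.inl (sgl i.1)))
    have h2 : bf P m (g i.2) (Sum.inl (Sum.inl (sgl i.1))) = rt P g i := RS_sgl P (g i.2) i.1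
    rw [h2] at h1
    exact h1
  · rcases i with ⟨l, aj | u⟩
    · exact hcvb l (Sum.inl (Sum.inr aj))
    · exact hcvb l (Sum.inr u)

end Pool.Agent.R351.GD
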