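import Pool.Agent.Y333.SL.ValcS0
import Pool.Agent.Y333.SL.ValcS
import Pool.Agent.R351.GD.Valc
import Pool.Agent.R351.GD.S.GK2
import Pool.Agent.R351.GD.S.GS

/-!
# Values of the semi-abelian G-system at an algebraic point, with an exponent polynomial in the degree
-/

set_option autoImplicit false

open PowerSeries

namespace Pool.Agent.R351.GD

open Pool.Agent.Y113

theorem exists_D_abs' (f : ℕ → ℕ) (n Δ c : ℕ) (h1f : ∀ D, 1 ≤ f D) (hf : ∀ D, f D ≤ (D + 1) ^ n) :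
    ∃ D : ℕ, D ≤ c * (4 * n * (c * Δ + n + 2) ^ 2 + 1) * Δ + Δ ∧ c * (f (D + Δ) - f D) ≤ f (D + Δ) := by
  by_contra hcon
  push Not at hcon
  set K := 4 * n * (c * Δ + n + 2) ^ 2 + 1 with hK
  have hcon' : ∀ D, D ≤ c * K * Δ + Δ → f (D + Δ) < c * (f (D + Δ) - f D) := hcon
  have hlt : ∀ D, D ≤ c * K * Δ + Δ → f D < f (D + Δ) := by
    intro D hD
    by_contra h
    push Not at h
    have h1 := hcon' D hD
    rw [Nat.sub_eq_zero_of_le h] at h1
    omega
  have hR : ∀ D, D ≤ c * K * Δ + Δ → ((f (D + Δ) : ℕ) : ℝ) < c * ((f (D + Δ) : ℝ) - f D) := by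
    intro D hD
    have h1 := hcon' D hD
    have h2 : (((f (D + Δ) : ℕ) : ℝ)) < ((c * (f (D + Δ) - f D) : ℕ) : ℝ) := by exact_mod_cast h1
    rw [Nat.cast_mul, Nat.cast_sub (hlt D hD).le] at h2
    exact h2
  have hpos : ∀ D, (1 : ℝ) ≤ f D := fun D => by exact_mod_cast h1f D
  have hc : (1 : ℝ) < c := by
    by_contra h
    push Not at h
    have h1 := hR 0 (Nat.zero_le _)
    have h2 := hpos 0
    have h3 := hpos (0 + Δ)
    have h4 : ((f 0 : ℕ) : ℝ) < f (0 + Δ) := by exact_mod_cast hlt 0 (Nat.zero_le _)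
    nlinarith
  set r : ℝ := c / (c - 1) with hr
  have hc1 : (0 : ℝ) < c - 1 := by linarith
  have hr1 : 1 < r := by
    rw [hr, lt_div_iff₀ hc1]
    linarith
  have hstep : ∀ D, D ≤ c * K * Δ + Δ → r * f D ≤ f (D + Δ) := by
    intro D hD
    rw [hr, div_mul_eq_mul_div, div_le_iff₀ hc1]
    have := hR D hD
    nlinarith
  have hgrow : ∀ j : ℕ, j ≤ c * K → r ^ j ≤ f (j * Δ) := by
    intro j
    induction j with
    | zero => intro _; simpa using hpos 0
    | succ j ih =>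
      intro hj
      calc r ^ (j + 1) = r * r ^ j := by ring
        _ ≤ r * f (j * Δ) := mul_le_mul_of_nonneg_left (ih (by omega)) (by linarith)
        _ ≤ f (j * Δ + Δ) := hstep _ (by
            have := Nat.mul_le_mul_right Δ (show j ≤ c * K by omega)
            omega)
        _ = f ((j + 1) * Δ) := by rw [add_mul, one_mul]
  have h1 := hgrow (c * K) le_rfl
  have h2 : (2 : ℝ) ≤ r ^ c := by
    have h3 : r = 1 + 1 / (c - 1) := by rw [hr]; field_simp; ring
    have h4 := one_add_mul_le_pow (show (-2 : ℝ) ≤ 1 / (c - 1) by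
      have : (0 : ℝ) ≤ 1 / (c - 1) := by positivity
      linarith) c
    rw [← h3] at h4
    refine le_trans ?_ h4
    have h5 : (1 : ℝ) ≤ c * (1 / (c - 1)) := by
      rw [mul_one_div, le_div_iff₀ hc1]
      linarith
    linarith
  have h3 : (2 : ℝ) ^ K ≤ r ^ (c * K) := by
    rw [pow_mul]
    exact pow_le_pow_left₀ (by norm_num) h2 _
  have h4 : (f (c * K * Δ) : ℝ) ≤ ((c * K * Δ + 1 : ℕ) : ℝ) ^ n := by
    exact_mod_cast hf (c * K * Δ)
  have h5 : (((c * K * Δ + 1 : ℕ) : ℝ)) ^ n < 2 ^ K := by exact_mod_cast aux_grow c n Δ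
  linarith


open Pool.Agent.Y916.Hy Pool.Agent.Y916.Sa Pool.Agent.Y120.GF Pool.Agent.Y960.SA Pool.Agent.Y916.Al
open Pool.Agent.Y333.SL (exists_d' DD_sum supp_mul supp_sum vec vec_indep aeval_sum)

theorem valcS_exp (hrt : S_rt) (halg : S_alg) (heint : S_eint) (hkap : S_kap) :
    ∀ (s : ℕ) (P : Fin s → Polynomial ℤ) (m : Fin s → ℕ),
  (∀ a, GoodO (P a) ∧ m a < (P a).natDegree) → LI P m → ∀ N d A : ℕ, ∃ E : ℕ → ℕ, PB E ∧
  ∀ (Δ H : ℕ) (K : IntermediateField ℚ ℂ)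
  (x : K) (X : ℝ), FiniteDimensional ℚ K → Module.finrank ℚ K ≤ d → x ≠ 0 → Pt K x X →
  ‖(x : ℂ)‖ * ((H : ℝ) + 2) ^ E Δ ≤ 1 → X * ‖(x : ℂ)‖ ^ A ≤ 1 →
  ∀ g : Fin N → ℕ, Function.Injective g → (∀ l, 1 ≤ g l ∧ g l ≤ H) →
  ∀ Q : MvPolynomial (Fin N × Tau m) ℚ, Q.totalDegree ≤ Δ →
    MvPolynomial.aeval (fun i => evc (x : ℂ) (Yg P m (g i.1) i.2)) Q = 0 → Q = 0 := by
  classical
  intro s P m hP hLI N d A
  set n₀ := Fintype.card (Tau m) * N with hn₀
  choose D' hDΔ' hD' using fun Δ : ℕ => exists_D_abs' (fun D => Fintype.card (Fin N → Dx m D)) n₀ Δ (2 * A * d)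
    (Pool.Agent.Y333.SL.one_le_card m N) (Pool.Agent.Y333.SL.card_le m N)
  obtain ⟨q', E₁', hqp, hE₁p, hE₁'⟩ := gs_exp hrt halg heint hkap s P m hP N
  have hDp : PB fun Δ => D' Δ + Δ := by
    refine PB.add (PB.of_le ?_ hDΔ') PB.id
    have h1 := (((PB.const (2 * A * d)).mul PB.id).add (PB.const n₀)).add (PB.const 2)
    have h2 := ((PB.const (4 * n₀)).mul (h1.pow 2)).add (PB.const 1)
    exact (((PB.const (2 * A * d)).mul h2).mul PB.id).add PB.id
  have hNkp : PB fun Δ => Fintype.card (Finset (Fin s × Fin N) × (Fin N → Dx m (D' Δ + Δ))) := by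
    have h1 : PB fun Δ => (D' Δ + Δ + 1) ^ n₀ := (hDp.add (PB.const 1)).pow n₀
    refine PB.of_le ((PB.const (Fintype.card (Finset (Fin s × Fin N)))).mul h1) fun Δ => ?_
    rw [Fintype.card_prod]
    exact Nat.mul_le_mul_left _ (Pool.Agent.Y333.SL.card_le m N _)
  refine ⟨fun Δ => (E₁' (D' Δ + Δ) + 1) * EK d (q' (D' Δ + Δ))
    (Fintype.card (Finset (Fin s × Fin N) × (Fin N → Dx m (D' Δ + Δ)))) + E₁' (D' Δ + Δ), ?_,
    fun Δ H K x X hfd hrk hx0 hPt hxE hXA g hg hgH Q hQ hQv => ?_⟩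
  · exact (((hE₁p.comp hDp).add (PB.const 1)).mul (EK_PB d (hqp.comp hDp) hNkp)).add (hE₁p.comp hDp)
  have hD := hD' Δ
  set D := D' Δ
  have hE₁ := hE₁' (D + Δ)
  set q := q' (D + Δ)
  set E₁ := E₁' (D + Δ)
  set Nk := Fintype.card (Finset (Fin s × Fin N) × (Fin N → Dx m (D + Δ))) with hNk
  set E₂ := EK d q Nk with hE₂
  have hHB : (1 : ℝ) ≤ (H : ℝ) + 2 := one_le_base H
  have hxR : ∀ a, a ≤ (E₁ + 1) * E₂ + E₁ → ‖(x : ℂ)‖ * ((H : ℝ) + 2) ^ a ≤ 1 := fun a ha =>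
    (mul_le_mul_of_nonneg_left (base_mono hHB ha) (norm_nonneg _)).trans hxE
  have hx0' : (x : ℂ) ≠ 0 := by exact_mod_cast hx0
  obtain ⟨J, hJ, hind⟩ := hLI N g hg fun l => (hgH l).1
  obtain ⟨T, hG, hT⟩ := hE₁ H g (fun l => (hgH l).2) J hJ
  obtain ⟨hTx, hcr, hcv⟩ := hT (x : ℂ) hx0' (hxR _ (by omega))
  -- the functions are linearly independent
  have hlin : LinearIndependent (Polynomial ℚ) (wf P m (D + Δ) g J) := by
    have h1 := hind.comp (fun p : KI m (D + Δ) J => (p.1, DD m (D + Δ) p.2)) (by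
      intro p p' h
      have e1 := congrArg Prod.fst h
      have e2 := congrArg Prod.snd h
      exact Prod.ext e1 (DD_inj m (D + Δ) e2))
    have h2 : wf P m (D + Δ) g J = (fun p : {T : Finset (Fin s × Fin N) // T ⊆ J} × (Fin N × Tau m →₀ ℕ) =>
          (∏ i ∈ p.1.1, Rt (phi (P i.1) (g i.2))) * p.2.prod fun x e => Yg P m (g x.1) x.2 ^ e) ∘
          (fun p : KI m (D + Δ) J => (p.1, DD m (D + Δ) p.2)) := by
      funext p
      exact wf_eq P m (D + Δ) g J p
    rw [h2]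
    exact h1
  -- the polynomial over `K`
  by_contra hQne
  set QK : MvPolynomial (Fin N × Tau m) K := MvPolynomial.map (algebraMap ℚ K) Q with hQK
  have hQK0 : QK ≠ 0 := by
    intro h1
    apply hQne
    apply MvPolynomial.map_injective (algebraMap ℚ K) (algebraMap ℚ K).injective
    rw [← hQK, h1, map_zero]
  have hQKd : QK.totalDegree ≤ Δ := by
    refine le_trans ?_ hQ
    unfold MvPolynomial.totalDegree
    exact Finset.sup_mono (MvPolynomial.support_map_subset _ _)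
  have hQKv : MvPolynomial.aeval (fun i => evc (x : ℂ) (Yg P m (g i.1) i.2)) QK = 0 := by
    rw [hQK, MvPolynomial.aeval_map_algebraMap]
    exact hQv
  -- the values of the monomials
  have hmo : ∀ p : KI m (D + Δ) J, evc (x : ℂ) (wf P m (D + Δ) g J p) =
      (∏ i ∈ p.1.1, evc (x : ℂ) (rt P g i)) *
        ∏ i, (evc (x : ℂ) (Yg P m (g i.1) i.2)) ^ (DD m (D + Δ) p.2 i) := by
    intro p
    have h3 : wf P m (D + Δ) g J p = (∏ i ∈ p.1.1, rt P g i) *
        ∏ i, Yg P m (g i.1) i.2 ^ (DD m (D + Δ) p.2 i) := by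
      rw [wf_eq P m (D + Δ) g J p, Finsupp.prod_fintype _ _ (fun _ => pow_zero _)]
      rfl
    rw [h3, (Cvc.prod _ _ fun i _ => hcr i).ev_mul (Cvc.prod _ _ fun i _ => (hcv i).pow _),
      Cvc.ev_prod _ _ (fun i _ => hcr i), Cvc.ev_prod _ _ (fun i _ => (hcv i).pow _)]
    congr 1
    exact Finset.prod_congr rfl fun i _ => (hcv i).ev_pow _
  -- enumeration
  have hcard : Fintype.card (KI m (D + Δ) J) ≤ Nk := by
    rw [hNk, Fintype.card_prod, Fintype.card_prod]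
    refine Nat.mul_le_mul_right _ ?_
    exact Fintype.card_subtype_le _
  let eqv : Fin (Fintype.card (KI m (D + Δ) J)) ≃ KI m (D + Δ) J := (Fintype.equivFin _).symm
  let eqv' : Fin (Fintype.card (KI m D J)) ≃ KI m D J := (Fintype.equivFin _).symm
  obtain ⟨b₀, hb₀⟩ := exists_d' m (D + Δ) (N := N) 0 (by simp)
  let e₀ : KI m (D + Δ) J := (⟨∅, Finset.empty_subset J⟩, b₀)
  have hE₂le : EK d q (Fintype.card (KI m (D + Δ) J)) ≤ E₂ := EK_mono d q hcard
  refine gk_ex d A q _ _ T (fun j => wf P m (D + Δ) g J (eqv j)) (eqv.symm e₀) K x X hfd hrk hx0 hPt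
    (hG.reindex eqv) ?_ ?_ ?_ hXA hTx (Fintype.card (KI m D J))
    (fun r j => if (eqv j).1 = (eqv' r).1 then vec m QK (D + Δ) (eqv' r).2 (eqv j).2 else 0) ?_ ?_ ?_
  · rw [Equiv.apply_symm_apply, wf_eq P m (D + Δ) g J e₀]
    dsimp only [e₀]
    rw [hb₀]
    simp
  · exact hlin.comp _ eqv.injective
  · refine (mul_le_mul_of_nonneg_left ?_ (norm_nonneg _)).trans (hxR ((E₁ + 1) * E₂) (by omega))
    exact (pow_base H _ _).trans (base_mono hHB (Nat.mul_le_mul_left _ hE₂le))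
  · rw [Fintype.linearIndependent_iff]
    intro c hc r
    set T' := (eqv' r).1 with hT'
    have h1 := vec_indep m (D := D) QK hQK0 hQKd (fun e' => c (eqv'.symm (T', e'))) (by
      intro e
      have h2 := congrFun hc (eqv.symm (T', e))
      rw [Finset.sum_apply] at h2
      simp only [Pi.smul_apply, smul_eq_mul, Equiv.apply_symm_apply, Pi.zero_apply] at h2
      rw [← Equiv.sum_comp eqv'.symm, Fintype.sum_prod_type, Finset.sum_eq_single T'] at h2
      · simp only [Equiv.apply_symm_apply, if_true] at h2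
        exact h2
      · intro T'' _ hne
        refine Finset.sum_eq_zero fun e' _ => ?_
        rw [Equiv.apply_symm_apply, if_neg (fun h => hne h.symm), mul_zero]
      · intro h
        exact absurd (Finset.mem_univ _) h) (eqv' r).2
    have h3 : (T', (eqv' r).2) = eqv' r := rfl
    rw [h3, Equiv.symm_apply_apply] at h1
    exact h1
  · intro r
    set p' := eqv' r with hp'
    have h1 : MvPolynomial.aeval (fun i => evc (x : ℂ) (Yg P m (g i.1) i.2))
        (QK * MvPolynomial.monomial (DD m D p'.2) (1 : K)) = 0 := by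
      rw [map_mul, hQKv, zero_mul]
    have h2 : ∀ δ ∈ (QK * MvPolynomial.monomial (DD m D p'.2) (1 : K)).support, ∀ l, ∑ x, δ (l, x) ≤ D + Δ := by
      refine supp_mul m QK _ hQKd fun δ hδ => ?_
      have h3 := MvPolynomial.support_monomial_subset hδ
      rw [Finset.mem_singleton] at h3
      rw [h3]
      exact DD_sum m p'.2
    rw [aeval_sum m _ h2] at h1
    rw [Equiv.sum_comp eqv (fun p => ((if p.1 = p'.1 then vec m QK (D + Δ) p'.2 p.2 else 0 : K) : ℂ) *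
      evc (x : ℂ) (wf P m (D + Δ) g J p)), Fintype.sum_prod_type, Finset.sum_eq_single p'.1]
    · have h4 : ∀ e : Fin N → Dx m (D + Δ), ((if p'.1 = p'.1 then vec m QK (D + Δ) p'.2 e else 0 : K) : ℂ) *
          evc (x : ℂ) (wf P m (D + Δ) g J (p'.1, e)) = (∏ i ∈ p'.1.1, evc (x : ℂ) (rt P g i)) *
            (algebraMap K ℂ (MvPolynomial.coeff (DD m (D + Δ) e)
              (QK * MvPolynomial.monomial (DD m D p'.2) (1 : K))) *
              ∏ i, (evc (x : ℂ) (Yg P m (g i.1) i.2)) ^ (DD m (D + Δ) e i)) := by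
        intro e
        rw [if_pos rfl, hmo]
        unfold vec
        show ((MvPolynomial.coeff (DD m (D + Δ) e)
              (QK * MvPolynomial.monomial (DD m D p'.2) (1 : K)) : K) : ℂ) * _ = _ * (((MvPolynomial.coeff
                (DD m (D + Δ) e) (QK * MvPolynomial.monomial (DD m D p'.2) (1 : K)) : K) : ℂ) * _)
        ring
      rw [Finset.sum_congr rfl fun e _ => h4 e, ← Finset.mul_sum, h1, mul_zero]
    · intro T'' _ hne
      refine Finset.sum_eq_zero fun e _ => ?_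
      rw [if_neg hne]
      simp
    · intro h
      exact absurd (Finset.mem_univ _) h
  · rw [Fintype.card_prod, Fintype.card_prod, ← Nat.mul_sub]
    calc 2 * A * d * (Fintype.card {T : Finset (Fin s × Fin N) // T ⊆ J} *
          (Fintype.card (Fin N → Dx m (D + Δ)) - Fintype.card (Fin N → Dx m D)))
        = Fintype.card {T : Finset (Fin s × Fin N) // T ⊆ J} * (2 * A * d *
          (Fintype.card (Fin N → Dx m (D + Δ)) - Fintype.card (Fin N → Dx m D))) := by ring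
      _ ≤ _ := Nat.mul_le_mul_left _ hD

theorem t_valcS_exp (s : ℕ) (P : Fin s → Polynomial ℤ) (m : Fin s → ℕ)
    (hP : ∀ a, GoodO (P a) ∧ m a < (P a).natDegree) (hLI : LI P m) (N d A : ℕ) : ∃ E : ℕ → ℕ, PB E ∧
    ∀ (Δ H : ℕ) (K : IntermediateField ℚ ℂ)
    (x : K) (X : ℝ), FiniteDimensional ℚ K → Module.finrank ℚ K ≤ d → x ≠ 0 → Pt K x X →
    ‖(x : ℂ)‖ * ((H : ℝ) + 2) ^ E Δ ≤ 1 → X * ‖(x : ℂ)‖ ^ A ≤ 1 →
    ∀ g : Fin N → ℕ, Function.Injective g → (∀ l, 1 ≤ g l ∧ g l ≤ H) →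
    ∀ Q : MvPolynomial (Fin N × Tau m) ℚ, Q.totalDegree ≤ Δ →
      MvPolynomial.aeval (fun i => evc (x : ℂ) (Yg P m (g i.1) i.2)) Q = 0 → Q = 0 :=
  valcS_exp Pool.Agent.Y419.HY.t_rt Pool.Agent.Y419.HY.t_alg Pool.Agent.Y419.HY.t_eint
    (Pool.Agent.Y201.SA.t_kap Pool.Agent.Y419.HY.t_rt) s P m hP hLI N d A

end Pool.Agent.R351.GD
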