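import Pool.Agent.Y916.Sl.Wnd
import Pool.Agent.Y916.Sl.Ell
import Pool.Agent.R351.GD.S.ValcS
import Pool.Agent.R351.GD.P.AH

/-!
# Windows around points of number fields, with exponents which are polynomial in the degree
-/

set_option autoImplicit false

open Module

namespace Pool.Agent.R351.GD

section

open Pool.Agent.Y916.Om

/-- windows for numbers `x` linked to the values over a field `K₀`, and affine changes `y` of `x` over `K` -/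
theorem winF_exp (Ev : ℕ → ℕ → ℕ) (hEv : ∀ N, PB (Ev N)) {σ : Type} [Fintype σ] [DecidableEq σ] (r d₀ τ A B : ℕ) :
    ∃ E : ℕ → ℕ, PB E ∧ ∀ (δ : ℕ) (Ω : Type) [Field Ω] [CharZero Ω] (I : Type) (size : I → ℕ) (val : I → ℕ → σ → Ω),
    Inp Ev size val → ∀ (H : ℕ) (t : I), (H + 2) ^ E δ ≤ size t →
    ∀ (υ : Type) [Fintype υ] (w : υ → Ω) (T : Finset υ), T.card = τ → Dom A B w T →
    ∀ K₀ : IntermediateField ℚ Ω, FiniteDimensional ℚ K₀ → finrank ℚ K₀ ≤ d₀ →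
    ∃ S : Finset ℕ, S.card ≤ τ ∧ ∀ g : Fin r → ℕ, Function.Injective g → (∀ i, 1 ≤ g i ∧ g i ≤ H ∧ g i ∉ S) →
      ∀ x : Fin r × σ → Ω, (∀ p, ∃ a : K₀, a ≠ 0 ∧
        x p - a * val t (g p.1) p.2 ∈ Submodule.span K₀ (insert 1 (Set.range w))) →
      ∀ K : IntermediateField ℚ Ω, FiniteDimensional ℚ K → finrank ℚ K ≤ δ →
      ∀ y : Fin r × σ → Ω, (∀ p, ∃ b : K, b ≠ 0 ∧ y p - b * x p ∈ Submodule.span K (insert 1 (Set.range w))) →
      ∀ P : MvPolynomial (υ ⊕ Fin r × σ) K, P.totalDegree ≤ δ → MvPolynomial.aeval (Sum.elim w y) P = 0 →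
      MvPolynomial.aeval (Sum.elim (fun j => MvPolynomial.C (w j)) MvPolynomial.X) P
        = (0 : MvPolynomial (Fin r × σ) Ω) := by
  classical
  obtain ⟨E, hEp, hE⟩ := awh_exp Ev hEv (σ := σ) r τ A B
  refine ⟨fun δ => E (δ * d₀ + δ), hEp.comp ((PB.id.mul (PB.const d₀)).add PB.id),
    fun δ Ω _ _ I size val hval H t ht υ _ w T hT hD K₀ hK₀f hK₀d => ?_⟩
  obtain ⟨S, hS, hwin⟩ := hE (δ * d₀ + δ) Ω I size val hval H t ht υ w T hT hD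
  refine ⟨S, hS, fun g hg hgb x hx K hKf hKd y hy P hPd hPv => ?_⟩
  have hK : K ≤ K ⊔ K₀ := le_sup_left
  have hK₀ : K₀ ≤ K ⊔ K₀ := le_sup_right
  set j : K →+* (K ⊔ K₀ : IntermediateField ℚ Ω) :=
    (IntermediateField.inclusion hK : K →+* (K ⊔ K₀ : IntermediateField ℚ Ω)) with hj
  have hjv : ∀ z : K, ((j z : (K ⊔ K₀ : IntermediateField ℚ Ω)) : Ω) = z := fun z => rfl
  have key : ∀ p : Fin r × σ, ∃ a : (K ⊔ K₀ : IntermediateField ℚ Ω), a ≠ 0 ∧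
      y p - a * val t (g p.1) p.2 ∈ Submodule.span (K ⊔ K₀ : IntermediateField ℚ Ω) (insert 1 (Set.range w)) := by
    intro p
    obtain ⟨a, ha, h1⟩ := hx p
    obtain ⟨b, hb, h2⟩ := hy p
    refine ⟨⟨b, hK b.2⟩ * ⟨a, hK₀ a.2⟩, mul_ne_zero ?_ ?_, ?_⟩
    · intro h
      have h' : (b : Ω) = 0 := congrArg (fun z : (K ⊔ K₀ : IntermediateField ℚ Ω) => (z : Ω)) h
      exact hb (Subtype.ext h')
    · intro h
      have h' : (a : Ω) = 0 := congrArg (fun z : (K ⊔ K₀ : IntermediateField ℚ Ω) => (z : Ω)) h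
      exact ha (Subtype.ext h')
    · have h3 : y p - (((⟨b, hK b.2⟩ * ⟨a, hK₀ a.2⟩ : (K ⊔ K₀ : IntermediateField ℚ Ω))) : Ω) * val t (g p.1) p.2 =
          (y p - b * x p) + (⟨b, hK b.2⟩ : (K ⊔ K₀ : IntermediateField ℚ Ω)) • (x p - a * val t (g p.1) p.2) := by
        rw [Algebra.smul_def]
        change y p - ((b : Ω) * (a : Ω)) * val t (g p.1) p.2 =
          (y p - b * x p) + (b : Ω) * (x p - a * val t (g p.1) p.2)
        ring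
      rw [h3]
      exact Submodule.add_mem _ (span_field hK h2) (Submodule.smul_mem _ _ (span_field hK₀ h1))
  have h9 := hwin g hg hgb (K ⊔ K₀) inferInstance
    (((IntermediateField.finrank_sup_le K K₀).trans (Nat.mul_le_mul hKd hK₀d)).trans (Nat.le_add_right _ _)) y key
    (MvPolynomial.map j P) (by
      refine le_trans (le_of_eq ?_) (hPd.trans (Nat.le_add_left _ _))
      unfold MvPolynomial.totalDegree
      rw [MvPolynomial.support_map_of_injective _ j.injective]) (by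
      rw [MvPolynomial.aeval_def, MvPolynomial.eval₂_map, ← hPv, MvPolynomial.aeval_def]
      rfl)
  rw [MvPolynomial.aeval_def, MvPolynomial.eval₂_map] at h9
  rw [MvPolynomial.aeval_def]
  exact h9



end

section

open Pool.Agent.Y113 Pool.Agent.Y916 Pool.Agent.Y916.AW Pool.Agent.Y916.Al Pool.Agent.Y916.Sl

/-- the input: numbers `val ξ g s` without relations at the points `ξ` of number fields; the exponent is polynomially
bounded in the degree of the relations -/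
def InpE {σ : Type} (val : ℂ → ℕ → σ → ℂ) : Prop :=
  ∀ N d A : ℕ, ∃ E : ℕ → ℕ, PB E ∧ ∀ (Δ H : ℕ) (K : IntermediateField ℚ ℂ) (ξ : K) (X : ℝ), FiniteDimensional ℚ K →
    finrank ℚ K ≤ d → Al.Pt K ξ X → ((H : ℝ) + 2) ^ E Δ ≤ ‖(ξ : ℂ)‖ → X ≤ ‖(ξ : ℂ)‖ ^ A →
    ∀ g : Fin N → ℕ, Function.Injective g → (∀ l, 1 ≤ g l ∧ g l ≤ H) →
    ∀ Q : MvPolynomial (Fin N × σ) ℚ, Q.totalDegree ≤ Δ → MvPolynomial.aeval (fun i => val ξ (g i.1) i.2) Q = 0 → Q = 0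

theorem inpE_I {σ : Type} {val : ℂ → ℕ → σ → ℂ} (hval : InpE val) (d A : ℕ) :
    ∃ Ev : ℕ → ℕ → ℕ, (∀ N, PB (Ev N)) ∧
      Om.Inp Ev (I := PtI d A) (σ := σ) (Ω := ℂ) PtI.size (fun i g s => val i.ξ g s) := by
  choose Ev hEvp hEv using fun N => hval N d A
  refine ⟨Ev, hEvp, fun N Δ H i hi g hg hgb P hP hP0 => ?_⟩
  refine hEv N Δ H i.K i.ξ i.X i.fd i.rk i.pt ?_ i.hX g hg hgb P hP hP0
  have h1 : (((H + 2) ^ Ev N Δ : ℕ) : ℝ) ≤ (i.size : ℝ) := by exact_mod_cast hi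
  push_cast at h1
  exact h1.trans (Nat.floor_le (norm_nonneg _))

/-- windows -/
theorem windowU_exp {σ : Type} [Fintype σ] [DecidableEq σ] (val : ℂ → ℕ → σ → ℂ) (hval : InpE val) (x : ℂ → σ → ℂ)
    (Dm : ℂ → Prop) {υ : Type} [Fintype υ] (u : υ → ℂ) (m e E₁ : ℕ) (hlink : LinkU val x Dm u m e E₁)
    (r τ A : ℕ) :
    ∃ E : ℕ → ℕ, PB E ∧ ∀ (δ H : ℕ) (K₁ : IntermediateField ℚ ℂ) (ξ : K₁) (X : ℝ), FiniteDimensional ℚ K₁ →
      finrank ℚ K₁ ≤ m → Al.Pt K₁ ξ X → ((H : ℝ) + 2) ^ E δ ≤ ‖(ξ : ℂ)‖ → X ≤ ‖(ξ : ℂ)‖ ^ A → ∀ w : Fin τ → ℂ, ∃ S : Finset ℕ,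
        (S.card : Cardinal) ≤ τ + 1 + Algebra.trdeg ℚ (IntermediateField.adjoin ℚ (Set.range u)) ∧
        ∀ g : Fin r → ℕ, Function.Injective g → (∀ i, 1 ≤ g i ∧ g i ≤ H ∧ g i ∉ S ∧ Dm ((ξ : ℂ) + g i)) →
        ∀ K : IntermediateField ℚ ℂ, FiniteDimensional ℚ K → finrank ℚ K ≤ δ →
        ∀ y : Fin r × σ → ℂ, (∀ p, ∃ b : K, b ≠ 0 ∧ y p - b * x ((ξ : ℂ) + g p.1) p.2 ∈
            Submodule.span K (insert 1 (Set.range (Sum.elim w u)))) →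
        ∀ P : MvPolynomial ((Fin τ ⊕ υ) ⊕ Fin r × σ) K,
          P.totalDegree ≤ δ → MvPolynomial.aeval (Sum.elim (Sum.elim w u) y) P = 0 →
          MvPolynomial.aeval (Sum.elim (fun j => MvPolynomial.C (Sum.elim w u j)) MvPolynomial.X) P =
            (0 : MvPolynomial (Fin r × σ) ℂ) := by
  classical
  obtain ⟨T, hTc, hT⟩ := Om.exists_base u
  obtain ⟨A', B', hAB⟩ := Om.Dom.exists u T hT
  obtain ⟨Ev, hEvp, hEv⟩ := inpE_I hval m A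
  obtain ⟨E₂', hE₂p, hE₂'⟩ := winF_exp Ev hEvp (σ := σ) r e (τ + T.card + 1) A' B'
  refine ⟨fun δ => E₁ + E₂' δ, (PB.const E₁).add hE₂p, fun δ H K₁ ξ X hK₁f hK₁d hPt hξ hXξ w => ?_⟩
  have hE₂ := hE₂' δ
  set E₂ := E₂' δ
  have hHR : (1 : ℝ) ≤ (H : ℝ) + 2 := by linarith [(Nat.cast_nonneg H : (0 : ℝ) ≤ H)]
  have hbig : ∀ E ≤ E₁ + E₂, (((H + 2) ^ E : ℕ) : ℝ) ≤ ‖(ξ : ℂ)‖ := fun E hE => by
    push_cast
    exact (pow_le_pow_right₀ hHR hE).trans hξ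
  set i : PtI m A := ⟨K₁, ξ, X, hK₁f, hK₁d, hPt, hXξ⟩ with hi
  have hsize : (H + 2) ^ E₂ ≤ i.size := Nat.le_floor (hbig E₂ (by omega))
  obtain ⟨K₀, hK₀f, hK₀d, w₀, hK₀⟩ := hlink K₁ ξ hK₁f hK₁d
  set v : (Fin τ ⊕ υ) ⊕ Unit → ℂ := Sum.elim (Sum.elim w u) (fun _ => w₀) with hv
  set T' : Finset ((Fin τ ⊕ υ) ⊕ Unit) := ((Finset.univ : Finset (Fin τ)).disjSum T).disjSum Finset.univ with hT'
  have hT'c : T'.card = τ + T.card + 1 := by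
    rw [hT', Finset.card_disjSum, Finset.card_disjSum]
    simp
  have hdom : Om.Dom A' B' v T' := by
    refine hAB.of v T' ?_ ?_
    · intro j hj
      exact ⟨Sum.inl (Sum.inr j), by simp [hT', hj], by simp [hv]⟩
    · rintro ((j | j) | j)
      · exact Or.inl (by simp [hT'])
      · exact Or.inr ⟨j, by simp [hv]⟩
      · exact Or.inl (by simp [hT'])
  obtain ⟨S, hS, hwin⟩ := hE₂ ℂ (PtI m A) PtI.size _ hEv H i hsize _ v T' hT'c hdom K₀ hK₀f hK₀d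
  refine ⟨S, ?_, ?_⟩
  · calc (S.card : Cardinal) ≤ ((τ + T.card + 1 : ℕ) : Cardinal) := by exact_mod_cast hS
      _ = (τ : Cardinal) + 1 + (T.card : Cardinal) := by push_cast; ring
      _ ≤ _ := by gcongr
  intro g hn hnb K hKf hKd y hy P hPd hPv
  have hsub : Submodule.span K (insert (1 : ℂ) (Set.range (Sum.elim w u))) ≤
      Submodule.span K (insert (1 : ℂ) (Set.range v)) := by
    refine Submodule.span_mono ?_
    rintro _ (rfl | ⟨j, rfl⟩)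
    · exact Set.mem_insert _ _
    · exact Set.mem_insert_of_mem _ ⟨Sum.inl j, rfl⟩
  have h9 := hwin g hn (fun i => ⟨(hnb i).1, (hnb i).2.1, (hnb i).2.2.1⟩)
    (fun p => x ((ξ : ℂ) + g p.1) p.2) (fun p => by
      obtain ⟨a, ha, h1⟩ := hK₀ (g p.1) (hnb p.1).1 (by
        refine le_trans ?_ (hbig E₁ (by omega))
        have h2 : (g p.1 + 2) ^ E₁ ≤ (H + 2) ^ E₁ := Nat.pow_le_pow_left (by have := (hnb p.1).2.1; omega) _
        exact_mod_cast h2) (hnb p.1).2.2.2 p.2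
      refine ⟨a, ha, Submodule.span_mono (Set.insert_subset_insert ?_) h1⟩
      rintro _ (rfl | ⟨j, rfl⟩)
      · exact ⟨Sum.inr (), rfl⟩
      · exact ⟨Sum.inl (Sum.inr j), rfl⟩) K hKf hKd y (fun p => by
      obtain ⟨b, hb, h1⟩ := hy p
      exact ⟨b, hb, hsub h1⟩)
    (MvPolynomial.rename (Sum.map Sum.inl id) P) ((MvPolynomial.totalDegree_rename_le _ _).trans hPd) (by
      rw [MvPolynomial.aeval_rename, ← hPv]
      congr 2
      funext x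
      rcases x with i | x <;> rfl)
  rw [MvPolynomial.aeval_rename] at h9
  have h10 : ((Sum.elim (fun j => MvPolynomial.C (v j)) MvPolynomial.X :
      ((Fin τ ⊕ υ) ⊕ Unit) ⊕ Fin r × σ → MvPolynomial (Fin r × σ) ℂ) ∘ Sum.map Sum.inl id) =
      Sum.elim (fun j => MvPolynomial.C (Sum.elim w u j)) MvPolynomial.X := by
    funext x
    rcases x with i | x <;> rfl
  rw [h10] at h9
  exact h9

/-- the same for a point given by an integer polynomial -/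
theorem windowHt_exp {σ : Type} [Fintype σ] [DecidableEq σ] (val : ℂ → ℕ → σ → ℂ) (hval : InpE val) (x : ℂ → σ → ℂ)
    (Dm : ℂ → Prop) {υ : Type} [Fintype υ] (u : υ → ℂ) (m e E₁ : ℕ) (hlink : LinkU val x Dm u m e E₁)
    (r τ A : ℕ) :
    ∃ E : ℕ → ℕ, PB E ∧ ∀ (δ H : ℕ) (ξ : ℂ), ((H : ℝ) + 2) ^ E δ ≤ ‖ξ‖ → Ht m A ξ → ∀ w : Fin τ → ℂ, ∃ S : Finset ℕ,
        (S.card : Cardinal) ≤ τ + 1 + Algebra.trdeg ℚ (IntermediateField.adjoin ℚ (Set.range u)) ∧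
        ∀ g : Fin r → ℕ, Function.Injective g → (∀ i, 1 ≤ g i ∧ g i ≤ H ∧ g i ∉ S ∧ Dm (ξ + g i)) →
        ∀ K : IntermediateField ℚ ℂ, FiniteDimensional ℚ K → finrank ℚ K ≤ δ →
        ∀ y : Fin r × σ → ℂ, (∀ p, ∃ b : K, b ≠ 0 ∧ y p - b * x (ξ + g p.1) p.2 ∈
            Submodule.span K (insert 1 (Set.range (Sum.elim w u)))) →
        ∀ P : MvPolynomial ((Fin τ ⊕ υ) ⊕ Fin r × σ) K,
          P.totalDegree ≤ δ → MvPolynomial.aeval (Sum.elim (Sum.elim w u) y) P = 0 →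
          MvPolynomial.aeval (Sum.elim (fun j => MvPolynomial.C (Sum.elim w u j)) MvPolynomial.X) P =
            (0 : MvPolynomial (Fin r × σ) ℂ) := by
  obtain ⟨E', hEp, hE'⟩ := windowU_exp val hval x Dm u m e E₁ hlink r τ (2 * A + 2)
  refine ⟨fun δ => E' δ + 1, hEp.add (PB.const 1), ?_⟩
  intro δ H ξ hξ hHt w
  have hE := hE' δ
  set E := E' δ
  have hξ : ((H : ℝ) + 2) ^ (E + 1) ≤ ‖ξ‖ := hξ
  obtain ⟨p, hp0, hpd, hpY, hp⟩ := hHt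
  have hH : (1 : ℝ) ≤ (H : ℝ) + 2 := by linarith [(Nat.cast_nonneg H : (0 : ℝ) ≤ H)]
  have hξ2 : (2 : ℝ) ≤ ‖ξ‖ := by
    refine le_trans ?_ hξ
    calc (2 : ℝ) ≤ (H : ℝ) + 2 := by linarith [(Nat.cast_nonneg H : (0 : ℝ) ≤ H)]
      _ ≤ _ := le_self_pow₀ hH (by omega)
  obtain ⟨K₁, ξ', h1, h2, h3, h4⟩ := pt_root hp0 hpd hpY hp
  obtain ⟨S, hS, h⟩ := hE H K₁ ξ' (‖ξ‖ ^ A * (‖ξ‖ ^ A + 2)) h1 h2 h4 (by
    rw [h3]
    exact (pow_le_pow_right₀ hH (by omega)).trans hξ) (by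
    rw [h3]
    have h5 : (1 : ℝ) ≤ ‖ξ‖ ^ A := one_le_pow₀ (by linarith)
    calc ‖ξ‖ ^ A * (‖ξ‖ ^ A + 2) ≤ ‖ξ‖ ^ A * (‖ξ‖ ^ A * ‖ξ‖ ^ 2) := by
          refine mul_le_mul_of_nonneg_left ?_ (by positivity)
          have h6 : (4 : ℝ) ≤ ‖ξ‖ ^ 2 := by nlinarith
          have h7 : ‖ξ‖ ^ A * 4 ≤ ‖ξ‖ ^ A * ‖ξ‖ ^ 2 := mul_le_mul_of_nonneg_left h6 (by positivity)
          linarith
      _ = ‖ξ‖ ^ (2 * A + 2) := by ring) w
  refine ⟨S, hS, ?_⟩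
  rw [h3] at h
  exact h



end

section

open PowerSeries Pool.Agent.Y113 Pool.Agent.Y916.AW Pool.Agent.Y916.Al Pool.Agent.Y916.Hy Pool.Agent.Y916.Sa
open Pool.Agent.Y916.Sl

/-- the values of the power series of the integrals -/
theorem inpE_of {s : ℕ} {P : Fin s → Polynomial ℤ} {m : Fin s → ℕ}
    (hP : ∀ a, GoodO (P a) ∧ m a < (P a).natDegree) (hLI : LI P m) : InpE (vS P m) := by
  intro N d A
  obtain ⟨E, hEp, hE⟩ := t_valcS_exp s P m hP hLI N d A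
  refine ⟨E, hEp, fun Δ H K ξ X hKf hKd hPt hξ hX g hg hgb Q hQ hQ0 => ?_⟩
  have h1 : (1 : ℝ) ≤ ((H : ℝ) + 2) ^ E Δ := one_le_pow₀ (by linarith [(Nat.cast_nonneg H : (0 : ℝ) ≤ H)])
  have hξ0 : (0 : ℝ) < ‖(ξ : ℂ)‖ := by linarith
  have hξ1 : ξ ≠ 0 := by
    rintro rfl
    simp at hξ0
  have hX0 : 0 ≤ X := by
    obtain ⟨u, w, -, -, -, -, hσ⟩ := hPt
    exact (norm_nonneg _).trans (hσ (algebraMap K ℂ)).1
  have hPt' := Pt.inv hX0 hξ1 hPt 1 le_rfl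
  have e1 : (1 / (((1 : ℕ) : K) * ξ) : K) = 1 / ξ := by simp
  have e2 : (((1 : ℕ) : ℝ)) * X = X := by simp
  rw [e1, e2] at hPt'
  have e3 : ((1 / ξ : K) : ℂ) = 1 / (ξ : ℂ) := by push_cast; ring
  refine hE Δ H K (1 / ξ) X hKf hKd (one_div_ne_zero hξ1) hPt' ?_ ?_ g hg hgb Q hQ ?_
  · rw [e3, norm_div, norm_one, div_mul_eq_mul_div, one_mul, div_le_one hξ0]
    exact hξ
  · rw [e3, norm_div, norm_one, div_pow, one_pow, mul_one_div, div_le_one (by positivity)]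
    exact hX
  · rw [e3]
    exact hQ0


end

end Pool.Agent.R351.GD
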