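import Pool.Agent.Y916.Sl.Fin
import Pool.Agent.R351.GD.S.Win

/-!
# Windows for hyperelliptic integrals and elliptic logarithms, with exponents which are polynomial in the degree
-/

set_option autoImplicit false

open Module PowerSeries Filter Topology

namespace Pool.Agent.R351.GD

open Pool.Agent.Y113 Pool.Agent.Y916 Pool.Agent.Y916.AW Pool.Agent.Y916.Al Pool.Agent.Y916.Hy Pool.Agent.Y916.Sa
open Pool.Agent.Y916.Fld Pool.Agent.Y916.Sl
open scoped PeriodPair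

theorem inpE_s {s : ℕ} {F q : Fin s → Polynomial ℤ} (hG : ∀ a, GoodP (F a) (q a)) (hD : Dist F) :
    InpE (vS (PP F q) (mm F q)) := inpE_of (fun a => goodO (hG a)) (lisT s F q hG hD)

theorem inpE_e (a b : ℚ) (hF : Good (Fe a b)) : InpE (vS (Pe a b) (me a b)) :=
  inpE_of (fun _ => ⟨⟨hF.odd, hF.deg, hF.pos⟩, by
    have := hF.deg
    simp only [me, Pe]
    omega⟩) (li_e a b hF)

/-- **Windows** -/
theorem windowsN_exp (hsqi : S_sqi) (hprim : S_prim) {s : ℕ} (F q : Fin s → Polynomial ℤ)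
    (hG : ∀ a, GoodP (F a) (q a)) (hD : Dist F) {u₀ : ℂ} (hu₀ : u₀ ≠ 0) {R : ℝ} {S : Fin s → ℂ → ℂ}
    {Φ : Id F q → ℂ → ℂ} (hP : IsPrim F q u₀ R S Φ) :
    ∃ κ : Id F q → ℂ, (∃ R' : ℝ, ∀ x : ℂ, R' < ‖x‖ → x / u₀ ∈ Complex.slitPlane → ∀ p : Id F q,
      ((PP F q p.1).leadingCoeff : ℂ) * (Φ p x - κ p) ^ 2 =
        x ^ (2 * ((p.2 : ℕ) : ℤ) + 2 - (PP F q p.1).natDegree) * evc (1 / x) (US (PP F q p.1) 0 p.2) ^ 2) ∧
      ∀ (υ : Type) [Fintype υ] (u : υ → ℂ), Set.range κ ⊆ Set.range u → 2 * Real.pi * Complex.I ∈ Set.range u →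
      ∀ r m A τ : ℕ, ∃ E : ℕ → ℕ, PB E ∧ ∀ (δ H : ℕ) (ξ : ℂ), ((H : ℝ) + 2) ^ E δ ≤ ‖ξ‖ → Ht m A ξ → ∀ w : Fin τ → ℂ,
      ∃ T : Finset ℕ,
        (T.card : Cardinal) ≤ τ + 1 + Algebra.trdeg ℚ (IntermediateField.adjoin ℚ (Set.range u)) ∧
        ∀ g : Fin r → ℕ, Function.Injective g → (∀ i, 1 ≤ g i ∧ g i ≤ H ∧ g i ∉ T ∧ DmS u₀ R (ξ + g i)) →
        ∀ K : IntermediateField ℚ ℂ, FiniteDimensional ℚ K → finrank ℚ K ≤ δ →
        ∀ y : Fin r × Tau (mm F q) → ℂ, (∀ p, ∃ b : K, b ≠ 0 ∧ y p - b * xP F q Φ (ξ + g p.1) p.2 ∈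
            Submodule.span K (insert 1 (Set.range (Sum.elim w u)))) →
        ∀ P : MvPolynomial ((Fin τ ⊕ υ) ⊕ Fin r × Tau (mm F q)) K,
          P.totalDegree ≤ δ → MvPolynomial.aeval (Sum.elim (Sum.elim w u) y) P = 0 →
          MvPolynomial.aeval (Sum.elim (fun j => MvPolynomial.C (Sum.elim w u j)) MvPolynomial.X) P =
            (0 : MvPolynomial (Fin r × Tau (mm F q)) ℂ) := by
  obtain ⟨κ, hκ, hlink⟩ := linkS' hprim hsqi hG hu₀ hP
  refine ⟨κ, hκ, fun υ _ u hu hpi r m A τ => ?_⟩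
  obtain ⟨E, hE⟩ := hlink υ u hu hpi m
  exact windowHt_exp (vS (PP F q) (mm F q)) (inpE_s hG hD) (xP F q Φ) (DmS u₀ R) u m _ E hE r τ A


/-- **Windows** -/
theorem ellW_exp (hwpc : S_wpc) (L : PeriodPair) (a b : ℚ) (ha : L.g₂ = a) (hb : L.g₃ = b)
    (r m A τ : ℕ) :
    ∃ E : ℕ → ℕ, PB E ∧ ∀ (δ H : ℕ) (ξ : ℂ), ((H : ℝ) + 2) ^ E δ ≤ ‖ξ‖ → Ht m A ξ → ∀ w : Fin τ → ℂ, ∃ S : Finset ℕ,
      (S.card : Cardinal) ≤ τ + 1 + Algebra.trdeg ℚ (IntermediateField.adjoin ℚ (Set.range (perV L))) ∧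
      ∀ n : Fin r → ℕ, Function.Injective n → (∀ i, 1 ≤ n i ∧ n i ≤ H ∧ n i ∉ S) →
      ∀ p l : Fin r → ℂ, (∀ i, p i ∉ L.lattice ∧ ℘[L] (p i) = ξ + n i ∧ Complex.exp (l i) = ξ + n i) →
      ∀ K : IntermediateField ℚ ℂ, FiniteDimensional ℚ K → finrank ℚ K ≤ δ →
      ∀ P : MvPolynomial ((Fin τ ⊕ Fin 5) ⊕ Fin r × Fin 3) K, P.totalDegree ≤ δ →
        MvPolynomial.aeval (Sum.elim (Sum.elim w (perV L)) fun x => trip L (p x.1) (l x.1) x.2) P = 0 →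
        MvPolynomial.aeval (Sum.elim (fun j => MvPolynomial.C (Sum.elim w (perV L) j)) MvPolynomial.X) P
          = (0 : MvPolynomial (Fin r × Fin 3) ℂ) := by
  classical
  have hab : a ^ 3 - 27 * b ^ 2 ≠ 0 := by
    have h1 := disc_ne Pool.Agent.Y153.HE.t_qp L
    rw [ha, hb] at h1
    exact_mod_cast h1
  have hF := Fe_good a b hab
  obtain ⟨E₁, hE₁⟩ := linkE a b hwpc L ha hb hF m
  obtain ⟨E, hEp, hE⟩ := windowHt_exp (vS (Pe a b) (me a b)) (inpE_e a b hF) (xE a b L) (DmE L) (perV L) m _ E₁ hE₁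
    r τ A
  refine ⟨E, hEp, fun δ H ξ hξ hHt w => ?_⟩
  obtain ⟨S, hS, hwin⟩ := hE δ H ξ hξ hHt w
  refine ⟨S, hS, fun n hn hnb p l hpl K hKf hKd P hPd hPv => ?_⟩
  let e : Fin r × Tau (me a b) ≃ Fin r × Fin 3 := (Equiv.refl _).prodCongr (fe a b)
  have h9 := hwin n hn (fun i => ⟨(hnb i).1, (hnb i).2.1, (hnb i).2.2, pf_spec L (hpl i).1 (hpl i).2.1⟩) K hKf hKd
    (fun q => trip L (p q.1) (l q.1) (fe a b q.2)) (fun q => by
      refine detE a b L (hpl q.1).1 (hpl q.1).2.1 (hpl q.1).2.2 _ (fun j n => ?_) q.2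
      have h4 : (n : ℂ) * perV L j = (n : K) • perV L j := by
        rw [Algebra.smul_def]
        simp
      rw [h4]
      exact Submodule.smul_mem _ _ (Submodule.subset_span (Set.mem_insert_of_mem _ ⟨Sum.inr j, rfl⟩)))
    (MvPolynomial.rename (Sum.map id e.symm) P) ((MvPolynomial.totalDegree_rename_le _ _).trans hPd) (by
      rw [MvPolynomial.aeval_rename, ← hPv]
      congr 2
      funext x
      rcases x with i | x
      · rfl
      · simp [e])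
  rw [MvPolynomial.aeval_rename] at h9
  have h10 := congrArg (MvPolynomial.rename e) h9
  rw [map_zero] at h10
  rw [MvPolynomial.aeval_def] at h10 ⊢
  have h11 := MvPolynomial.eval₂_comp_left (MvPolynomial.rename (R := ℂ) e).toRingHom
    (algebraMap K (MvPolynomial (Fin r × Tau (me a b)) ℂ))
    (Sum.elim (fun j => MvPolynomial.C (Sum.elim w (perV L) j)) MvPolynomial.X ∘ Sum.map id e.symm) P
  refine Eq.trans ?_ (h11.symm.trans h10)
  congr 1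
  · refine RingHom.ext fun x => ?_
    change MvPolynomial.C (x : ℂ) = MvPolynomial.rename e (MvPolynomial.C (x : ℂ))
    rw [MvPolynomial.rename_C]
  · funext x
    rcases x with i | x
    · simp
    · simp

end Pool.Agent.R351.GD
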