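import Pool.Agent.R351.GD.S.Lat

/-!
# Few bad points of a lattice of algebraic numbers and few bad algebraic integers of bounded degree; tuples
-/

set_option autoImplicit false

open Module

namespace Pool.Agent.R351.GD

open Pool.Agent.Y113 Pool.Agent.Y916 Pool.Agent.Y916.AW Pool.Agent.Y916.Al Pool.Agent.Y916.Sl

open Classical in
/-- few bad points of a lattice -/
theorem lattice_bad_exp {σ : Type} [Fintype σ] [DecidableEq σ] (val : ℂ → ℕ → σ → ℂ) (hval : InpE val) (x : ℂ → σ → ℂ)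
    (Dm : ℂ → Prop) (hlink : ∀ m, ∃ e τ E, LinkA val x Dm m e τ E)
    {m r : ℕ} (η : Fin (m + 1) → ℂ) (hη : ∀ j, IsAlgebraic ℚ (η j)) (hη0 : η 0 = 1) (θ : Fin r → ℕ)
    (hinj : Function.Injective θ) (Q : ℕ) :
    ∃ (E : ℕ → ℕ) (C₁ : ℕ), PB E ∧ ∀ (δ : ℕ) (w : Fin Q → ℂ) (T : ℕ), 1 ≤ T →
      (((Fintype.piFinset fun _ : Fin (m + 1) => Finset.Icc (-(T : ℤ)) T).filter fun n =>
        (∀ j, Dm ((∑ j, (n j : ℂ) * η j) + θ j)) ∧
        RelK δ w (fun p : Fin r × σ => x ((∑ j, (n j : ℂ) * η j) + θ p.1) p.2)).card : ℝ) ≤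
        C₁ * (T : ℝ) ^ (((m + 1 : ℕ) : ℝ) - 1 / (E δ + 1)) := by
  set K₁ : IntermediateField ℚ ℂ := IntermediateField.adjoin ℚ (Set.range η) with hK₁
  have hfd : FiniteDimensional ℚ K₁ := IntermediateField.finiteDimensional_adjoin (by
    rintro _ ⟨j, rfl⟩
    exact (hη j).isIntegral)
  set ηK : Fin (m + 1) → K₁ := fun j => ⟨η j, IntermediateField.subset_adjoin ℚ _ ⟨j, rfl⟩⟩ with hηK
  obtain ⟨C₁, hC₁, hpt⟩ := pt_comb K₁ ηK
  obtain ⟨e, τ, E₀, hlink⟩ := hlink (finrank ℚ K₁)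
  obtain ⟨E₁', hE₁p, hwin'⟩ := hwinS_exp val hval x Dm _ e τ E₀ hlink θ hinj 5 Q
  set M := r * (Q + τ) with hM
  obtain ⟨N₁, hN₁⟩ := pow_unbounded_of_one_lt (10 * C₁) (show (1 : ℝ) < 2 by norm_num)
  obtain ⟨C₂, hC₂⟩ := exists_nat_ge (∑ j, ‖η j‖)
  have hC₂1 : 1 ≤ C₂ + 1 := by omega
  refine ⟨fun δ => 2 * (E₁' δ + N₁) + 3, 3 ^ m * ((64 * M + 71) * (C₂ + 1)),
    ((PB.const 2).mul (hE₁p.add (PB.const N₁))).add (PB.const 3), fun δ w T hT => ?_⟩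
  have hwin := hwin' δ w
  set E₁ := E₁' δ
  set C : ℝ := 64 * M + 71 with hCdef
  have hC : 0 ≤ C := by positivity
  set c : ℝ := 1 / (2 * (((E₁ + N₁ : ℕ) : ℝ) + 2)) with hc'
  have hc : 0 < c := by positivity
  have hc1 : c < 1 := by
    rw [hc', div_lt_one (by positivity)]
    have : (0 : ℝ) ≤ ((E₁ + N₁ : ℕ) : ℝ) := Nat.cast_nonneg _
    linarith
  have hcE : (1 : ℝ) / (((2 * (E₁ + N₁) + 3 : ℕ) : ℝ) + 1) = c := by
    rw [hc']
    congr 1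
    push_cast
    ring
  show (((Fintype.piFinset fun _ : Fin (m + 1) => Finset.Icc (-(T : ℤ)) T).filter fun n =>
        (∀ j, Dm ((∑ j, (n j : ℂ) * η j) + θ j)) ∧
        RelK δ w (fun p : Fin r × σ => x ((∑ j, (n j : ℂ) * η j) + θ p.1) p.2)).card : ℝ) ≤
        ((3 ^ m * ((64 * M + 71) * (C₂ + 1)) : ℕ) : ℝ) *
          (T : ℝ) ^ (((m + 1 : ℕ) : ℝ) - 1 / (((2 * (E₁ + N₁) + 3 : ℕ) : ℝ) + 1))
  rw [hcE]
  have hCC : ((3 ^ m * ((64 * M + 71) * (C₂ + 1)) : ℕ) : ℝ) = 3 ^ m * (C * (C₂ + 1)) := by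
    rw [hCdef]
    push_cast
    ring
  rw [hCC]
  have hline := fun (T : ℕ) (hT : 1 ≤ T) (z : ℂ) (hz : ‖z‖ ≤ T) (B : ℤ → Prop) hB =>
    line_exp M (E₁ + N₁) T hT z hz B hB
  have hT1 : (1 : ℝ) ≤ T := by exact_mod_cast hT
  have hT0 : (0 : ℝ) < T := by linarith
  set T' : ℕ := (C₂ + 1) * T with hT'
  have hTT' : T ≤ T' := Nat.le_mul_of_pos_left T (by omega)
  have hT'1 : 1 ≤ T' := hT.trans hTT'
  have hT'R : (1 : ℝ) ≤ T' := by exact_mod_cast hT'1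
  set Z : (Fin m → ℤ) → ℂ := fun n => ∑ j, (n j : ℂ) * η j.succ with hZ
  obtain ⟨Bd, hBd⟩ : ∃ Bd : ℂ → Prop, ∀ z, Bd z ↔
      ((∀ j, Dm (z + θ j)) ∧ RelK δ w (fun p : Fin r × σ => x (z + θ p.1) p.2)) := ⟨_, fun _ => Iff.rfl⟩
  -- one line
  have hl : ∀ n : Fin m → ℤ, (∀ j, |n j| ≤ T) →
      ((((Finset.Icc (-(T : ℤ)) T).filter fun a : ℤ => Bd ((a : ℂ) + Z n))).card : ℝ) ≤
        C * (C₂ + 1) * (T : ℝ) ^ (1 - c) := by
    intro n hn
    have hZn : ‖Z n‖ ≤ T' := by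
      rw [hZ]
      simp only
      refine (norm_sum_le _ _).trans ?_
      have h1 : ∀ j ∈ (Finset.univ : Finset (Fin m)), ‖(n j : ℂ) * η j.succ‖ ≤ T * ‖η j.succ‖ := by
        intro j _
        rw [norm_mul, Complex.norm_intCast]
        refine mul_le_mul_of_nonneg_right ?_ (norm_nonneg _)
        have h2 : ((|n j| : ℤ) : ℝ) ≤ T := by exact_mod_cast hn j
        push_cast at h2
        exact h2
      refine (Finset.sum_le_sum h1).trans ?_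
      rw [← Finset.mul_sum]
      have h3 : ∑ j : Fin m, ‖η j.succ‖ ≤ C₂ + 1 := by
        rw [Fin.sum_univ_succ] at hC₂
        linarith [norm_nonneg (η 0)]
      rw [hT']
      push_cast
      rw [mul_comm]
      exact mul_le_mul_of_nonneg_right h3 hT0.le
    have h4 := hline T' hT'1 (Z n) hZn (fun a : ℤ => Bd ((a : ℂ) + Z n)) (by
      intro ε hε H t ht hTt hHt S hS
      have hnorm1 : (2 : ℝ) ^ N₁ ≤ ‖Z n + t‖ := by
        refine le_trans ?_ hHt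
        have hH : (2 : ℝ) ≤ (H : ℝ) + 2 := by linarith [(Nat.cast_nonneg H : (0 : ℝ) ≤ H)]
        calc (2 : ℝ) ^ N₁ ≤ ((H : ℝ) + 2) ^ N₁ := pow_le_pow_left₀ (by norm_num) hH _
          _ ≤ _ := pow_le_pow_right₀ (by linarith) (by omega)
      set n' : Fin (m + 1) → ℤ := Fin.cases t n with hn'
      have hξ : ((∑ j, (n' j : K₁) * ηK j : K₁) : ℂ) = Z n + t := by
        push_cast
        rw [Fin.sum_univ_succ]
        simp only [hn', Fin.cases_zero, Fin.cases_succ, hηK, hη0, mul_one, hZ]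
        ring
      have hn'b : ∀ j, |(n' j : ℝ)| ≤ 10 * T' := by
        intro j
        refine Fin.cases ?_ (fun j => ?_) j
        · have h5 : ((|t| : ℤ) : ℝ) ≤ 10 * T' := by exact_mod_cast ht
          push_cast at h5
          simpa [hn'] using h5
        · have h5 : ((|n j| : ℤ) : ℝ) ≤ T := by exact_mod_cast hn j
          have h6 : (T : ℝ) ≤ T' := by exact_mod_cast hTT'
          push_cast at h5
          simp only [hn', Fin.cases_succ]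
          linarith
      have hPt := hpt (10 * T') (by linarith) n' hn'b
      refine hwin H K₁ (∑ j, (n' j : K₁) * ηK j) (C₁ * (10 * T')) hfd le_rfl hPt ?_ ?_ ε hε S ?_
      · rw [hξ]
        refine le_trans ?_ hHt
        exact pow_le_pow_right₀ (by linarith [(Nat.cast_nonneg H : (0 : ℝ) ≤ H)]) (by omega)
      · rw [hξ]
        calc C₁ * (10 * T') = (10 * C₁) * T' := by ring
          _ ≤ ‖Z n + t‖ * ‖Z n + t‖ ^ 4 :=
              mul_le_mul (hN₁.le.trans hnorm1) hTt (by positivity) (norm_nonneg _)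
          _ = ‖Z n + t‖ ^ 5 := by ring
      · intro g hg
        obtain ⟨hgH, hgR⟩ := hS g hg
        refine ⟨hgH, ?_⟩
        rw [hξ]
        have h5 : (((t - ε * g : ℤ)) : ℂ) + Z n = Z n + t - ε * g := by
          push_cast
          ring
        have h6 : Bd ((((t - ε * g : ℤ)) : ℂ) + Z n) := hgR
        rw [h5] at h6
        exact (hBd _).1 h6)
    have h5 : ((Finset.Icc (-(T : ℤ)) T).filter fun a : ℤ => Bd ((a : ℂ) + Z n)).card ≤
        ((Finset.Icc (-(T' : ℤ)) T').filter fun a : ℤ => Bd ((a : ℂ) + Z n)).card := by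
      refine Finset.card_le_card (Finset.filter_subset_filter _ (Finset.Icc_subset_Icc ?_ ?_))
      · have : (T : ℤ) ≤ T' := by exact_mod_cast hTT'
        omega
      · exact_mod_cast hTT'
    have h6 : (T' : ℝ) ^ (1 - c) ≤ (C₂ + 1) * (T : ℝ) ^ (1 - c) := by
      rw [hT']
      push_cast
      rw [Real.mul_rpow (by positivity) hT0.le]
      refine mul_le_mul_of_nonneg_right ?_ (by positivity)
      have h7 : (1 : ℝ) ≤ (C₂ : ℝ) + 1 := by linarith [(Nat.cast_nonneg C₂ : (0 : ℝ) ≤ C₂)]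
      calc ((C₂ : ℝ) + 1) ^ (1 - c) ≤ ((C₂ : ℝ) + 1) ^ (1 : ℝ) := Real.rpow_le_rpow_of_exponent_le h7 (by linarith)
        _ = (C₂ : ℝ) + 1 := Real.rpow_one _
    calc _ ≤ (((Finset.Icc (-(T' : ℤ)) T').filter fun a : ℤ => Bd ((a : ℂ) + Z n)).card : ℝ) := by
          exact_mod_cast h5
      _ ≤ C * (T' : ℝ) ^ (1 - c) := h4
      _ ≤ C * ((C₂ + 1) * (T : ℝ) ^ (1 - c)) := mul_le_mul_of_nonneg_left h6 hC
      _ = _ := by ring
  -- all lines
  set bad : (Fin m → ℤ) → Finset ℤ := fun n => (Finset.Icc (-(T : ℤ)) T).filter fun a : ℤ => Bd ((a : ℂ) + Z n) with hbad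
  have hsub : ((Fintype.piFinset fun _ : Fin (m + 1) => Finset.Icc (-(T : ℤ)) T).filter fun n =>
      Bd (∑ j, (n j : ℂ) * η j)) ⊆
      ((Fintype.piFinset fun _ : Fin m => Finset.Icc (-(T : ℤ)) T).sigma bad).image
        fun p => (Fin.cons p.2 p.1 : Fin (m + 1) → ℤ) := by
    intro n hn
    obtain ⟨hn1, hn2⟩ := Finset.mem_filter.1 hn
    rw [Fintype.mem_piFinset] at hn1
    refine Finset.mem_image.2 ⟨⟨fun j => n j.succ, n 0⟩, ?_, ?_⟩
    · refine Finset.mem_sigma.2 ⟨?_, Finset.mem_filter.2 ⟨hn1 0, ?_⟩⟩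
      · rw [Fintype.mem_piFinset]
        exact fun j => hn1 j.succ
      · have h1 : ((n 0 : ℤ) : ℂ) + Z (fun j => n j.succ) = ∑ j, (n j : ℂ) * η j := by
          rw [Fin.sum_univ_succ, hη0, mul_one]
        simp only [h1]
        exact hn2
    · funext j
      refine Fin.cases ?_ (fun j => ?_) j <;> simp
  have hbox : (((Fintype.piFinset fun _ : Fin m => Finset.Icc (-(T : ℤ)) T).card : ℕ) : ℝ) ≤ (3 * T) ^ m := by
    rw [Fintype.card_piFinset]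
    simp only [Finset.prod_const, Finset.card_univ, Fintype.card_fin, Int.card_Icc]
    rw [Nat.cast_pow]
    refine pow_le_pow_left₀ (Nat.cast_nonneg _) ?_ _
    have h1 : ((T : ℤ) + 1 - -(T : ℤ)).toNat = 2 * T + 1 := by omega
    rw [h1]
    push_cast
    linarith
  have h1 : (((Fintype.piFinset fun _ : Fin (m + 1) => Finset.Icc (-(T : ℤ)) T).filter fun n =>
      Bd (∑ j, (n j : ℂ) * η j)).card : ℝ) ≤
      ∑ n ∈ Fintype.piFinset (fun _ : Fin m => Finset.Icc (-(T : ℤ)) T), ((bad n).card : ℝ) := by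
    have h2 := (Finset.card_le_card hsub).trans Finset.card_image_le
    rw [Finset.card_sigma] at h2
    exact_mod_cast h2
  have hgoal : ((Fintype.piFinset fun _ : Fin (m + 1) => Finset.Icc (-(T : ℤ)) T).filter fun n =>
        (∀ j, Dm ((∑ j, (n j : ℂ) * η j) + θ j)) ∧
        RelK δ w (fun p : Fin r × σ => x ((∑ j, (n j : ℂ) * η j) + θ p.1) p.2)) =
      ((Fintype.piFinset fun _ : Fin (m + 1) => Finset.Icc (-(T : ℤ)) T).filter fun n =>
        Bd (∑ j, (n j : ℂ) * η j)) := by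
    ext n
    simp only [Finset.mem_filter, hBd]
  rw [hgoal]
  refine h1.trans ?_
  have h2 : ∀ n ∈ Fintype.piFinset (fun _ : Fin m => Finset.Icc (-(T : ℤ)) T), ((bad n).card : ℝ) ≤
      C * (C₂ + 1) * (T : ℝ) ^ (1 - c) := by
    intro n hn
    rw [Fintype.mem_piFinset] at hn
    exact hl n fun j => abs_le.2 (Finset.mem_Icc.1 (hn j))
  refine (Finset.sum_le_card_nsmul _ _ _ h2).trans ?_
  rw [nsmul_eq_mul]
  calc _ ≤ (3 * (T : ℝ)) ^ m * (C * (C₂ + 1) * (T : ℝ) ^ (1 - c)) := mul_le_mul_of_nonneg_right hbox (by positivity)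
    _ = 3 ^ m * (C * (C₂ + 1)) * (T : ℝ) ^ (((m + 1 : ℕ) : ℝ) - c) := by
        have h3 : (((m + 1 : ℕ) : ℝ) - c) = (m : ℝ) + (1 - c) := by push_cast; ring
        rw [h3, Real.rpow_add hT0, Real.rpow_natCast, mul_pow]
        ring

open Classical in
/-- few bad points -/
theorem deg_bad_exp {σ : Type} [Fintype σ] [DecidableEq σ] (val : ℂ → ℕ → σ → ℂ) (hval : InpE val) (x : ℂ → σ → ℂ)
    (Dm : ℂ → Prop) (m e τ E₁ : ℕ) (hlink : LinkA val x Dm m e τ E₁) {r : ℕ} (θ : Fin r → ℕ)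
    (hinj : Function.Injective θ) (Q : ℕ) :
    ∃ (E : ℕ → ℕ) (C₁ : ℕ), PB E ∧ ∀ (δ : ℕ) (w : Fin Q → ℂ) (T : ℕ), 1 ≤ T →
      (((NF m T).filter fun ξ => (∀ j, Dm (ξ + θ j)) ∧ RelK δ w (fun p : Fin r × σ => x (ξ + θ p.1) p.2)).card : ℝ) ≤
        C₁ * (T : ℝ) ^ ((Mm m : ℝ) - 1 / (E δ + 1)) := by
  obtain ⟨E'', hEp, hwin'⟩ := hwinS_exp val hval x Dm m e τ E₁ hlink θ hinj 4 Q
  set M := r * (Q + τ) with hM
  refine ⟨fun δ => 4 * E'' δ + 3, M * ((3 * 2 ^ m) ^ m * m * 2 ^ Mm m) + 4 * ((3 * 2 ^ m) ^ m * m) +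
    (3 * 2 ^ m) ^ m * m * 3, ((PB.const 4).mul hEp).add (PB.const 3), fun δ w T hT => ?_⟩
  have hwin := hwin' δ w
  set E := E'' δ
  set E' := E + 1 with hE'
  have hE'0 : (0 : ℝ) < E' := by positivity
  set ε : ℝ := 1 / (4 * E') with hε
  have hε0 : 0 < ε := by positivity
  have hε1 : ε ≤ 1 / 4 := by
    rw [hε]
    refine one_div_le_one_div_of_le (by norm_num) ?_
    have : (1 : ℝ) ≤ E' := by exact_mod_cast (by omega : 1 ≤ E')
    linarith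
  set C₀ : ℝ := (3 * 2 ^ m) ^ m * m with hC₀
  have hC₀0 : 0 ≤ C₀ := by positivity
  set T₀ : ℕ := 3 ^ (4 * E') with hT₀
  have hT₀1 : (1 : ℝ) ≤ T₀ := by
    rw [hT₀]
    push_cast
    exact one_le_pow₀ (by norm_num)
  have hcE : (1 : ℝ) / (((4 * E + 3 : ℕ) : ℝ) + 1) = ε := by
    rw [hε, hE']
    congr 1
    push_cast
    ring
  show (((NF m T).filter fun ξ => (∀ j, Dm (ξ + θ j)) ∧ RelK δ w (fun p : Fin r × σ => x (ξ + θ p.1) p.2)).card : ℝ) ≤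
        ((M * ((3 * 2 ^ m) ^ m * m * 2 ^ Mm m) + 4 * ((3 * 2 ^ m) ^ m * m) + (3 * 2 ^ m) ^ m * m * 3 : ℕ) : ℝ) *
          (T : ℝ) ^ ((Mm m : ℝ) - 1 / (((4 * E + 3 : ℕ) : ℝ) + 1))
  rw [hcE]
  have hT₀ε : (T₀ : ℝ) ^ ε = 3 := by
    rw [hT₀]
    push_cast
    rw [← Real.rpow_natCast, ← Real.rpow_mul (by norm_num)]
    have : ((4 * E' : ℕ) : ℝ) * ε = 1 := by
      rw [hε]
      push_cast
      field_simp
    rw [this, Real.rpow_one]
  have hCC : ((M * ((3 * 2 ^ m) ^ m * m * 2 ^ Mm m) + 4 * ((3 * 2 ^ m) ^ m * m) + (3 * 2 ^ m) ^ m * m * 3 : ℕ) : ℝ) =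
      M * (C₀ * 2 ^ Mm m) + 4 * C₀ + C₀ * (T₀ : ℝ) ^ ε := by
    rw [hT₀ε, hC₀]
    push_cast
    ring
  rw [hCC]
  have hT1 : (1 : ℝ) ≤ T := by exact_mod_cast hT
  have hT0 : (0 : ℝ) < T := by linarith
  obtain ⟨Bd, hBd⟩ : ∃ Bd : ℂ → Prop, ∀ ξ, Bd ξ ↔
      ((∀ j, Dm (ξ + θ j)) ∧ RelK δ w (fun p : Fin r × σ => x (ξ + θ p.1) p.2)) := ⟨_, fun _ => Iff.rfl⟩
  have hgoal : ((NF m T).filter fun ξ => (∀ j, Dm (ξ + θ j)) ∧ RelK δ w (fun p : Fin r × σ => x (ξ + θ p.1) p.2)) =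
      (NF m T).filter fun ξ => Bd ξ := by
    ext ξ
    simp only [Finset.mem_filter, hBd]
  rw [hgoal]
  have hcardT := card_NF m T hT
  have hbase : 0 ≤ (T : ℝ) ^ ((Mm m : ℝ) - ε) := by positivity
  rcases lt_or_ge T T₀ with hTT | hTT
  · have h1 : (((NF m T).filter fun ξ => Bd ξ).card : ℝ) ≤ C₀ * (T : ℝ) ^ Mm m :=
      le_trans (by exact_mod_cast Finset.card_filter_le _ _) hcardT
    refine h1.trans ?_
    have h2 : (T : ℝ) ^ Mm m = (T : ℝ) ^ ε * (T : ℝ) ^ ((Mm m : ℝ) - ε) := by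
      rw [← Real.rpow_add hT0, ← Real.rpow_natCast]
      congr 1
      ring
    have h3 : (T : ℝ) ^ ε ≤ (T₀ : ℝ) ^ ε := Real.rpow_le_rpow hT0.le (by exact_mod_cast hTT.le) hε0.le
    rw [h2]
    calc C₀ * ((T : ℝ) ^ ε * (T : ℝ) ^ ((Mm m : ℝ) - ε)) ≤ C₀ * ((T₀ : ℝ) ^ ε * (T : ℝ) ^ ((Mm m : ℝ) - ε)) :=
          mul_le_mul_of_nonneg_left (mul_le_mul_of_nonneg_right h3 hbase) hC₀0
      _ = (C₀ * (T₀ : ℝ) ^ ε) * (T : ℝ) ^ ((Mm m : ℝ) - ε) := by ring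
      _ ≤ _ := mul_le_mul_of_nonneg_right (by
          have : 0 ≤ (M : ℝ) * (C₀ * 2 ^ Mm m) + 4 * C₀ := by positivity
          linarith) hbase
  -- the main case
  set s : ℝ := (T : ℝ) ^ (1 / 2 : ℝ) with hs
  have hs0 : 0 < s := by positivity
  have hs1 : 1 ≤ s := Real.one_le_rpow hT1 (by norm_num)
  have hss : s * s = T := by
    rw [hs, ← Real.rpow_add hT0]
    norm_num
  set H : ℕ := ⌊(T : ℝ) ^ ε⌋₊ with hH
  have hTε1 : 1 ≤ (T : ℝ) ^ ε := Real.one_le_rpow hT1 hε0.le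
  have hHT : (H : ℝ) ≤ (T : ℝ) ^ ε := Nat.floor_le (by positivity)
  have hH2 : ((H : ℝ) + 2) ^ E' ≤ s := by
    have h1 : (H : ℝ) + 2 ≤ 3 * (T : ℝ) ^ ε := by linarith
    have h2 : (3 : ℝ) ^ E' ≤ (T : ℝ) ^ (1 / 4 : ℝ) := by
      have h3 : ((3 : ℝ) ^ E') = ((3 : ℝ) ^ (4 * E')) ^ (1 / 4 : ℝ) := by
        rw [← Real.rpow_natCast, ← Real.rpow_natCast, ← Real.rpow_mul (by norm_num)]
        congr 1
        push_cast
        ring
      rw [h3]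
      refine Real.rpow_le_rpow (by positivity) ?_ (by norm_num)
      have h4 : ((T₀ : ℕ) : ℝ) ≤ T := by exact_mod_cast hTT
      rw [hT₀] at h4
      push_cast at h4
      exact h4
    calc ((H : ℝ) + 2) ^ E' ≤ (3 * (T : ℝ) ^ ε) ^ E' := pow_le_pow_left₀ (by positivity) h1 _
      _ = 3 ^ E' * ((T : ℝ) ^ ε) ^ E' := by rw [mul_pow]
      _ = 3 ^ E' * (T : ℝ) ^ (1 / 4 : ℝ) := by
          rw [← Real.rpow_natCast ((T : ℝ) ^ ε) E', ← Real.rpow_mul hT0.le]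
          congr 2
          rw [hε]
          field_simp
      _ ≤ (T : ℝ) ^ (1 / 4 : ℝ) * (T : ℝ) ^ (1 / 4 : ℝ) := mul_le_mul_of_nonneg_right h2 (by positivity)
      _ = s := by
          rw [hs, ← Real.rpow_add hT0]
          norm_num
  have hH0 : (0 : ℝ) ≤ H := Nat.cast_nonneg H
  have hHs : (H : ℝ) ≤ s := by
    have h1 : (H : ℝ) + 2 ≤ ((H : ℝ) + 2) ^ E' := le_self_pow₀ (by linarith) (by omega)
    linarith
  have hHE : ((H : ℝ) + 2) ^ E ≤ s := (pow_le_pow_right₀ (by linarith) (by omega)).trans hH2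
  have hsT : s ≤ T := by nlinarith
  have hHTn : H ≤ T := by exact_mod_cast hHs.trans hsT
  have hs2 : 2 ≤ s := by
    have h1 : (H : ℝ) + 2 ≤ ((H : ℝ) + 2) ^ E' := le_self_pow₀ (by linarith) (by omega)
    linarith
  have hdc := double_count m Bd M H T s hHTn hHs (by
    intro ξ hξ hsξ S hS
    obtain ⟨K, ξ', hKf, hKd, hξ', hPt⟩ := hξ.pt (by
      push_cast
      linarith)
    refine hwin H K ξ' _ hKf hKd hPt (by rw [hξ']; exact hHE.trans hsξ) ?_ (-1) (Or.inr rfl) S ?_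
    · rw [hξ']
      push_cast
      calc 2 * (T : ℝ) ≤ T * T := by
            have : 2 ≤ (T : ℝ) := hs2.trans hsT
            nlinarith
        _ = s ^ 4 := by rw [← hss]; ring
        _ ≤ ‖ξ‖ ^ 4 := pow_le_pow_left₀ hs0.le hsξ 4
    · intro g hg
      obtain ⟨h1, h2⟩ := hS g hg
      have h3 : (ξ' : ℂ) - ((-1 : ℤ) : ℂ) * (g : ℂ) = ξ + g := by
        rw [hξ']
        push_cast
        ring
      refine ⟨h1, ?_⟩
      rw [h3]
      exact (hBd _).1 h2)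
  -- the large points
  set L := (NF m T).filter fun ξ => Bd ξ ∧ 2 * s ≤ ‖ξ‖ with hL
  have hLc : (L.card : ℝ) ≤ M * (C₀ * 2 ^ Mm m) * (T : ℝ) ^ ((Mm m : ℝ) - ε) := by
    have h1 : (L.card : ℝ) * ((H : ℝ) + 1) ≤ M * ((NF m (2 * T)).card : ℝ) := by exact_mod_cast hdc
    have h2 : (T : ℝ) ^ ε ≤ (H : ℝ) + 1 := (Nat.lt_floor_add_one _).le
    have h3 := card_NF m (2 * T) (by omega)
    have h4 : (L.card : ℝ) * (T : ℝ) ^ ε ≤ M * (C₀ * 2 ^ Mm m) * (T : ℝ) ^ Mm m := by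
      calc (L.card : ℝ) * (T : ℝ) ^ ε ≤ (L.card : ℝ) * ((H : ℝ) + 1) := mul_le_mul_of_nonneg_left h2 (Nat.cast_nonneg _)
        _ ≤ M * ((NF m (2 * T)).card : ℝ) := h1
        _ ≤ M * (C₀ * ((2 * T : ℕ) : ℝ) ^ Mm m) := mul_le_mul_of_nonneg_left h3 (Nat.cast_nonneg _)
        _ = _ := by push_cast; rw [mul_pow]; ring
    have h5 : (T : ℝ) ^ ((Mm m : ℝ) - ε) = (T : ℝ) ^ Mm m / (T : ℝ) ^ ε := by
      rw [Real.rpow_sub hT0, Real.rpow_natCast]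
    rw [h5, ← mul_div_assoc, le_div_iff₀ (by positivity)]
    exact h4
  -- the small points
  set B : ℕ := ⌈2 * s⌉₊ with hB
  have hB1 : 1 ≤ B := Nat.one_le_ceil_iff.2 (by linarith)
  have hBs : (B : ℝ) ≤ 4 * s := by
    have h1 := Nat.ceil_lt_add_one (show (0 : ℝ) ≤ 2 * s by linarith)
    have h2 : (B : ℝ) < 2 * s + 1 := h1
    linarith
  set Sm := (NF m T).filter fun ξ => ‖ξ‖ ≤ B with hSm
  have hSc : (Sm.card : ℝ) ≤ 4 * C₀ * (T : ℝ) ^ ((Mm m : ℝ) - ε) := by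
    have h1 := card_small m T B hT hB1
    have h2 : (Sm.card : ℝ) * T ≤ C₀ * (4 * s) * (T : ℝ) ^ Mm m := by
      refine h1.trans ?_
      refine mul_le_mul_of_nonneg_right ?_ (by positivity)
      exact mul_le_mul_of_nonneg_left hBs hC₀0
    have h3 : (Sm.card : ℝ) * s ≤ 4 * C₀ * (T : ℝ) ^ Mm m := by
      rw [← hss] at h2
      have h4 : (Sm.card : ℝ) * s * s ≤ 4 * C₀ * (s * s) ^ Mm m * s := by
        calc (Sm.card : ℝ) * s * s = (Sm.card : ℝ) * (s * s) := by ring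
          _ ≤ C₀ * (4 * s) * (s * s) ^ Mm m := h2
          _ = _ := by ring
      have h5 := le_of_mul_le_mul_right h4 hs0
      rw [hss] at h5
      exact h5
    have h5 : (T : ℝ) ^ ((Mm m : ℝ) - ε) = (T : ℝ) ^ Mm m / (T : ℝ) ^ ε := by
      rw [Real.rpow_sub hT0, Real.rpow_natCast]
    rw [h5, ← mul_div_assoc, le_div_iff₀ (by positivity)]
    refine le_trans ?_ h3
    refine mul_le_mul_of_nonneg_left ?_ (Nat.cast_nonneg _)
    rw [hs]
    exact Real.rpow_le_rpow_of_exponent_le hT1 (by linarith)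
  have hcov : (NF m T).filter (fun ξ => Bd ξ) ⊆ L ∪ Sm := by
    intro ξ hξ
    obtain ⟨hξ1, hξ2⟩ := Finset.mem_filter.1 hξ
    rw [Finset.mem_union]
    rcases le_total (2 * s) ‖ξ‖ with h | h
    · exact Or.inl (Finset.mem_filter.2 ⟨hξ1, hξ2, h⟩)
    · exact Or.inr (Finset.mem_filter.2 ⟨hξ1, h.trans (Nat.le_ceil _)⟩)
  calc (((NF m T).filter fun ξ => Bd ξ).card : ℝ) ≤ ((L ∪ Sm).card : ℝ) := by exact_mod_cast Finset.card_le_card hcov
    _ ≤ L.card + Sm.card := by exact_mod_cast Finset.card_union_le _ _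
    _ ≤ M * (C₀ * 2 ^ Mm m) * (T : ℝ) ^ ((Mm m : ℝ) - ε) + 4 * C₀ * (T : ℝ) ^ ((Mm m : ℝ) - ε) := add_le_add hLc hSc
    _ = (M * (C₀ * 2 ^ Mm m) + 4 * C₀) * (T : ℝ) ^ ((Mm m : ℝ) - ε) := by ring
    _ ≤ _ := mul_le_mul_of_nonneg_right (by
        have : 0 ≤ C₀ * (T₀ : ℝ) ^ ε := by positivity
        linarith) hbase

open Classical in
/-- **Lattices of algebraic numbers: few bad tuples** -/
theorem lat_tuples_exp {σ : Type} [Fintype σ] [DecidableEq σ] (val : ℂ → ℕ → σ → ℂ) (hval : InpE val)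
    (x : ℂ → σ → ℂ) (Dm : ℂ → Prop) (hlink : ∀ m, ∃ e τ E, LinkA val x Dm m e τ E)
    {m r : ℕ} (η : Fin (m + 1) → ℂ) (hη : ∀ j, IsAlgebraic ℚ (η j)) (hη0 : η 0 = 1) (θ : Fin r → ℕ)
    (hinj : Function.Injective θ) (k q : ℕ) :
    ∃ C : ℕ, ∀ (δ : ℕ) (w : Fin q → ℂ) (T : ℕ), 1 ≤ T →
      {n : Fin k → Fin (m + 1) → ℤ | (∀ i l, |n i l| ≤ T) ∧ (∀ i j, Dm ((∑ l, (n i l : ℂ) * η l) + θ j)) ∧
        RelKA δ w fun p : (Fin k × Fin r) × σ => x ((∑ l, (n p.1.1 l : ℂ) * η l) + θ p.1.2) p.2}.Finite ∧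
      ({n : Fin k → Fin (m + 1) → ℤ | (∀ i l, |n i l| ≤ T) ∧ (∀ i j, Dm ((∑ l, (n i l : ℂ) * η l) + θ j)) ∧
        RelKA δ w fun p : (Fin k × Fin r) × σ => x ((∑ l, (n p.1.1 l : ℂ) * η l) + θ p.1.2) p.2}.ncard : ℝ) ≤
        C * (T : ℝ) ^ (((k * (m + 1) : ℕ) : ℝ) - 1 / ((δ : ℝ) + 2) ^ C) := by
  obtain ⟨C, hC⟩ := gen_tuplesG (fun (n : Fin (m + 1) → ℤ) (p : Fin r × σ) => x ((∑ l, (n l : ℂ) * η l) + θ p.1) p.2)
    (fun T : ℕ => (Fintype.piFinset fun _ : Fin (m + 1) =>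
      Finset.Icc (-(T : ℤ)) T).filter fun n => ∀ j, Dm ((∑ l, (n l : ℂ) * η l) + θ j)) (m + 1) (3 ^ (m + 1)) (by
      intro T hT
      have hT1 : (1 : ℝ) ≤ T := by exact_mod_cast hT
      refine le_trans (b := ((Fintype.piFinset fun _ : Fin (m + 1) => Finset.Icc (-(T : ℤ)) T).card : ℝ)) ?_ ?_
      · exact_mod_cast Finset.card_filter_le _ _
      push_cast
      rw [← mul_pow, Fintype.card_piFinset]
      simp only [Finset.prod_const, Finset.card_univ, Fintype.card_fin, Int.card_Icc]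
      rw [Nat.cast_pow]
      refine pow_le_pow_left₀ (Nat.cast_nonneg _) ?_ _
      have h1 : ((T : ℤ) + 1 - -(T : ℤ)).toNat = 2 * T + 1 := by omega
      rw [h1]
      push_cast
      linarith) k q (fun Q => by
        obtain ⟨E, C₁, hEp, h⟩ := lattice_bad_exp val hval x Dm hlink η hη hη0 θ hinj Q
        refine ⟨E, C₁, hEp, fun δ w T hT => le_trans (le_of_eq ?_) (h δ w T hT)⟩
        congr 2
        ext n
        simp only [Finset.mem_filter, and_assoc])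
  refine ⟨C, fun δ w T hT => ?_⟩
  have h1 := hC δ w T hT
  set B := (Fintype.piFinset fun _ : Fin k => (Fintype.piFinset fun _ : Fin (m + 1) =>
      Finset.Icc (-(T : ℤ)) T).filter fun n => ∀ j, Dm ((∑ l, (n l : ℂ) * η l) + θ j)).filter fun t =>
        Om.BadW δ δ (δ + δ) w (fun p : Fin k × (Fin r × σ) => x ((∑ l, (t p.1 l : ℂ) * η l) + θ p.2.1) p.2.2) with hB
  have hsub : {n : Fin k → Fin (m + 1) → ℤ | (∀ i l, |n i l| ≤ T) ∧ (∀ i j, Dm ((∑ l, (n i l : ℂ) * η l) + θ j)) ∧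
        RelKA δ w fun p : (Fin k × Fin r) × σ => x ((∑ l, (n p.1.1 l : ℂ) * η l) + θ p.1.2) p.2} ⊆
        (B : Set (Fin k → Fin (m + 1) → ℤ)) := by
    rintro n ⟨hn, hD, hrel⟩
    rw [hB, Finset.mem_coe, Finset.mem_filter, Fintype.mem_piFinset]
    refine ⟨fun i => Finset.mem_filter.2 ⟨?_, hD i⟩, ?_⟩
    · rw [Fintype.mem_piFinset]
      exact fun j => Finset.mem_Icc.2 (abs_le.1 (hn i j))
    · have h3 := relKA_badW hrel
      have h4 := Pool.Agent.R351.GD.BadW.reindex (Equiv.prodAssoc (Fin k) (Fin r) σ).symm h3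
      exact h4
  refine ⟨(Finset.finite_toSet B).subset hsub, le_trans ?_ h1⟩
  have h2 := Set.ncard_le_ncard hsub (Finset.finite_toSet B)
  rw [Set.ncard_coe_finset] at h2
  exact_mod_cast h2

open Classical in
/-- **Algebraic integers of bounded degree: few bad tuples** -/
theorem deg_tuples_exp {σ : Type} [Fintype σ] [DecidableEq σ] (val : ℂ → ℕ → σ → ℂ) (hval : InpE val)
    (x : ℂ → σ → ℂ) (Dm : ℂ → Prop) (m : ℕ) (hlink : ∃ e τ E, LinkA val x Dm m e τ E) {r : ℕ} (θ : Fin r → ℕ)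
    (hinj : Function.Injective θ) (k q : ℕ) :
    ∃ C : ℕ, ∀ (δ : ℕ) (w : Fin q → ℂ) (T : ℕ), 1 ≤ T →
      {ξ : Fin k → ℂ | (∀ i, AInt m T (ξ i)) ∧ (∀ i j, Dm (ξ i + θ j)) ∧
        RelKA δ w fun p : (Fin k × Fin r) × σ => x (ξ p.1.1 + θ p.1.2) p.2}.Finite ∧
      ({ξ : Fin k → ℂ | (∀ i, AInt m T (ξ i)) ∧ (∀ i j, Dm (ξ i + θ j)) ∧
        RelKA δ w fun p : (Fin k × Fin r) × σ => x (ξ p.1.1 + θ p.1.2) p.2}.ncard : ℝ) ≤
        C * (T : ℝ) ^ (((k * Mm m : ℕ) : ℝ) - 1 / ((δ : ℝ) + 2) ^ C) := by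
  obtain ⟨e, τ, E, hlink⟩ := hlink
  obtain ⟨C, hC⟩ := gen_tuplesG (fun (ξ : ℂ) (p : Fin r × σ) => x (ξ + θ p.1) p.2)
    (fun T : ℕ => (NF m T).filter fun ξ => ∀ j, Dm (ξ + θ j)) (Mm m) ((3 * 2 ^ m) ^ m * m) (by
      intro T hT
      refine le_trans ?_ ((card_NF m T hT).trans (le_of_eq (by push_cast; ring)))
      exact_mod_cast Finset.card_filter_le _ _) k q (fun Q => by
        obtain ⟨E, C₁, hEp, h⟩ := deg_bad_exp val hval x Dm m e τ E hlink θ hinj Q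
        refine ⟨E, C₁, hEp, fun δ w T hT => le_trans (le_of_eq ?_) (h δ w T hT)⟩
        congr 2
        ext n
        simp only [Finset.mem_filter, and_assoc])
  refine ⟨C, fun δ w T hT => ?_⟩
  have h1 := hC δ w T hT
  set B := (Fintype.piFinset fun _ : Fin k => (NF m T).filter fun ξ => ∀ j, Dm (ξ + θ j)).filter
        fun t => Om.BadW δ δ (δ + δ) w (fun p : Fin k × (Fin r × σ) => x (t p.1 + θ p.2.1) p.2.2) with hB
  have hsub : {ξ : Fin k → ℂ | (∀ i, AInt m T (ξ i)) ∧ (∀ i j, Dm (ξ i + θ j)) ∧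
        RelKA δ w fun p : (Fin k × Fin r) × σ => x (ξ p.1.1 + θ p.1.2) p.2} ⊆ (B : Set (Fin k → ℂ)) := by
    rintro ξ ⟨hξ, hD, hrel⟩
    rw [hB, Finset.mem_coe, Finset.mem_filter, Fintype.mem_piFinset]
    refine ⟨fun i => Finset.mem_filter.2 ⟨mem_NF.2 (hξ i), hD i⟩, ?_⟩
    have h3 := relKA_badW hrel
    have h4 := Pool.Agent.R351.GD.BadW.reindex (Equiv.prodAssoc (Fin k) (Fin r) σ).symm h3
    exact h4
  refine ⟨(Finset.finite_toSet B).subset hsub, le_trans ?_ h1⟩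
  have h2 := Set.ncard_le_ncard hsub (Finset.finite_toSet B)
  rw [Set.ncard_coe_finset] at h2
  exact_mod_cast h2

end Pool.Agent.R351.GD
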