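import Pool.Agent.Y916.Sl.Fin
import Pool.Agent.Y916.Sl.DegF
import Pool.Agent.R351.GD.S.Lat2
import Pool.Agent.R351.GD.S.AllW

/-!
# Tuples: elliptic logarithms at the points of a lattice of algebraic numbers, hyperelliptic integrals at algebraic
integers of bounded degree
-/

set_option autoImplicit false

open Module PowerSeries

namespace Pool.Agent.R351.GD

open Pool.Agent.Y113 Pool.Agent.Y916 Pool.Agent.Y916.AW Pool.Agent.Y916.Al Pool.Agent.Y916.Hy Pool.Agent.Y916.Sa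
open Pool.Agent.Y916.Fld Pool.Agent.Y916.Sl
open scoped PeriodPair

/-- **Hyperelliptic tuples, bounded degree** -/
theorem tuplesD_exp (hsqi : S_sqi) (hprim : S_prim) {s : ℕ} (F q : Fin s → Polynomial ℤ)
    (hG : ∀ a, GoodP (F a) (q a)) (hD : Dist F) {u₀ : ℂ} (hu₀ : u₀ ≠ 0) {R : ℝ} {S : Fin s → ℂ → ℂ}
    {Φ : Id F q → ℂ → ℂ} (hP : IsPrim F q u₀ R S Φ) (m : ℕ) {r : ℕ} (θ : Fin r → ℕ) (hθ : Function.Injective θ)
    (k Q : ℕ) :
    ∃ C : ℕ, ∀ (δ : ℕ) (w : Fin Q → ℂ) (T : ℕ), 1 ≤ T →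
      {α : Fin k → ℂ | (∀ i, AInt m T (α i)) ∧ (∀ i j, DmS u₀ R (α i + θ j)) ∧
        RelKA δ w fun p : (Fin k × Fin r) × Tau (mm F q) => xP F q Φ (α p.1.1 + θ p.1.2) p.2}.Finite ∧
      ({α : Fin k → ℂ | (∀ i, AInt m T (α i)) ∧ (∀ i j, DmS u₀ R (α i + θ j)) ∧
        RelKA δ w fun p : (Fin k × Fin r) × Tau (mm F q) => xP F q Φ (α p.1.1 + θ p.1.2) p.2}.ncard : ℝ) ≤
        C * (T : ℝ) ^ (((k * Mm m : ℕ) : ℝ) - 1 / ((δ : ℝ) + 2) ^ C) := by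
  obtain ⟨κ, -, hlink⟩ := linkS' hprim hsqi hG hu₀ hP
  refine deg_tuples_exp (vS (PP F q) (mm F q)) (inpE_s hG hD) (xP F q Φ) (DmS u₀ R) m ?_ θ hθ k Q
  obtain ⟨E, hE⟩ := hlink _ (kp κ) (by
    rintro _ ⟨p, rfl⟩
    exact ⟨Sum.inl p, rfl⟩) ⟨Sum.inr (), rfl⟩ m
  exact ⟨_, _, E, hE.toA⟩

/-- a relation between numbers `y` gives a relation between numbers `x` if the `y` are affine in the `x` -/
theorem relKA_of {υ υ' κ κ' : Type} {δ : ℕ} {w : υ → ℂ} {w' : υ' → ℂ} (f : υ → υ') (hf : ∀ j, w' (f j) = w j)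
    (e : κ' ≃ κ) {y : κ → ℂ} {x : κ' → ℂ} (K : IntermediateField ℚ ℂ) (hK : FiniteDimensional ℚ K)
    (hKd : finrank ℚ K ≤ δ)
    (hx : ∀ p, ∃ b : K, b ≠ 0 ∧ y (e p) - b * x p ∈ Submodule.span K (insert 1 (Set.range w')))
    (P : MvPolynomial (υ ⊕ κ) K) (hP : P.totalDegree ≤ δ) (hP0 : MvPolynomial.aeval (Sum.elim w y) P = 0)
    (hne : MvPolynomial.aeval (Sum.elim (fun j => MvPolynomial.C (w j)) MvPolynomial.X) P ≠
      (0 : MvPolynomial κ ℂ)) : RelKA δ w' x := by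
  refine ⟨K, hK, hKd, fun p => y (e p), hx, MvPolynomial.rename (Sum.map f e.symm) P,
    (MvPolynomial.totalDegree_rename_le _ _).trans hP, ?_, ?_⟩
  · rw [MvPolynomial.aeval_rename, ← hP0]
    congr 2
    funext z
    rcases z with i | z
    · exact hf i
    · simp
  · intro h
    apply hne
    rw [MvPolynomial.aeval_rename] at h
    have h10 := congrArg (MvPolynomial.rename (R := ℂ) e) h
    rw [map_zero] at h10
    rw [MvPolynomial.aeval_def] at h10 ⊢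
    have h11 := MvPolynomial.eval₂_comp_left (MvPolynomial.rename (R := ℂ) e).toRingHom
      (algebraMap K (MvPolynomial κ' ℂ))
      (Sum.elim (fun j => MvPolynomial.C (w' j)) MvPolynomial.X ∘ Sum.map f e.symm) P
    refine Eq.trans ?_ (h11.symm.trans h10)
    congr 1
    · refine RingHom.ext fun x => ?_
      change MvPolynomial.C (x : ℂ) = MvPolynomial.rename e (MvPolynomial.C (x : ℂ))
      rw [MvPolynomial.rename_C]
    · funext z
      rcases z with i | z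
      · simp [hf i]
      · simp

/-- **Elliptic tuples** -/
theorem ellN_exp (hwpc : S_wpc) (L : PeriodPair) (a b : ℚ) (ha : L.g₂ = a) (hb : L.g₃ = b)
    {m r : ℕ} (η : Fin (m + 1) → ℂ) (hη : ∀ j, IsAlgebraic ℚ (η j)) (hη0 : η 0 = 1) (θ : Fin r → ℕ)
    (hθ : Function.Injective θ) (k Q : ℕ) :
    ∃ C : ℕ, ∀ (δ : ℕ) (w : Fin Q → ℂ) (T : ℕ), 1 ≤ T →
      {n : Fin k → Fin (m + 1) → ℤ | (∀ i l, |n i l| ≤ T) ∧ ∃ p t : Fin k × Fin r → ℂ, (∀ q, p q ∉ L.lattice ∧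
        ℘[L] (p q) = (∑ l, (n q.1 l : ℂ) * η l) + θ q.2 ∧ Complex.exp (t q) = (∑ l, (n q.1 l : ℂ) * η l) + θ q.2) ∧
        RelK δ w fun x : (Fin k × Fin r) × Fin 3 => trip L (p x.1) (t x.1) x.2}.Finite ∧
      ({n : Fin k → Fin (m + 1) → ℤ | (∀ i l, |n i l| ≤ T) ∧ ∃ p t : Fin k × Fin r → ℂ, (∀ q, p q ∉ L.lattice ∧
        ℘[L] (p q) = (∑ l, (n q.1 l : ℂ) * η l) + θ q.2 ∧ Complex.exp (t q) = (∑ l, (n q.1 l : ℂ) * η l) + θ q.2) ∧
        RelK δ w fun x : (Fin k × Fin r) × Fin 3 => trip L (p x.1) (t x.1) x.2}.ncard : ℝ) ≤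
        C * (T : ℝ) ^ (((k * (m + 1) : ℕ) : ℝ) - 1 / ((δ : ℝ) + 2) ^ C) := by
  classical
  have hab : a ^ 3 - 27 * b ^ 2 ≠ 0 := by
    have h1 := disc_ne Pool.Agent.Y153.HE.t_qp L
    rw [ha, hb] at h1
    exact_mod_cast h1
  have hF := Fe_good a b hab
  obtain ⟨C, hC⟩ := lat_tuples_exp (vS (Pe a b) (me a b)) (inpE_e a b hF) (xE a b L) (DmE L)
    (fun m => by
      obtain ⟨E, hE⟩ := linkE a b hwpc L ha hb hF m
      exact ⟨_, _, E, hE.toA⟩) η hη hη0 θ hθ k (Q + 5)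
  refine ⟨C, fun δ w T hT => ?_⟩
  obtain ⟨hfin, hcard⟩ := hC δ (Fin.append w (perV L)) T hT
  have hsub : {n : Fin k → Fin (m + 1) → ℤ | (∀ i l, |n i l| ≤ T) ∧ ∃ p t : Fin k × Fin r → ℂ, (∀ q, p q ∉ L.lattice ∧
        ℘[L] (p q) = (∑ l, (n q.1 l : ℂ) * η l) + θ q.2 ∧ Complex.exp (t q) = (∑ l, (n q.1 l : ℂ) * η l) + θ q.2) ∧
        RelK δ w fun x : (Fin k × Fin r) × Fin 3 => trip L (p x.1) (t x.1) x.2} ⊆
      {n : Fin k → Fin (m + 1) → ℤ | (∀ i l, |n i l| ≤ T) ∧ (∀ i j, DmE L ((∑ l, (n i l : ℂ) * η l) + θ j)) ∧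
        RelKA δ (Fin.append w (perV L)) fun p : (Fin k × Fin r) × Tau (me a b) =>
          xE a b L ((∑ l, (n p.1.1 l : ℂ) * η l) + θ p.1.2) p.2} := by
    rintro n ⟨hn, p, t, hpt, K, hKf, hKd, P, hPd, hPv, hP0⟩
    refine ⟨hn, fun i j => pf_spec L (hpt (i, j)).1 (hpt (i, j)).2.1, ?_⟩
    refine relKA_of (Fin.castAdd 5) (fun j => by rw [Fin.append_left])
      ((Equiv.refl (Fin k × Fin r)).prodCongr (fe a b))
      (y := fun x : (Fin k × Fin r) × Fin 3 => trip L (p x.1) (t x.1) x.2) K hKf hKd (fun q => ?_) P hPd hPv hP0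
    have h5 := detE a b L (hpt q.1).1 (hpt q.1).2.1 (hpt q.1).2.2 (K := K)
      (Submodule.span K (insert 1 (Set.range (Fin.append w (perV L))))) (fun j n => ?_) q.2
    · exact h5
    · have h4 : (n : ℂ) * perV L j = (n : K) • perV L j := by
        rw [Algebra.smul_def]
        simp
      rw [h4]
      refine Submodule.smul_mem _ _ (Submodule.subset_span (Set.mem_insert_of_mem _ ⟨Fin.natAdd Q j, ?_⟩))
      rw [Fin.append_right]
  exact ⟨hfin.subset hsub, le_trans (by exact_mod_cast Set.ncard_le_ncard hsub hfin) hcard⟩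

end Pool.Agent.R351.GD
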