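import Pool.Agent.Y916.Sch.EllW
import Pool.Agent.Y916.Sch.EllP
import Pool.Agent.R351.GD.S.AllT

/-!
# Translates of the points of the Lie algebra of `(E × G_m)^n` by logarithms of algebraic points: growing degrees
-/

set_option autoImplicit false

open Module
open scoped PeriodPair Pointwise

namespace Pool.Agent.R351.GD

open Pool.Agent.Y113 Pool.Agent.Y916 Pool.Agent.Y916.AW Pool.Agent.Y916.Al Pool.Agent.Y916.Hy Pool.Agent.Y916.Sa
open Pool.Agent.Y916.Fld Pool.Agent.Y916.Sl Pool.Agent.Y916.Sch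

/-- windows -/
theorem winE_exp (Λ : PeriodPair) (a b : ℚ) (ha : Λ.g₂ = a) (hb : Λ.g₃ = b) (n q m A : ℕ) :
    ∃ E : ℕ → ℕ, PB E ∧ ∀ (δ H : ℕ) (ξ : ℂ), ((H : ℝ) + 2) ^ E δ ≤ ‖ξ‖ → Al.Ht m A ξ → ∀ (w : Fin q → ℂ) (z s : Fin n → ℂ),
      ∃ S : Finset ℕ, (S.card : Cardinal) ≤ ((7 * n + q + 4 : ℕ) : Cardinal) +
        Algebra.trdeg ℚ (IntermediateField.adjoin ℚ (Set.range (Hy.perV Λ))) ∧
      ∀ g : Fin n → ℕ, Function.Injective g → (∀ i, 1 ≤ g i ∧ g i ≤ H ∧ g i ∉ S) →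
        ¬ BadE Λ δ δ (Sum.elim w (Hy.perV Λ)) z s fun i => ξ + g i := by
  classical
  rcases Nat.eq_zero_or_pos m with hm0 | hm1
  · refine ⟨fun _ => 1, PB.const 1, fun δ H ξ hξ hHt w z s => ?_⟩
    obtain ⟨p, h1, h2, h3, h4⟩ := hHt
    exfalso
    subst hm0
    rw [Polynomial.eq_C_of_natDegree_le_zero h2, Polynomial.aeval_C] at h4
    have h5 : p.coeff 0 = 0 := by
      have : ((p.coeff 0 : ℤ) : ℂ) = 0 := h4
      exact_mod_cast this
    exact h1 (by rw [Polynomial.eq_C_of_natDegree_le_zero h2, h5, Polynomial.C_0])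
  obtain ⟨E, hEp, hE⟩ := ellW_exp Pool.Agent.Y916.Sl.tW Λ a b ha hb n m A (q + n * 6)
  refine ⟨fun δ => E (δ * (2 * m) ^ (2 * n) + ((5 * n + 1) * δ + δ)), hEp.comp ((PB.id.mul (PB.const _)).add
    (((PB.const (5 * n + 1)).mul PB.id).add PB.id)), fun δ H ξ hξ hHt w z s => ?_⟩
  set e := (5 * n + 1) * δ with he
  -- the constants
  set υ := Fin q ⊕ Fin n × Fin 6 with hυ
  have hcard : Fintype.card υ = q + n * 6 := by simp [hυ]
  let eqv : υ ≃ Fin (q + n * 6) := Fintype.equivFinOfCardEq hcard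
  set w₁ : υ → ℂ := cE Λ w z s with hw₁
  obtain ⟨S₁, hS₁, hwin⟩ := hE (δ * (2 * m) ^ (2 * n) + (e + δ)) H ξ hξ hHt fun j => w₁ (eqv.symm j)
  -- the special values
  set f : Polynomial ℂ := Polynomial.C 4 * Polynomial.X ^ 3 - Polynomial.C (a : ℂ) * Polynomial.X -
    Polynomial.C (b : ℂ) with hf
  have hfd : f.natDegree ≤ 3 := by
    rw [hf]
    compute_degree
  have hf0 : f ≠ 0 := by
    intro h0
    have h3 : f.coeff 3 = 4 := by
      rw [hf]
      simp [Polynomial.coeff_X, Polynomial.coeff_C]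
    rw [h0, Polynomial.coeff_zero] at h3
    norm_num at h3
  set F : Finset ℂ := f.roots.toFinset ∪ Finset.univ.image fun i => ℘[Λ] (z i) with hF
  have hFc : F.card ≤ 3 + n := by
    refine (Finset.card_union_le _ _).trans (add_le_add ?_ ?_)
    · exact ((Multiset.toFinset_card_le f.roots).trans (Polynomial.card_roots' f)).trans hfd
    · exact Finset.card_image_le.trans (by simp)
  set S₂ : Finset ℕ := (Finset.range (H + 1)).filter fun g => ξ + (g : ℂ) ∈ F with hS₂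
  have hS₂c : S₂.card ≤ 3 + n := by
    refine le_trans ?_ hFc
    refine Finset.card_le_card_of_injOn (fun g : ℕ => ξ + (g : ℂ)) (fun g hg => (Finset.mem_filter.1 hg).2) ?_
    intro g _ g' _ h
    have h' : ξ + (g : ℂ) = ξ + (g' : ℂ) := h
    exact_mod_cast add_left_cancel h'
  refine ⟨S₁ ∪ S₂, ?_, fun g hinj hg hbad => ?_⟩
  · have h1 : ((S₁ ∪ S₂).card : Cardinal) ≤ (S₁.card : Cardinal) + (S₂.card : Cardinal) := by
      exact_mod_cast Finset.card_union_le S₁ S₂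
    have h2 : (S₂.card : Cardinal) ≤ ((3 + n : ℕ) : Cardinal) := by exact_mod_cast hS₂c
    refine h1.trans ((add_le_add hS₁ h2).trans (le_of_eq ?_))
    push_cast
    ring
  · obtain ⟨u, t, hu, hp, hpα, ht, hfr⟩ := hbad
    have hξd : IsIntegral ℚ ξ ∧ (minpoly ℚ ξ).natDegree ≤ m := by
      obtain ⟨p, h1, h2, h3, h4⟩ := hHt
      exact deg_of_root h1 h2 h4
    have hgF : ∀ i, ξ + (g i : ℂ) ∉ F := by
      intro i hi
      refine (hg i).2.2 (Finset.mem_union_right _ (Finset.mem_filter.2 ⟨?_, hi⟩))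
      rw [Finset.mem_range]
      have := (hg i).2.1
      omega
    have hrel := ell_rel Λ a b ha hb hm1 (Sum.elim w (Hy.perV Λ)) z s (fun i => ξ + (g i : ℂ)) (fun i => by
      have hf1 : FiniteDimensional ℚ (IntermediateField.adjoin ℚ {ξ}) :=
        IntermediateField.adjoin.finiteDimensional hξd.1
      refine ⟨IntermediateField.adjoin ℚ {ξ}, hf1, ?_, ?_⟩
      · rw [IntermediateField.adjoin.finrank hξd.1]
        exact hξd.2
      · exact add_mem (IntermediateField.mem_adjoin_simple_self ℚ ξ) (natCast_mem _ _)) u t hu hp hpα ht (by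
      intro i h0
      refine hgF i (Finset.mem_union_left _ ?_)
      rw [Multiset.mem_toFinset, Polynomial.mem_roots hf0, Polynomial.IsRoot.def, hf]
      simpa using h0) (by
      intro i _ h0
      refine hgF i (Finset.mem_union_right _ ?_)
      rw [← h0]
      exact Finset.mem_image_of_mem (fun i => ℘[Λ] (z i)) (Finset.mem_univ i)) hfr
    obtain ⟨K, hK1, hK2, P, hP0, hPd, hPc, hPv⟩ := hrel
    obtain ⟨Q, hQ1, hQ2⟩ := lift_poly K (cE1 Λ (Sum.elim w (Hy.perV Λ)) z s) e δ P hPd hPc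
    -- remove the constant `1`
    let h : Option ((Fin q ⊕ Fin 5) ⊕ Fin n × Fin 6) ⊕ Fin n × Fin 3 →
        MvPolynomial ((Fin (q + n * 6) ⊕ Fin 5) ⊕ Fin n × Fin 3) K :=
      Sum.elim (fun o => o.elim 1 (Sum.elim (Sum.elim
        (fun j => MvPolynomial.X (Sum.inl (Sum.inl (eqv (Sum.inl j)))))
        (fun j => MvPolynomial.X (Sum.inl (Sum.inr j)))) fun c => MvPolynomial.X (Sum.inl (Sum.inl (eqv (Sum.inr c))))))
        fun c => MvPolynomial.X (Sum.inr c)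
    have hhd : ∀ c, (h c).totalDegree ≤ 1 := by
      rintro ((_ | (j | j) | c) | c)
      · show (1 : MvPolynomial ((Fin (q + n * 6) ⊕ Fin 5) ⊕ Fin n × Fin 3) K).totalDegree ≤ 1
        rw [MvPolynomial.totalDegree_one]
        exact Nat.zero_le _
      · exact (MvPolynomial.totalDegree_X _).le
      · exact (MvPolynomial.totalDegree_X _).le
      · exact (MvPolynomial.totalDegree_X _).le
      · exact (MvPolynomial.totalDegree_X _).le
    have hev : ∀ y : Fin n × Fin 3 → ℂ, MvPolynomial.aeval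
        (Sum.elim (Sum.elim (fun j => w₁ (eqv.symm j)) (Hy.perV Λ)) y) (MvPolynomial.aeval h Q) =
        MvPolynomial.aeval (Sum.elim (cE1 Λ (Sum.elim w (Hy.perV Λ)) z s) y) Q := by
      intro y
      have h3 : (MvPolynomial.aeval (Sum.elim (Sum.elim (fun j => w₁ (eqv.symm j)) (Hy.perV Λ)) y) :
          MvPolynomial ((Fin (q + n * 6) ⊕ Fin 5) ⊕ Fin n × Fin 3) K →ₐ[K] ℂ).comp (MvPolynomial.aeval h) =
          MvPolynomial.aeval (Sum.elim (cE1 Λ (Sum.elim w (Hy.perV Λ)) z s) y) := by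
        refine MvPolynomial.algHom_ext fun c => ?_
        rcases c with (_ | (j | j) | c) | c
        · simp [h, cE1]
        · simp [h, cE1, cE, hw₁]
        · simp [h, cE1, cE]
        · simp [h, cE1, cE, hw₁]
        · simp [h]
      exact DFunLike.congr_fun h3 Q
    have hdeg : (MvPolynomial.aeval h Q).totalDegree ≤ e + δ := by
      rw [MvPolynomial.aeval_def, MvPolynomial.eval₂_eq]
      refine MvPolynomial.totalDegree_finsetSum_le fun t ht => ?_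
      have h3 : algebraMap K (MvPolynomial ((Fin (q + n * 6) ⊕ Fin 5) ⊕ Fin n × Fin 3) K) (Q.coeff t) =
        MvPolynomial.C (Q.coeff t) := rfl
      rw [h3]
      refine (MvPolynomial.totalDegree_mul _ _).trans ?_
      rw [MvPolynomial.totalDegree_C, zero_add]
      refine (MvPolynomial.totalDegree_finset_prod _ _).trans ?_
      refine le_trans (Finset.sum_le_sum fun i _ => ?_) ((MvPolynomial.le_totalDegree ht).trans hQ1)
      refine (MvPolynomial.totalDegree_pow _ _).trans ?_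
      exact (Nat.mul_le_mul_left _ (hhd i)).trans (by rw [mul_one])
    have hid := hwin g hinj (fun i => ⟨(hg i).1, (hg i).2.1, fun h => (hg i).2.2 (Finset.mem_union_left _ h)⟩)
      (fun i => u i - z i) (fun i => t i - s i) (fun i => ⟨hp i, hpα i, ht i⟩) K hK1
      (hK2.trans (Nat.le_add_right _ _)) (MvPolynomial.aeval h Q) (hdeg.trans (Nat.le_add_left _ _)) (by
        rw [hev, hQ2]
        exact hPv)
    apply hP0
    refine MvPolynomial.funext fun y => ?_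
    rw [map_zero]
    have h4 := congrArg (MvPolynomial.aeval (R := ℂ) y) hid
    rw [map_zero, Af.eval_sub, hev, hQ2] at h4
    exact h4



theorem badW_up {d d' δ δ' e e' : ℕ} {υ κ : Type} {w : υ → ℂ} {y : κ → ℂ} (h : Om.BadW d δ e w y) (hd : d ≤ d')
    (hδ : δ ≤ δ') (he : e ≤ e') : Om.BadW d' δ' e' w y := by
  obtain ⟨K, h1, h2, P, h3, h4, h5, h6⟩ := BadW.mono_e h he
  exact ⟨K, h1, h2.trans hd, P, h3, h4.trans hδ, h5, h6⟩

open Classical in
/-- **Algebraic integers of bounded degree: few bad tuples** -/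
theorem deg_tuplesB_exp {σ : Type} [Fintype σ] [DecidableEq σ] (val : ℂ → ℕ → σ → ℂ) (hval : InpE val)
    (x : ℂ → σ → ℂ) (Dm : ℂ → Prop) (m : ℕ) (hlink : ∃ e τ E, LinkA val x Dm m e τ E) {r : ℕ} (θ : Fin r → ℕ)
    (hinj : Function.Injective θ) (k q : ℕ) :
    ∃ C : ℕ, ∀ (δ : ℕ) (w : Fin q → ℂ) (T : ℕ), 1 ≤ T →
      {ξ : Fin k → ℂ | (∀ i, AInt m T (ξ i)) ∧ (∀ i j, Dm (ξ i + θ j)) ∧
        Om.BadW δ δ (δ + δ) w fun p : (Fin k × Fin r) × σ => x (ξ p.1.1 + θ p.1.2) p.2}.Finite ∧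
      ({ξ : Fin k → ℂ | (∀ i, AInt m T (ξ i)) ∧ (∀ i j, Dm (ξ i + θ j)) ∧
        Om.BadW δ δ (δ + δ) w fun p : (Fin k × Fin r) × σ => x (ξ p.1.1 + θ p.1.2) p.2}.ncard : ℝ) ≤
        C * (T : ℝ) ^ (((k * Mm m : ℕ) : ℝ) - 1 / ((δ : ℝ) + 2) ^ C) := by
  obtain ⟨e, τ, E, hlink⟩ := hlink
  obtain ⟨C, hC⟩ := gen_tuplesG (fun (ξ : ℂ) (p : Fin r × σ) => x (ξ + θ p.1) p.2)
    (fun T : ℕ => (NF m T).filter fun ξ => ∀ j, Dm (ξ + θ j)) (Mm m) ((3 * 2 ^ m) ^ m * m) (by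
      intro T hT
      refine le_trans ?_ ((card_NF m T hT).trans (le_of_eq (by push_cast; ring)))
      exact_mod_cast Finset.card_filter_le _ _) k q (fun Q => by
        obtain ⟨E, C₁, hEp, h⟩ := deg_bad_exp val hval x Dm m e τ E hlink θ hinj Q
        refine ⟨E, C₁, hEp, fun δ w T hT => le_trans (le_of_eq ?_) (h δ w T hT)⟩
        congr 2
        ext n
        simp only [Finset.mem_filter, and_assoc])
  refine ⟨C, fun δ w T hT => ?_⟩
  have h1 := hC δ w T hT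
  set B := (Fintype.piFinset fun _ : Fin k => (NF m T).filter fun ξ => ∀ j, Dm (ξ + θ j)).filter
        fun t => Om.BadW δ δ (δ + δ) w (fun p : Fin k × (Fin r × σ) => x (t p.1 + θ p.2.1) p.2.2) with hB
  have hsub : {ξ : Fin k → ℂ | (∀ i, AInt m T (ξ i)) ∧ (∀ i j, Dm (ξ i + θ j)) ∧
        Om.BadW δ δ (δ + δ) w fun p : (Fin k × Fin r) × σ => x (ξ p.1.1 + θ p.1.2) p.2} ⊆ (B : Set (Fin k → ℂ)) := by
    rintro ξ ⟨hξ, hD, hrel⟩
    rw [hB, Finset.mem_coe, Finset.mem_filter, Fintype.mem_piFinset]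
    refine ⟨fun i => Finset.mem_filter.2 ⟨mem_NF.2 (hξ i), hD i⟩, ?_⟩
    have h4 := Pool.Agent.R351.GD.BadW.reindex (Equiv.prodAssoc (Fin k) (Fin r) σ).symm hrel
    exact h4
  refine ⟨(Finset.finite_toSet B).subset hsub, le_trans ?_ h1⟩
  have h2 := Set.ncard_le_ncard hsub (Finset.finite_toSet B)
  rw [Set.ncard_coe_finset] at h2
  exact_mod_cast h2

/-- **Elliptic tuples, bounded degree** -/
theorem ellD_exp (L : PeriodPair) (a b : ℚ) (ha : L.g₂ = a) (hb : L.g₃ = b)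
    (m : ℕ) {r : ℕ} (θ : Fin r → ℕ) (hθ : Function.Injective θ) (k Q : ℕ) :
    ∃ C : ℕ, ∀ (δ : ℕ) (w : Fin Q → ℂ) (T : ℕ), 1 ≤ T →
      {α : Fin k → ℂ | (∀ i, AInt m T (α i)) ∧ ∃ p t : Fin k × Fin r → ℂ, (∀ q, p q ∉ L.lattice ∧
        ℘[L] (p q) = α q.1 + θ q.2 ∧ Complex.exp (t q) = α q.1 + θ q.2) ∧
        Om.BadW δ δ δ w fun x : (Fin k × Fin r) × Fin 3 => trip L (p x.1) (t x.1) x.2}.Finite ∧
      ({α : Fin k → ℂ | (∀ i, AInt m T (α i)) ∧ ∃ p t : Fin k × Fin r → ℂ, (∀ q, p q ∉ L.lattice ∧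
        ℘[L] (p q) = α q.1 + θ q.2 ∧ Complex.exp (t q) = α q.1 + θ q.2) ∧
        Om.BadW δ δ δ w fun x : (Fin k × Fin r) × Fin 3 => trip L (p x.1) (t x.1) x.2}.ncard : ℝ) ≤
        C * (T : ℝ) ^ (((k * Mm m : ℕ) : ℝ) - 1 / ((δ : ℝ) + 2) ^ C) := by
  classical
  have hab : a ^ 3 - 27 * b ^ 2 ≠ 0 := by
    have h1 := disc_ne Pool.Agent.Y153.HE.t_qp L
    rw [ha, hb] at h1
    exact_mod_cast h1
  have hF := Fe_good a b hab
  obtain ⟨C, hC⟩ := deg_tuplesB_exp (vS (Pe a b) (me a b)) (inpE_e a b hF) (xE a b L) (DmE L) m (by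
      obtain ⟨E, hE⟩ := linkE a b Pool.Agent.Y916.Sl.tW L ha hb hF m
      exact ⟨_, _, E, hE.toA⟩) θ hθ k (Q + 5)
  refine ⟨C, fun δ w T hT => ?_⟩
  set w' : Fin (Q + 5) → ℂ := Fin.append w (perV L) with hw'
  obtain ⟨hfin, hcard⟩ := hC δ w' T hT
  have hsub : {α : Fin k → ℂ | (∀ i, AInt m T (α i)) ∧ ∃ p t : Fin k × Fin r → ℂ, (∀ q, p q ∉ L.lattice ∧
        ℘[L] (p q) = α q.1 + θ q.2 ∧ Complex.exp (t q) = α q.1 + θ q.2) ∧
        Om.BadW δ δ δ w fun x : (Fin k × Fin r) × Fin 3 => trip L (p x.1) (t x.1) x.2} ⊆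
      {α : Fin k → ℂ | (∀ i, AInt m T (α i)) ∧ (∀ i j, DmE L (α i + θ j)) ∧
        Om.BadW δ δ (δ + δ) w' fun p : (Fin k × Fin r) × Tau (me a b) => xE a b L (α p.1.1 + θ p.1.2) p.2} := by
    rintro α ⟨hn, p, t, hpt, hbad⟩
    refine ⟨hn, fun i j => pf_spec L (hpt (i, j)).1 (hpt (i, j)).2.1, ?_⟩
    have hbad' : Om.BadW δ δ δ w' (fun x : (Fin k × Fin r) × Fin 3 => trip L (p x.1) (t x.1) x.2) :=
      hbad.mono fun j => Or.inr ⟨Fin.castAdd 5 j, by rw [hw', Fin.append_left]⟩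
    have hbad2 := Pool.Agent.R351.GD.BadW.reindex ((Equiv.refl (Fin k × Fin r)).prodCongr (fe a b)) hbad'
    obtain ⟨K, h1, h2, h3⟩ := hbad2
    refine Om.BadW.affine K h1 h2 (fun q => ?_) h3
    have h5 := detE a b L (hpt q.1).1 (hpt q.1).2.1 (hpt q.1).2.2 (K := K)
      (Submodule.span K (insert 1 (Set.range w'))) (fun j n => ?_) q.2
    · exact h5
    · have h4 : (n : ℂ) * perV L j = (n : K) • perV L j := by
        rw [Algebra.smul_def]
        simp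
      rw [h4]
      refine Submodule.smul_mem _ _ (Submodule.subset_span (Set.mem_insert_of_mem _ ⟨Fin.natAdd Q j, ?_⟩))
      rw [hw', Fin.append_right]
  exact ⟨hfin.subset hsub, le_trans (by exact_mod_cast Set.ncard_le_ncard hsub hfin) hcard⟩

/-- powers of a `ℚ`-span are in the powers of the `K`-span -/
theorem span_pow_sub (K : IntermediateField ℚ ℂ) (s s' : Set ℂ) (h : s ⊆ (Submodule.span K s' : Set ℂ)) (e : ℕ) :
    Submodule.span K (((Submodule.span ℚ s) ^ e : Submodule ℚ ℂ) : Set ℂ) ≤ (Submodule.span K s') ^ e := by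
  rw [Submodule.span_le]
  induction e with
  | zero =>
    intro x hx
    rw [pow_zero] at hx ⊢
    obtain ⟨q, rfl⟩ := Submodule.mem_one.1 hx
    exact Submodule.mem_one.2 ⟨algebraMap ℚ K q, by simp⟩
  | succ e ih =>
    intro x hx
    rw [pow_succ] at hx ⊢
    have hx' : x ∈ (Submodule.span ℚ s) ^ e * Submodule.span ℚ s := hx
    show x ∈ (Submodule.span K s') ^ e * Submodule.span K s'
    refine Submodule.mul_induction_on hx' ?_ ?_
    · intro m hm n hn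
      have h3 : n ∈ Submodule.span K s' := by
        refine Submodule.span_induction (p := fun y _ => y ∈ Submodule.span K s') ?_ ?_ ?_ ?_ hn
        · intro y hy
          exact h hy
        · exact Submodule.zero_mem _
        · intro y z _ _ h5 h6
          exact Submodule.add_mem _ h5 h6
        · intro c y _ h5
          have h7 : c • y = (algebraMap ℚ K c) • y := by
            rw [Algebra.smul_def, Algebra.smul_def]
            simp
          rw [h7]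
          exact Submodule.smul_mem _ _ h5
      exact Submodule.mul_mem_mul (ih hm) h3
    · intro y z h5 h6
      exact Submodule.add_mem _ h5 h6

theorem tupE_exp (Λ : PeriodPair) (a b : ℚ) (ha : Λ.g₂ = a) (hb : Λ.g₃ = b) (n q m : ℕ) (hm : 1 ≤ m) :
    ∃ C : ℕ, ∀ (δ : ℕ) (w : Fin q → ℂ) (z s : Fin n → ℂ) (T : ℕ), 1 ≤ T →
      {α : Fin n → ℂ | (∀ i, Sl.AInt m T (α i)) ∧ BadE Λ δ δ w z s α}.Finite ∧
      ({α : Fin n → ℂ | (∀ i, Sl.AInt m T (α i)) ∧ BadE Λ δ δ w z s α}.ncard : ℝ) ≤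
        C * (T : ℝ) ^ (((n * Sl.Mm m : ℕ) : ℝ) - 1 / ((δ : ℝ) + 2) ^ C) := by
  classical
  obtain ⟨C, h⟩ := ellD_exp Λ a b ha hb m
    (fun _ : Fin 1 => 0) (fun i j _ => Subsingleton.elim i j) n (q + n * 6)
  obtain ⟨C₂', hC₂', hfew'⟩ := few m n 4 hm
  obtain ⟨C₂, hC₂n⟩ := exists_nat_ge C₂'
  have hC₂ : (0 : ℝ) ≤ C₂ := Nat.cast_nonneg _
  have hD : PB fun δ => (δ * (2 * m) ^ (2 * n) + (5 * n + 1) * δ + 2) ^ C :=
    (((PB.id.mul (PB.const _)).add ((PB.const (5 * n + 1)).mul PB.id)).add (PB.const 2)).pow C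
  obtain ⟨C₃, hC₃⟩ := hD
  refine ⟨C + C₂ + C₃, fun δ w z s T hT => ?_⟩
  have hT1 : (1 : ℝ) ≤ T := by exact_mod_cast hT
  have hfew : ∀ F : Fin n → Finset ℂ, (∀ i, (F i).card ≤ 4) →
      (((Fintype.piFinset fun _ : Fin n => Sl.NF m T).filter fun α => ∃ i, α i ∈ F i).card : ℝ) ≤
        C₂ * (T : ℝ) ^ (((n * Sl.Mm m : ℕ) : ℝ) - 1) := fun F hF =>
    (hfew' T hT F hF).trans (mul_le_mul_of_nonneg_right hC₂n (by positivity))
  set δ' := δ * (2 * m) ^ (2 * n) + (5 * n + 1) * δ with hδ'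
  set υ := Fin q ⊕ Fin n × Fin 6 with hυ
  have hcard : Fintype.card υ = q + n * 6 := by simp [hυ]
  let eqv : υ ≃ Fin (q + n * 6) := Fintype.equivFinOfCardEq hcard
  set w₁ : Fin (q + n * 6) → ℂ := fun j => cE Λ w z s (eqv.symm j) with hw₁
  obtain ⟨h1, h2⟩ := h δ' w₁ T hT
  -- the special values
  set f : Polynomial ℂ := Polynomial.C 4 * Polynomial.X ^ 3 - Polynomial.C (a : ℂ) * Polynomial.X -
    Polynomial.C (b : ℂ) with hf
  have hfd : f.natDegree ≤ 3 := by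
    rw [hf]
    compute_degree
  have hf0 : f ≠ 0 := by
    intro h0
    have h3 : f.coeff 3 = 4 := by
      rw [hf]
      simp [Polynomial.coeff_X, Polynomial.coeff_C]
    rw [h0, Polynomial.coeff_zero] at h3
    norm_num at h3
  set F : Fin n → Finset ℂ := fun i => insert (℘[Λ] (z i)) f.roots.toFinset with hF
  have hFc : ∀ i, (F i).card ≤ 4 := by
    intro i
    refine (Finset.card_insert_le _ _).trans ?_
    have h3 := (Multiset.toFinset_card_le f.roots).trans (Polynomial.card_roots' f)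
    omega
  set B2 := (Fintype.piFinset fun _ : Fin n => Sl.NF m T).filter fun α => ∃ i, α i ∈ F i with hB2
  set X := {α : Fin n → ℂ | (∀ i, Sl.AInt m T (α i)) ∧ ∃ p t : Fin n × Fin 1 → ℂ, (∀ q, p q ∉ Λ.lattice ∧
        ℘[Λ] (p q) = α q.1 + ((fun _ : Fin 1 => 0) q.2 : ℕ) ∧ Complex.exp (t q) = α q.1 + ((fun _ : Fin 1 => 0) q.2 : ℕ)) ∧
        Om.BadW δ' δ' δ' w₁
          fun x : (Fin n × Fin 1) × Fin 3 => Hy.trip Λ (p x.1) (t x.1) x.2} with hX
  have hsub : {α : Fin n → ℂ | (∀ i, Sl.AInt m T (α i)) ∧ BadE Λ δ δ w z s α} ⊆ X ∪ (B2 : Set (Fin n → ℂ)) := by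
    rintro α ⟨hα, u, t, hu, hp, hpα, ht, hfr⟩
    by_cases hsp : ∃ i, α i ∈ F i
    · right
      rw [hB2, Finset.mem_coe, Finset.mem_filter, Fintype.mem_piFinset]
      exact ⟨fun i => Sl.mem_NF.2 (hα i), hsp⟩
    · left
      push Not at hsp
      have hsp1 : ∀ i, 4 * α i ^ 3 - a * α i - b ≠ 0 := by
        intro i h0
        refine hsp i (Finset.mem_insert_of_mem ?_)
        rw [Multiset.mem_toFinset, Polynomial.mem_roots hf0, Polynomial.IsRoot.def, hf]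
        simpa using h0
      have hsp2 : ∀ i, z i ∉ Λ.lattice → ℘[Λ] (z i) ≠ α i := by
        intro i _ h0
        exact hsp i (by rw [hF, ← h0]; exact Finset.mem_insert_self _ _)
      have hrel := ell_rel Λ a b ha hb hm w z s α (fun i => by
        obtain ⟨K, ξ', h5, h6, h7, -⟩ := (hα i).pt hT1
        refine ⟨K, h5, h6, ?_⟩
        rw [← h7]
        exact ξ'.2) u t hu hp hpα ht hsp1 hsp2 hfr
      refine ⟨hα, fun x => u x.1 - z x.1, fun x => t x.1 - s x.1, fun x => ⟨hp x.1, ?_, ?_⟩, ?_⟩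
      · rw [hpα x.1]
        simp
      · rw [ht x.1]
        simp
      · obtain ⟨L, hL1, hL2, P, hP0, hPd, hPc, hPv⟩ := hrel
        let φ : Fin n × Fin 3 → (Fin n × Fin 1) × Fin 3 := fun x => ((x.1, 0), x.2)
        have hφ : Function.Injective φ := by
          rintro ⟨i, c⟩ ⟨j, c'⟩ h0
          simp only [φ, Prod.mk.injEq] at h0
          exact Prod.ext h0.1.1 h0.2
        have hδδ : δ ≤ δ' := by
          have : δ ≤ (5 * n + 1) * δ := Nat.le_mul_of_pos_left δ (by omega)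
          omega
        refine ⟨L, hL1, hL2.trans (Nat.le_add_right _ _), MvPolynomial.rename φ P, ?_,
          ((MvPolynomial.totalDegree_rename_le _ _).trans hPd).trans hδδ, ?_, ?_⟩
        · intro h0
          exact hP0 (MvPolynomial.rename_injective φ hφ (by rw [h0, map_zero]))
        · intro x
          by_cases hx : ∃ y, Finsupp.mapDomain φ y = x
          · obtain ⟨y, rfl⟩ := hx
            rw [MvPolynomial.coeff_rename_mapDomain φ hφ]
            have hsb : Set.range (cE1 Λ w z s) ⊆ (Submodule.span L (insert (1 : ℂ) (Set.range w₁)) : Set ℂ) := by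
              rintro _ ⟨o, rfl⟩
              rcases o with _ | o
              · exact Submodule.subset_span (Set.mem_insert _ _)
              · refine Submodule.subset_span (Set.mem_insert_of_mem _ ⟨eqv o, ?_⟩)
                rw [hw₁]
                simp [cE1]
            have hc1 := span_pow_sub L _ _ hsb ((5 * n + 1) * δ) (hPc y)
            exact Pool.Agent.Y916.Hil.pow_le_pow (Submodule.subset_span (Set.mem_insert _ _)) (Nat.le_add_left _ _) hc1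
          · rw [MvPolynomial.coeff_rename_eq_zero φ P x (fun y hy => absurd ⟨y, hy⟩ hx)]
            exact Submodule.zero_mem _
        · rw [MvPolynomial.aeval_rename, ← hPv]
          rfl
  have hfin : (X ∪ (B2 : Set (Fin n → ℂ))).Finite := h1.union (Finset.finite_toSet _)
  refine ⟨hfin.subset hsub, ?_⟩
  have h4 := hfew F hFc
  have h5 := (Set.ncard_le_ncard hsub hfin).trans (Set.ncard_union_le _ _)
  rw [Set.ncard_coe_finset] at h5
  have hδ0 : (0 : ℝ) ≤ δ := Nat.cast_nonneg _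
  have hp1 : ((δ' : ℝ) + 2) ^ C ≤ ((δ : ℝ) + 2) ^ (C + C₂ + C₃) := by
    have h6 : (δ' + 2) ^ C ≤ (δ + 2) ^ (C + C₂ + C₃) := (hC₃ δ).trans (Nat.pow_le_pow_right (by omega) (by omega))
    exact_mod_cast h6
  have hp2 : (1 : ℝ) / ((δ : ℝ) + 2) ^ (C + C₂ + C₃) ≤ 1 / ((δ' : ℝ) + 2) ^ C :=
    one_div_le_one_div_of_le (by positivity) hp1
  have hp3 : (1 : ℝ) / ((δ : ℝ) + 2) ^ (C + C₂ + C₃) ≤ 1 := by
    rw [div_le_one (by positivity)]
    exact one_le_pow₀ (by linarith)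
  set c : ℝ := 1 / ((δ : ℝ) + 2) ^ (C + C₂ + C₃) with hc
  have h6 : (T : ℝ) ^ (((n * Sl.Mm m : ℕ) : ℝ) - 1 / ((δ' : ℝ) + 2) ^ C) ≤ (T : ℝ) ^ (((n * Sl.Mm m : ℕ) : ℝ) - c) :=
    Real.rpow_le_rpow_of_exponent_le hT1 (by linarith)
  have h7 : (T : ℝ) ^ (((n * Sl.Mm m : ℕ) : ℝ) - 1) ≤ (T : ℝ) ^ (((n * Sl.Mm m : ℕ) : ℝ) - c) :=
    Real.rpow_le_rpow_of_exponent_le hT1 (by linarith)
  calc ({α : Fin n → ℂ | (∀ i, Sl.AInt m T (α i)) ∧ BadE Λ δ δ w z s α}.ncard : ℝ) ≤ (X.ncard : ℝ) + B2.card := by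
        exact_mod_cast h5
    _ ≤ C * (T : ℝ) ^ (((n * Sl.Mm m : ℕ) : ℝ) - c) + C₂ * (T : ℝ) ^ (((n * Sl.Mm m : ℕ) : ℝ) - c) :=
        add_le_add (h2.trans (mul_le_mul_of_nonneg_left h6 (Nat.cast_nonneg _)))
          (h4.trans (mul_le_mul_of_nonneg_left h7 hC₂))
    _ ≤ _ := by
        rw [← add_mul]
        refine mul_le_mul_of_nonneg_right ?_ (by positivity)
        push_cast
        have : (0 : ℝ) ≤ C₃ := Nat.cast_nonneg _
        linarith

theorem tupP_exp (Λ : PeriodPair) (a b : ℚ) (ha : Λ.g₂ = a) (hb : Λ.g₃ = b) (n s q m : ℕ) (hm : 1 ≤ m) :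
    ∃ C : ℕ, ∀ (δ : ℕ) (w : Fin q → ℂ) (z : Fin n → ℂ) (y : Fin s → ℂ) (T : ℕ), 1 ≤ T →
      {α : Fin (n + s) → ℂ | (∀ i, Sl.AInt m T (α i)) ∧ BadP Λ δ δ w z y α}.Finite ∧
      ({α : Fin (n + s) → ℂ | (∀ i, Sl.AInt m T (α i)) ∧ BadP Λ δ δ w z y α}.ncard : ℝ) ≤
        C * (T : ℝ) ^ ((((n + s) * Sl.Mm m : ℕ) : ℝ) - 1 / ((δ : ℝ) + 2) ^ C) := by
  classical
  obtain ⟨C, h⟩ := tupE_exp Λ a b ha hb (n + s) q m hm
  obtain ⟨C₂', hC₂', hfew'⟩ := few m (n + s) 1 hm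
  obtain ⟨C₂, hC₂n⟩ := exists_nat_ge C₂'
  have hC₂ : (0 : ℝ) ≤ C₂ := Nat.cast_nonneg _
  refine ⟨C + C₂, fun δ w z y T hT => ?_⟩
  have hT1 : (1 : ℝ) ≤ T := by exact_mod_cast hT
  have hfew : ∀ F : Fin (n + s) → Finset ℂ, (∀ i, (F i).card ≤ 1) →
      (((Fintype.piFinset fun _ : Fin (n + s) => Sl.NF m T).filter fun α => ∃ i, α i ∈ F i).card : ℝ) ≤
        C₂ * (T : ℝ) ^ ((((n + s) * Sl.Mm m : ℕ) : ℝ) - 1) := fun F hF =>
    (hfew' T hT F hF).trans (mul_le_mul_of_nonneg_right hC₂n (by positivity))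
  obtain ⟨h1, h2⟩ := h δ w (Fin.append z 0) (Fin.append 0 y) T hT
  set B2 := (Fintype.piFinset fun _ : Fin (n + s) => Sl.NF m T).filter fun α =>
    ∃ i, α i ∈ ((fun _ => {0}) : Fin (n + s) → Finset ℂ) i with hB2
  set X := {α : Fin (n + s) → ℂ | (∀ i, Sl.AInt m T (α i)) ∧
    BadE Λ δ δ w (Fin.append z 0) (Fin.append 0 y) α} with hX
  have hsub : {α : Fin (n + s) → ℂ | (∀ i, Sl.AInt m T (α i)) ∧ BadP Λ δ δ w z y α} ⊆
      X ∪ (B2 : Set (Fin (n + s) → ℂ)) := by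
    rintro α ⟨hα, hbad⟩
    by_cases h0 : ∃ i, α i = 0
    · right
      rw [hB2, Finset.mem_coe, Finset.mem_filter, Fintype.mem_piFinset]
      obtain ⟨i, hi⟩ := h0
      exact ⟨fun i => Sl.mem_NF.2 (hα i), i, Finset.mem_singleton.2 hi⟩
    · left
      push Not at h0
      exact ⟨hα, badP_badE Λ w z y α h0 hbad⟩
  have hfin : (X ∪ (B2 : Set (Fin (n + s) → ℂ))).Finite := h1.union (Finset.finite_toSet _)
  refine ⟨hfin.subset hsub, ?_⟩
  have h4 := hfew (fun _ => {0}) (fun _ => by simp)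
  have h5 := (Set.ncard_le_ncard hsub hfin).trans (Set.ncard_union_le _ _)
  rw [Set.ncard_coe_finset] at h5
  have hδ0 : (0 : ℝ) ≤ δ := Nat.cast_nonneg _
  have hp1 : ((δ : ℝ) + 2) ^ C ≤ ((δ : ℝ) + 2) ^ (C + C₂) := pow_le_pow_right₀ (by linarith) (Nat.le_add_right _ _)
  have hp2 : (1 : ℝ) / ((δ : ℝ) + 2) ^ (C + C₂) ≤ 1 / ((δ : ℝ) + 2) ^ C :=
    one_div_le_one_div_of_le (by positivity) hp1
  have hp3 : (1 : ℝ) / ((δ : ℝ) + 2) ^ (C + C₂) ≤ 1 := by
    rw [div_le_one (by positivity)]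
    exact one_le_pow₀ (by linarith)
  set c : ℝ := 1 / ((δ : ℝ) + 2) ^ (C + C₂) with hc
  have h6 : (T : ℝ) ^ ((((n + s) * Sl.Mm m : ℕ) : ℝ) - 1 / ((δ : ℝ) + 2) ^ C) ≤
      (T : ℝ) ^ ((((n + s) * Sl.Mm m : ℕ) : ℝ) - c) := Real.rpow_le_rpow_of_exponent_le hT1 (by linarith)
  have h7 : (T : ℝ) ^ ((((n + s) * Sl.Mm m : ℕ) : ℝ) - 1) ≤ (T : ℝ) ^ ((((n + s) * Sl.Mm m : ℕ) : ℝ) - c) :=
    Real.rpow_le_rpow_of_exponent_le hT1 (by linarith)
  calc ({α : Fin (n + s) → ℂ | (∀ i, Sl.AInt m T (α i)) ∧ BadP Λ δ δ w z y α}.ncard : ℝ) ≤ (X.ncard : ℝ) + B2.card := by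
        exact_mod_cast h5
    _ ≤ C * (T : ℝ) ^ ((((n + s) * Sl.Mm m : ℕ) : ℝ) - c) + C₂ * (T : ℝ) ^ ((((n + s) * Sl.Mm m : ℕ) : ℝ) - c) :=
        add_le_add (h2.trans (mul_le_mul_of_nonneg_left h6 (Nat.cast_nonneg _)))
          (h4.trans (mul_le_mul_of_nonneg_left h7 hC₂))
    _ = _ := by push_cast; ring

end Pool.Agent.R351.GD
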