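import Pool.Agent.Y916.Sl.Cnt
import Pool.Agent.Y916.Sl.DegT
import Pool.Agent.R351.GD.Gen
import Pool.Agent.R351.GD.S.Win

/-!
# From windows around points of number fields to tuples, with exponents which are polynomial in the degree
-/

set_option autoImplicit false

open Module

namespace Pool.Agent.R351.GD

section

open Pool.Agent.Y916.Hil Pool.Agent.Y916.Om

variable {Ω : Type} [Field Ω] [CharZero Ω]

/-- There are a number field `K` of degree at most `δ`, numbers `y_p`, equal to nonzero `K`-multiples of the `x_p` modulo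
the `K`-span of `1` and the `w_j`, and a relation of total degree at most `δ` over `K` between the `w_j` and `y_p` which
does not vanish identically in the `y_p` after the substitution of the `w_j`. -/
def RelKA {υ κ : Type} (δ : ℕ) (w : υ → Ω) (x : κ → Ω) : Prop :=
  ∃ K : IntermediateField ℚ Ω, FiniteDimensional ℚ K ∧ finrank ℚ K ≤ δ ∧ ∃ y : κ → Ω,
    (∀ p, ∃ b : K, b ≠ 0 ∧ y p - b * x p ∈ Submodule.span K (insert 1 (Set.range w))) ∧
    ∃ P : MvPolynomial (υ ⊕ κ) K, P.totalDegree ≤ δ ∧ MvPolynomial.aeval (Sum.elim w y) P = 0 ∧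
      MvPolynomial.aeval (Sum.elim (fun j => MvPolynomial.C (w j)) MvPolynomial.X) P ≠ (0 : MvPolynomial κ Ω)

theorem rel_of {υ κ : Type} [Fintype κ] {δ : ℕ} (w : υ → Ω) (l : κ → Ω) (K : IntermediateField ℚ Ω)
    (P : MvPolynomial (υ ⊕ κ) K) (hP : P.totalDegree ≤ δ) (hP0 : MvPolynomial.aeval (Sum.elim w l) P = 0)
    (hne : MvPolynomial.aeval (Sum.elim (fun a => MvPolynomial.C (w a)) MvPolynomial.X) P ≠
      (0 : MvPolynomial κ Ω)) :
    Rel δ ((Submodule.span K (insert 1 (Set.range w)) ^ δ : Submodule K Ω).restrictScalars ℚ) l := by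
  classical
  have h1 : (1 : Ω) ∈ Submodule.span K (insert (1 : Ω) (Set.range w)) := Submodule.subset_span (Set.mem_insert _ _)
  have hok : Ok ((Submodule.span K (insert (1 : Ω) (Set.range w)) ^ δ : Submodule K Ω) : Set Ω) δ
      (Finset.univ : Finset κ) (MvPolynomial.aeval (Sum.elim (fun a => MvPolynomial.C (w a)) MvPolynomial.X) P) := by
    refine ok_aeval h1 ?_ hP
    rintro (j | i)
    · exact ok_C (by rw [pow_one]; exact Submodule.subset_span (Set.mem_insert_of_mem _ ⟨j, rfl⟩))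
    · exact ok_X h1 (Finset.mem_univ i)
  refine ⟨_, hne, hok.2.1, hok.2.2, ?_⟩
  have h2 : ((MvPolynomial.aeval l : MvPolynomial κ Ω →ₐ[Ω] Ω).restrictScalars K).comp
      (MvPolynomial.aeval (Sum.elim (fun a => MvPolynomial.C (w a)) MvPolynomial.X)) =
      (MvPolynomial.aeval (Sum.elim w l) : MvPolynomial (υ ⊕ κ) K →ₐ[K] Ω) := by
    refine MvPolynomial.algHom_ext fun i => ?_
    rcases i with j | i
    · simp
    · simp
  have h3 := DFunLike.congr_fun h2 P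
  rw [AlgHom.comp_apply, hP0] at h3
  exact h3

theorem relKA_badW {υ κ : Type} [Fintype κ] {δ : ℕ} {w : υ → Ω} {x : κ → Ω} (h : RelKA δ w x) :
    BadW δ δ (δ + δ) w x := by
  obtain ⟨K, h1, h2, y, hy, P, h3, h4, h5⟩ := h
  exact BadW.affine K h1 h2 hy (rel_of w y K P h3 h4 h5)

open Classical in
/-- tuples -/
theorem tup_badG {I σ : Type} [Fintype σ] (x : I → σ → Ω) (δ T Z Q e' : ℕ)
    (A : Finset I) (hA : A.card ≤ T)
    (H : ∀ w' : Fin Q → Ω, (A.filter fun n => BadW δ δ e' w' (x n)).card ≤ Z) (k : ℕ) :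
    ∀ (e : ℕ) (υ : Type) [Fintype υ] (w : υ → Ω), Fintype.card υ + k * Fintype.card σ ≤ Q → e + k * δ ≤ e' →
    ((Fintype.piFinset fun _ : Fin k => A).filter fun t =>
      BadW δ δ e w (fun p : Fin k × σ => x (t p.1) p.2)).card ≤ k * Z * T ^ (k - 1) := by
  induction k with
  | zero =>
    intro e υ _ w _ _
    rw [Finset.filter_false_of_mem, Finset.card_empty]
    · exact Nat.zero_le _
    · rintro g _ ⟨K, -, -, P, hP0, -, -, hPv⟩
      obtain ⟨a, rfl⟩ : ∃ a, P = MvPolynomial.C a := ⟨_, MvPolynomial.eq_C_of_isEmpty P⟩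
      rw [MvPolynomial.aeval_C] at hPv
      apply hP0
      have : a = 0 := hPv
      rw [this, map_zero]
  | succ k ih =>
    intro e υ _ w hυ he
    have hek : e + k * δ ≤ e' := by
      have : (k + 1) * δ = k * δ + δ := by ring
      omega
    have heδ : e + δ ≤ e' := by
      have : (k + 1) * δ = k * δ + δ := by ring
      have h0 : 0 ≤ k * δ := Nat.zero_le _
      omega
    have hυk : Fintype.card υ + k * Fintype.card σ ≤ Q := by
      have : (k + 1) * Fintype.card σ = k * Fintype.card σ + Fintype.card σ := by ring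
      omega
    set y : (Fin k → I) → Fin k × σ → Ω := fun t p => x (t p.1) p.2 with hy
    set bad₁ := (Fintype.piFinset fun _ : Fin k => A).filter fun t => BadW δ δ e w (y t) with hbad₁
    set bad₂ : (Fin k → I) → Finset I := fun t => A.filter fun n =>
      BadW δ δ (e + δ) (Sum.elim w (y t)) (x n) with hbad₂
    have hsub : ((Fintype.piFinset fun _ : Fin (k + 1) => A).filter fun t =>
        BadW δ δ e w (fun p : Fin (k + 1) × σ => x (t p.1) p.2)) ⊆
        ((A ×ˢ bad₁).image fun p => (Fin.cons p.1 p.2 : Fin (k + 1) → I)) ∪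
        (((Fintype.piFinset fun _ : Fin k => A).sigma bad₂).image
          fun p => (Fin.cons p.2 p.1 : Fin (k + 1) → I)) := by
      intro t ht
      obtain ⟨ht1, ht2⟩ := Finset.mem_filter.1 ht
      rw [Fintype.mem_piFinset] at ht1
      set en : Fin k × σ ⊕ σ ≃ Fin (k + 1) × σ :=
        { toFun := Sum.elim (fun p => (p.1.succ, p.2)) (fun s => (0, s))
          invFun := fun p => Fin.cases (Sum.inr p.2) (fun i => Sum.inl (i, p.2)) p.1
          left_inv := by rintro (⟨i, s⟩ | s) <;> simp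
          right_inv := by
            rintro ⟨i, s⟩
            refine Fin.cases ?_ (fun i => ?_) i <;> simp } with hen
      have h4 : (fun j => x (t (en j).1) (en j).2) = Sum.elim (y fun i => t i.succ) (x (t 0)) := by
        funext j
        rcases j with ⟨i, s⟩ | s
        · rfl
        · rfl
      have h3 : BadW δ δ e w (Sum.elim (y fun i => t i.succ) (x (t 0))) := by
        rw [← h4]
        exact BadW.reindex en ht2
      have htail : (fun i => t i.succ) ∈ Fintype.piFinset fun _ : Fin k => A := by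
        rw [Fintype.mem_piFinset]
        exact fun i => ht1 i.succ
      rcases h3.split with h5 | h5
      · refine Finset.mem_union_left _ (Finset.mem_image.2 ⟨(t 0, fun i => t i.succ), ?_, ?_⟩)
        · exact Finset.mem_product.2 ⟨ht1 0, Finset.mem_filter.2 ⟨htail, h5⟩⟩
        · funext i
          refine Fin.cases ?_ (fun i => ?_) i <;> simp
      · refine Finset.mem_union_right _ (Finset.mem_image.2 ⟨⟨fun i => t i.succ, t 0⟩, ?_, ?_⟩)
        · exact Finset.mem_sigma.2 ⟨htail, Finset.mem_filter.2 ⟨ht1 0, h5⟩⟩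
        · funext i
          refine Fin.cases ?_ (fun i => ?_) i <;> simp
    have hb1 : bad₁.card ≤ k * Z * T ^ (k - 1) := ih e υ w hυk hek
    have hb2 : ∀ t, (bad₂ t).card ≤ Z := by
      intro t
      obtain ⟨w', hw'⟩ := exists_fin (Sum.elim w (y t)) (Q := Q) (by
        rw [Fintype.card_sum, Fintype.card_prod, Fintype.card_fin]
        exact hυk)
      refine (Finset.card_le_card fun n hn => ?_).trans (H w')
      obtain ⟨hn1, hn2⟩ := Finset.mem_filter.1 hn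
      exact Finset.mem_filter.2 ⟨hn1, BadW.mono_e (hn2.mono hw') heδ⟩
    refine (Finset.card_le_card hsub).trans ((Finset.card_union_le _ _).trans
      ((add_le_add Finset.card_image_le Finset.card_image_le).trans ?_))
    rw [Finset.card_product, Finset.card_sigma]
    have h6 : ∑ t ∈ Fintype.piFinset (fun _ : Fin k => A), (bad₂ t).card ≤ T ^ k * Z := by
      refine (Finset.sum_le_card_nsmul _ _ _ fun g _ => hb2 g).trans ?_
      rw [smul_eq_mul, Fintype.card_piFinset]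
      simp only [Finset.prod_const, Finset.card_univ, Fintype.card_fin]
      exact Nat.mul_le_mul_right _ (Nat.pow_le_pow_left hA _)
    have h7 : A.card * bad₁.card ≤ k * Z * T ^ k := by
      rcases Nat.eq_zero_or_pos k with rfl | hk
      · have h8 : bad₁.card = 0 := by
          have h9 := hb1
          simp only [zero_mul, Nat.le_zero] at h9
          exact h9
        rw [h8, mul_zero]
        exact Nat.zero_le _
      · calc A.card * bad₁.card ≤ T * (k * Z * T ^ (k - 1)) := Nat.mul_le_mul hA hb1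
          _ = k * Z * (T ^ (k - 1) * T) := by ring
          _ = _ := by rw [← pow_succ, Nat.sub_add_cancel hk]
    refine (add_le_add h7 h6).trans (le_of_eq ?_)
    rw [Nat.add_sub_cancel]
    ring


open Classical in
/-- **From points to tuples** -/
theorem gen_tuplesG {I σ : Type} [Fintype σ] (x : I → σ → Ω) (A : ℕ → Finset I) (M₀ C₀ : ℕ)
    (hA : ∀ T : ℕ, 1 ≤ T → ((A T).card : ℝ) ≤ C₀ * (T : ℝ) ^ M₀) (k q : ℕ)
    (hbad : ∀ Q : ℕ, ∃ (E : ℕ → ℕ) (C₁ : ℕ), PB E ∧ ∀ (δ : ℕ) (w : Fin Q → Ω) (T : ℕ), 1 ≤ T →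
      (((A T).filter fun n => RelK δ w (x n)).card : ℝ) ≤ C₁ * (T : ℝ) ^ ((M₀ : ℝ) - 1 / (E δ + 1))) :
    ∃ C : ℕ, ∀ (δ : ℕ) (w : Fin q → Ω) (T : ℕ), 1 ≤ T →
      (((Fintype.piFinset fun _ : Fin k => A T).filter fun t =>
        BadW δ δ (δ + δ) w (fun p : Fin k × σ => x (t p.1) p.2)).card : ℝ) ≤
      C * (T : ℝ) ^ (((k * M₀ : ℕ) : ℝ) - 1 / ((δ : ℝ) + 2) ^ C) := by
  set Q := q + k * Fintype.card σ with hQ
  obtain ⟨E₀, C₁, hE₀p, hE₀⟩ := hbad Q
  set E : ℕ → ℕ := fun δ => E₀ ((k + 3) * δ) + 1 with hEdef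
  have hEp : PB E := (hE₀p.comp ((PB.const (k + 3)).mul PB.id)).add (PB.const 1)
  obtain ⟨c, hc⟩ := hEp
  refine ⟨k * C₁ * C₀ ^ (k - 1) + c, fun δ w T hT => ?_⟩
  set C := k * C₁ * C₀ ^ (k - 1) + c with hC
  have hT1 : (1 : ℝ) ≤ T := by exact_mod_cast hT
  have hT0 : (0 : ℝ) < T := by linarith
  set Z : ℝ := C₁ * (T : ℝ) ^ ((M₀ : ℝ) - 1 / E δ) with hZ
  have hZ0 : 0 ≤ Z := by positivity
  set N : ℕ := C₀ * T ^ M₀ with hN
  have hAN : (A T).card ≤ N := by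
    have h1 := hA T hT
    exact_mod_cast h1
  have h1 := tup_badG x δ N ⌊Z⌋₊ Q ((k + 2) * δ) (A T) hAN (fun w' => by
      apply Nat.le_floor
      have h2 := hE₀ ((k + 3) * δ) w' T hT
      have h3 : (((E₀ ((k + 3) * δ) : ℕ) : ℝ) + 1) = E δ := by rw [hEdef]; push_cast; ring
      rw [h3] at h2
      refine le_trans ?_ h2
      refine Nat.cast_le.2 (Finset.card_le_card fun n hn => ?_)
      obtain ⟨h4, h5⟩ := Finset.mem_filter.1 hn
      refine Finset.mem_filter.2 ⟨h4, badW_relK h5 ?_ (le_of_eq (by ring))⟩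
      exact Nat.le_mul_of_pos_left δ (by omega)) k (δ + δ) (Fin q) w
    (by rw [Fintype.card_fin]) (le_of_eq (by ring))
  have h2 : (((Fintype.piFinset fun _ : Fin k => A T).filter fun t =>
        BadW δ δ (δ + δ) w (fun p : Fin k × σ => x (t p.1) p.2)).card : ℝ) ≤ k * ⌊Z⌋₊ * (N : ℝ) ^ (k - 1) := by
    exact_mod_cast h1
  refine h2.trans ?_
  rcases Nat.eq_zero_or_pos k with hk | hk
  · subst hk
    simp only [Nat.cast_zero, zero_mul]
    positivity
  have h3 : (⌊Z⌋₊ : ℝ) ≤ Z := Nat.floor_le hZ0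
  have hE1 : (1 : ℝ) ≤ E δ := by
    have : 1 ≤ E δ := Nat.le_add_left _ _
    exact_mod_cast this
  have hEp : (E δ : ℝ) ≤ ((δ : ℝ) + 2) ^ C := by
    have h4 : E δ ≤ (δ + 2) ^ C := (hc δ).trans (Nat.pow_le_pow_right (by omega) (by omega))
    exact_mod_cast h4
  have h6 : 1 / ((δ : ℝ) + 2) ^ C ≤ 1 / (E δ : ℝ) := one_div_le_one_div_of_le (by linarith) hEp
  have hN' : (N : ℝ) = C₀ * (T : ℝ) ^ M₀ := by rw [hN]; push_cast; ring
  calc (k : ℝ) * ⌊Z⌋₊ * (N : ℝ) ^ (k - 1) ≤ k * Z * (N : ℝ) ^ (k - 1) := by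
        gcongr
    _ = (k * C₁ * C₀ ^ (k - 1) : ℝ) * ((T : ℝ) ^ ((M₀ : ℝ) - 1 / E δ) * ((T : ℝ) ^ (M₀ * (k - 1)))) := by
        rw [hZ, hN', mul_pow, ← pow_mul]; ring
    _ = (k * C₁ * C₀ ^ (k - 1) : ℝ) * (T : ℝ) ^ (((k * M₀ : ℕ) : ℝ) - 1 / E δ) := by
        rw [← Real.rpow_natCast T, ← Real.rpow_add hT0]
        congr 2
        obtain ⟨k', rfl⟩ : ∃ k', k = k' + 1 := ⟨k - 1, by omega⟩
        rw [Nat.add_sub_cancel]
        push_cast
        ring
    _ ≤ C * (T : ℝ) ^ (((k * M₀ : ℕ) : ℝ) - 1 / ((δ : ℝ) + 2) ^ C) := by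
        refine mul_le_mul ?_ (Real.rpow_le_rpow_of_exponent_le hT1 (by linarith)) (by positivity)
          (Nat.cast_nonneg _)
        rw [hC]
        push_cast
        have : (0 : ℝ) ≤ c := Nat.cast_nonneg _
        linarith

end

section

open Pool.Agent.Y113 Pool.Agent.Y916 Pool.Agent.Y916.AW Pool.Agent.Y916.Al Pool.Agent.Y916.Sl

/-- windows, positive shifts -/
theorem hwinB_exp {σ : Type} [Fintype σ] [DecidableEq σ] (val : ℂ → ℕ → σ → ℂ) (hval : InpE val) (x : ℂ → σ → ℂ)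
    (Dm : ℂ → Prop) (m e τ E₁ : ℕ) (hlink : LinkA val x Dm m e τ E₁) {r : ℕ} (θ : Fin r → ℕ) (hθ : Function.Injective θ)
    (A Q : ℕ) :
    ∃ E : ℕ → ℕ, PB E ∧ ∀ (δ : ℕ) (w : Fin Q → ℂ) (H : ℕ) (K₁ : IntermediateField ℚ ℂ)
      (ξ : K₁) (X : ℝ), FiniteDimensional ℚ K₁ → finrank ℚ K₁ ≤ m → Al.Pt K₁ ξ X → ((H : ℝ) + 2) ^ E δ ≤ ‖(ξ : ℂ)‖ →
      X ≤ ‖(ξ : ℂ)‖ ^ A → ∀ S : Finset ℕ, (∀ g ∈ S, 1 ≤ g ∧ g ≤ H ∧ (∀ j, Dm ((ξ : ℂ) + g + θ j)) ∧
        RelK δ w (fun p : Fin r × σ => x ((ξ : ℂ) + g + θ p.1) p.2)) → S.card ≤ r * (Q + τ) := by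
  classical
  obtain ⟨Ev, hEvp, hEv⟩ := inpE_I hval m A
  obtain ⟨E₀', hE₀p, hE₀'⟩ := winF_exp Ev hEvp (σ := σ) r e (Q + τ) 1 1
  set mθ : ℕ := ∑ j, θ j with hmθ
  have hmj : ∀ j, θ j ≤ mθ := fun j => Finset.single_le_sum (f := θ) (fun _ _ => Nat.zero_le _) (Finset.mem_univ j)
  refine ⟨fun δ => (mθ + 2) * (E₀' δ + E₁) + 2,
    ((PB.const (mθ + 2)).mul (hE₀p.add (PB.const E₁))).add (PB.const 2), ?_⟩
  intro δ w H K₁ ξ X hK₁f hK₁d hPt hξ hXξ S hS
  have hE₀ := hE₀' δ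
  set E₀ := E₀' δ
  have hξ : ((H : ℝ) + 2) ^ ((mθ + 2) * (E₀ + E₁) + 2) ≤ ‖(ξ : ℂ)‖ := hξ
  set H' : ℕ := H + mθ with hH'
  have hH2 : H' + 2 ≤ (H + 2) ^ (mθ + 2) := by
    have h1 : mθ + 2 ≤ 2 ^ (mθ + 1) := by
      have := (Nat.lt_two_pow_self : mθ + 1 < 2 ^ (mθ + 1))
      omega
    have h2 : (mθ + 2) * (H + 2) ≤ (H + 2) ^ (mθ + 1) * (H + 2) :=
      Nat.mul_le_mul_right _ (h1.trans (Nat.pow_le_pow_left (by omega) _))
    have h3 : (H + 2) ^ (mθ + 2) = (H + 2) ^ (mθ + 1) * (H + 2) := by rw [← pow_succ]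
    rw [h3]
    nlinarith
  have hpow : (H' + 2) ^ (E₀ + E₁) ≤ (H + 2) ^ ((mθ + 2) * (E₀ + E₁) + 2) := by
    refine (Nat.pow_le_pow_left hH2 _).trans ?_
    rw [← pow_mul]
    exact Nat.pow_le_pow_right (by omega) (by omega)
  have hpR : (((H' + 2) ^ (E₀ + E₁) : ℕ) : ℝ) ≤ ‖(ξ : ℂ)‖ := by
    refine le_trans ?_ hξ
    exact_mod_cast hpow
  have hp1 : ∀ a, a ≤ E₀ + E₁ → (((H' + 2) ^ a : ℕ) : ℝ) ≤ ‖(ξ : ℂ)‖ := by
    intro a ha
    refine le_trans ?_ hpR
    exact_mod_cast Nat.pow_le_pow_right (by omega) ha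
  set i : PtI m A := ⟨K₁, ξ, X, hK₁f, hK₁d, hPt, hXξ⟩ with hi
  have hsize : (H' + 2) ^ E₀ ≤ i.size := Nat.le_floor (hp1 E₀ (by omega))
  obtain ⟨K, hKf, hKd, w₀, hlk⟩ := hlink K₁ ξ hK₁f hK₁d
  obtain ⟨Xs, hXs, hwin⟩ := hE₀ ℂ (PtI m A) PtI.size _ hEv H' i hsize (Fin Q ⊕ Fin τ) (Sum.elim w w₀) Finset.univ
    (by rw [Finset.card_univ, Fintype.card_sum, Fintype.card_fin, Fintype.card_fin]) (Om.Dom.univ _) K hKf hKd
  have hbad : ∀ g ∈ S, ∃ j : Fin r, g + θ j ∈ Xs := by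
    intro g hg
    obtain ⟨hg1, hgH, hgD, L, hLf, hLd, P, hPd, hPv, hP0⟩ := hS g hg
    by_contra hcon
    push Not at hcon
    have hinj : Function.Injective fun j => g + θ j := by
      intro i j hij
      have h1 : g + θ i = g + θ j := hij
      exact hθ (by omega)
    have hg1 : ∀ j, 1 ≤ g + θ j ∧ g + θ j ≤ H' ∧ g + θ j ∉ Xs := by
      intro j
      have := hmj j
      exact ⟨by omega, by omega, hcon j⟩
    have hx : ∀ p : Fin r × σ, ∃ a : K, a ≠ 0 ∧ x ((ξ : ℂ) + g + θ p.1) p.2 - a * val ξ (g + θ p.1) p.2 ∈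
        Submodule.span K (insert 1 (Set.range (Sum.elim w w₀))) := by
      rintro ⟨j, s⟩
      have h1 : (((g + θ j : ℕ) : ℝ) + 2) ^ E₁ ≤ ‖(ξ : ℂ)‖ := by
        refine le_trans ?_ (hp1 E₁ (by omega))
        have h2 : (g + θ j + 2) ^ E₁ ≤ (H' + 2) ^ E₁ := Nat.pow_le_pow_left (by have := (hg1 j).2.1; omega) _
        exact_mod_cast h2
      have h2 : (ξ : ℂ) + ((g + θ j : ℕ) : ℂ) = (ξ : ℂ) + g + θ j := by
        push_cast
        ring
      obtain ⟨a, ha, hax⟩ := hlk (g + θ j) (hg1 j).1 h1 (by rw [h2]; exact hgD j) s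
      refine ⟨a, ha, ?_⟩
      rw [h2] at hax
      refine Submodule.span_mono (Set.insert_subset_insert ?_) hax
      rintro _ ⟨i, rfl⟩
      exact ⟨Sum.inr i, rfl⟩
    have h9 := hwin (fun j => g + θ j) hinj hg1 (fun p : Fin r × σ => x ((ξ : ℂ) + g + θ p.1) p.2) hx
      L hLf hLd (fun p : Fin r × σ => x ((ξ : ℂ) + g + θ p.1) p.2) (fun p => ⟨1, one_ne_zero, by simp⟩)
      (MvPolynomial.rename (Sum.map Sum.inl id) P) ((MvPolynomial.totalDegree_rename_le _ _).trans hPd) (by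
        rw [MvPolynomial.aeval_rename, ← hPv]
        congr 2
        funext z
        rcases z with i | z <;> rfl)
    rw [MvPolynomial.aeval_rename] at h9
    apply hP0
    rw [← h9]
    congr 2
    funext z
    rcases z with i | z <;> rfl
  rcases S.eq_empty_or_nonempty with rfl | ⟨g0, hg0⟩
  · simp
  obtain ⟨j0, -⟩ := hbad g0 hg0
  have : Nonempty (Fin r) := ⟨j0⟩
  choose! j hj using hbad
  have h1 : S.card ≤ ((Finset.univ : Finset (Fin r)) ×ˢ Xs).card := by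
    refine Finset.card_le_card_of_injOn (fun g => (j g, g + θ (j g))) ?_ ?_
    · intro g hg
      rw [Finset.mem_coe, Finset.mem_product]
      exact ⟨Finset.mem_univ _, hj g hg⟩
    · intro g hg g' hg' hgg
      simp only [Prod.mk.injEq] at hgg
      have h2 := hgg.2
      rw [hgg.1] at h2
      omega
  rw [Finset.card_product, Finset.card_univ, Fintype.card_fin] at h1
  exact h1.trans (Nat.mul_le_mul_left _ hXs)

/-- translation of a point by an integer -/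
theorem pt_sub {K : IntermediateField ℚ ℂ} {ξ : K} {X : ℝ} (h : Al.Pt K ξ X) (c : ℕ) :
    Al.Pt K (ξ - (c : K)) ((1 + c) * X) := by
  obtain ⟨u, w, hu, hw, hw0, hx, hσ⟩ := h
  have hc : IsIntegral ℤ (c : K) := by
    have h1 : ((c : ℤ) : K) = (c : K) := by norm_cast
    rw [← h1, ← eq_intCast (algebraMap ℤ K)]
    exact isIntegral_algebraMap
  have hX0 : 0 ≤ X := (norm_nonneg _).trans (hσ (algebraMap K ℂ)).1
  refine ⟨u - c * w, w, hu.sub (hc.mul hw), hw, hw0, ?_, fun σ => ⟨?_, ?_⟩⟩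
  · rw [hx]
    field_simp
  · rw [map_sub, map_mul, map_natCast]
    refine (norm_sub_le _ _).trans ?_
    rw [norm_mul, Complex.norm_natCast]
    have h1 := (hσ σ).1
    have h2 : (c : ℝ) * ‖σ w‖ ≤ c * X := mul_le_mul_of_nonneg_left (hσ σ).2 (Nat.cast_nonneg c)
    linarith
  · refine (hσ σ).2.trans ?_
    have : 0 ≤ (c : ℝ) * X := by positivity
    linarith

/-- windows in both directions -/
theorem hwinS_exp {σ : Type} [Fintype σ] [DecidableEq σ] (val : ℂ → ℕ → σ → ℂ) (hval : InpE val) (x : ℂ → σ → ℂ)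
    (Dm : ℂ → Prop) (m e τ E₁ : ℕ) (hlink : LinkA val x Dm m e τ E₁) {r : ℕ} (θ : Fin r → ℕ) (hθ : Function.Injective θ)
    (A Q : ℕ) :
    ∃ E : ℕ → ℕ, PB E ∧ ∀ (δ : ℕ) (w : Fin Q → ℂ) (H : ℕ) (K₁ : IntermediateField ℚ ℂ)
      (ξ : K₁) (X : ℝ), FiniteDimensional ℚ K₁ → finrank ℚ K₁ ≤ m → Al.Pt K₁ ξ X → ((H : ℝ) + 2) ^ E δ ≤ ‖(ξ : ℂ)‖ →
      X ≤ ‖(ξ : ℂ)‖ ^ A → ∀ ε : ℤ, (ε = 1 ∨ ε = -1) → ∀ S : Finset ℕ, (∀ g ∈ S, g ≤ H ∧
        (∀ j, Dm ((ξ : ℂ) - ε * g + θ j)) ∧ RelK δ w (fun p : Fin r × σ => x ((ξ : ℂ) - ε * g + θ p.1) p.2)) →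
      S.card ≤ r * (Q + τ) := by
  classical
  obtain ⟨E', hEp, hE'⟩ := hwinB_exp val hval x Dm m e τ E₁ hlink θ hθ (2 * (A + 1)) Q
  refine ⟨fun δ => 2 * E' δ + 3, ((PB.const 2).mul hEp).add (PB.const 3),
    fun δ w H K₁ ξ X hK₁f hK₁d hPt hξ hXξ ε hε S hS => ?_⟩
  have hE := hE' δ
  set E := E' δ
  have hξ : ((H : ℝ) + 2) ^ (2 * E + 3) ≤ ‖(ξ : ℂ)‖ := hξ
  set c : ℕ := if ε = 1 then H + 1 else 1 with hc
  set f : ℕ → ℕ := fun g => if ε = 1 then H + 1 - g else g + 1 with hf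
  have hcH : c ≤ H + 1 := by
    rw [hc]
    split_ifs <;> omega
  have hH0 : (0 : ℝ) ≤ H := Nat.cast_nonneg H
  have hH1 : (1 : ℝ) ≤ (H : ℝ) + 2 := by linarith
  have hcR : (c : ℝ) ≤ (H : ℝ) + 1 := by exact_mod_cast hcH
  have hξ3 : ((H : ℝ) + 2) ^ 3 ≤ ‖(ξ : ℂ)‖ := (pow_le_pow_right₀ hH1 (by omega)).trans hξ
  have hξ8 : 8 ≤ ‖(ξ : ℂ)‖ := by
    refine le_trans ?_ hξ3
    calc (8 : ℝ) = 2 ^ 3 := by norm_num
      _ ≤ _ := pow_le_pow_left₀ (by norm_num) (by linarith) 3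
  have h4H : 4 * ((H : ℝ) + 2) ≤ ‖(ξ : ℂ)‖ := by
    refine le_trans ?_ hξ3
    have h1 : (4 : ℝ) ≤ ((H : ℝ) + 2) ^ 2 := by nlinarith
    calc 4 * ((H : ℝ) + 2) ≤ ((H : ℝ) + 2) ^ 2 * ((H : ℝ) + 2) := mul_le_mul_of_nonneg_right h1 (by linarith)
      _ = _ := by ring
  have hcast : ((ξ - (c : K₁) : K₁) : ℂ) = (ξ : ℂ) - c := by push_cast; ring
  have hlow : ‖(ξ : ℂ)‖ / 2 ≤ ‖((ξ - (c : K₁) : K₁) : ℂ)‖ := by
    rw [hcast]
    have h1 := norm_sub_norm_le (ξ : ℂ) (c : ℂ)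
    rw [Complex.norm_natCast] at h1
    linarith
  have hbig : (((H + 1 : ℕ) : ℝ) + 2) ^ E ≤ ‖((ξ - (c : K₁) : K₁) : ℂ)‖ := by
    refine le_trans ?_ hlow
    rw [le_div_iff₀ (by norm_num)]
    refine le_trans ?_ hξ
    have h1 : ((H + 1 : ℕ) : ℝ) + 2 ≤ ((H : ℝ) + 2) ^ 2 := by
      push_cast
      nlinarith
    calc (((H + 1 : ℕ) : ℝ) + 2) ^ E * 2 ≤ (((H : ℝ) + 2) ^ 2) ^ E * ((H : ℝ) + 2) ^ 3 := by
          refine mul_le_mul (pow_le_pow_left₀ (by positivity) h1 _) ?_ (by norm_num) (by positivity)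
          calc (2 : ℝ) ≤ (H : ℝ) + 2 := by linarith
            _ ≤ _ := le_self_pow₀ hH1 (by norm_num)
      _ = _ := by rw [← pow_mul, ← pow_add]
  have hX0 : 0 ≤ X := by
    obtain ⟨u, w, -, -, -, -, hσ⟩ := hPt
    exact (norm_nonneg _).trans (hσ (algebraMap K₁ ℂ)).1
  have hX' : (1 + (c : ℝ)) * X ≤ ‖((ξ - (c : K₁) : K₁) : ℂ)‖ ^ (2 * (A + 1)) := by
    have h1 : (1 + (c : ℝ)) * X ≤ ‖(ξ : ℂ)‖ * ‖(ξ : ℂ)‖ ^ A := by
      refine mul_le_mul ?_ hXξ hX0 (by linarith)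
      linarith
    refine h1.trans ?_
    rw [pow_mul, ← pow_succ']
    refine pow_le_pow_left₀ (by linarith) ?_ _
    have h2 : 0 ≤ ‖(ξ : ℂ)‖ / 2 := by linarith
    calc ‖(ξ : ℂ)‖ ≤ (‖(ξ : ℂ)‖ / 2) ^ 2 := by nlinarith
      _ ≤ _ := pow_le_pow_left₀ h2 hlow 2
  have hfc : ∀ g, g ≤ H → (f g : ℂ) - c = -(ε : ℂ) * g := by
    intro g hg
    rcases hε with rfl | rfl
    · have h1 : f g = H + 1 - g := if_pos rfl
      have h2 : c = H + 1 := if_pos rfl
      rw [h1, h2, Nat.cast_sub (by omega)]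
      push_cast
      ring
    · have h1 : f g = g + 1 := if_neg (by norm_num)
      have h2 : c = 1 := if_neg (by norm_num)
      rw [h1, h2]
      push_cast
      ring
  have hfb : ∀ g, g ≤ H → 1 ≤ f g ∧ f g ≤ H + 1 := by
    intro g hg
    rw [hf]
    simp only
    split_ifs <;> omega
  have hfinj : Set.InjOn f (S : Set ℕ) := by
    intro g hg g' hg' h
    have h1 := (hS g hg).1
    have h2 := (hS g' hg').1
    have h3 : f g = f g' := h
    rw [hf] at h3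
    simp only at h3
    split_ifs at h3 <;> omega
  rw [← Finset.card_image_of_injOn hfinj]
  refine hE w (H + 1) K₁ (ξ - (c : K₁)) ((1 + c) * X) hK₁f hK₁d (pt_sub hPt c) hbig hX' (S.image f) ?_
  intro g' hg'
  obtain ⟨g, hg, rfl⟩ := Finset.mem_image.1 hg'
  obtain ⟨hgH, hgD, hgR⟩ := hS g hg
  have h1 : ((ξ - (c : K₁) : K₁) : ℂ) + (f g : ℂ) = (ξ : ℂ) - ε * g := by
    rw [hcast]
    linear_combination hfc g hgH
  refine ⟨(hfb g hgH).1, (hfb g hgH).2, fun j => ?_, ?_⟩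
  · rw [h1]
    exact hgD j
  · rw [h1]
    exact hgR

open Classical in
/-- few bad points in short windows of a line in the complex plane give few bad points -/
theorem line_exp (M E : ℕ) (T : ℕ) (hT : 1 ≤ T) (z : ℂ) (hz : ‖z‖ ≤ T) (B : ℤ → Prop) (hB : ∀ (ε : ℤ), (ε = 1 ∨ ε = -1) → ∀ (H : ℕ) (t : ℤ), |t| ≤ 10 * T → (T : ℝ) ≤ ‖z + t‖ ^ 4 →
      ((H : ℝ) + 2) ^ E ≤ ‖z + t‖ → ∀ S : Finset ℕ, (∀ g ∈ S, g ≤ H ∧ B (t - ε * g)) → S.card ≤ M) :
    (((Finset.Icc (-(T : ℤ)) T).filter B).card : ℝ) ≤ (64 * M + 71) * (T : ℝ) ^ (1 - 1 / (2 * ((E : ℝ) + 2))) := by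
  set c : ℝ := 1 / (2 * ((E : ℝ) + 2)) with hc
  have hE0 : (0 : ℝ) ≤ E := Nat.cast_nonneg _
  have hcpos : 0 < c := by positivity
  have hc2 : c ≤ 1 / 2 := by
    rw [hc]
    apply one_div_le_one_div_of_le (by norm_num)
    linarith
  have hc1 : c < 1 := by linarith
  have hT1 : (1 : ℝ) ≤ T := by exact_mod_cast hT
  have hT0 : (0 : ℝ) < T := by linarith
  set t₀ : ℤ := -round z.re with ht₀
  have hre : |z.re + t₀| ≤ 1 / 2 := by
    have h1 := abs_sub_round z.re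
    rw [ht₀]
    push_cast
    exact h1
  have ht₀T : |t₀| ≤ T + 1 := by
    have h1 : |z.re| ≤ T := (Complex.abs_re_le_norm z).trans hz
    have h2 : |(t₀ : ℝ)| ≤ T + 1 / 2 := by
      have h3 : (t₀ : ℝ) = (z.re + t₀) - z.re := by ring
      rw [h3]
      refine (abs_sub _ _).trans ?_
      linarith
    have h3 : |(t₀ : ℝ)| < (T : ℝ) + 1 + 1 := by linarith
    have h4 : |t₀| < (T : ℤ) + 1 + 1 := by
      have h5 : ((|t₀| : ℤ) : ℝ) < (((T : ℤ) + 1 + 1 : ℤ) : ℝ) := by push_cast; exact h3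
      exact_mod_cast h5
    omega
  -- size of `z + t`
  have hsize : ∀ (ε : ℤ), (ε = 1 ∨ ε = -1) → ∀ s : ℕ, 1 ≤ s → (s : ℝ) / 2 ≤ ‖z + ((t₀ + ε * s : ℤ) : ℂ)‖ := by
    intro ε hε s hs
    have hs1 : (1 : ℝ) ≤ s := by exact_mod_cast hs
    have h1 : |(z + ((t₀ + ε * s : ℤ) : ℂ)).re| ≤ ‖z + ((t₀ + ε * s : ℤ) : ℂ)‖ := Complex.abs_re_le_norm _
    have h2 : (z + ((t₀ + ε * s : ℤ) : ℂ)).re = (z.re + t₀) + ε * s := by
      simp only [Complex.add_re, Complex.intCast_re]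
      push_cast
      ring
    rw [h2] at h1
    refine le_trans ?_ h1
    have h3 : |(ε : ℝ) * s| = s := by
      rcases hε with rfl | rfl
      · simp
      · simp
    have h4 : |(ε : ℝ) * s| ≤ |(z.re + t₀) + ε * s| + |z.re + t₀| := by
      have h5 : (ε : ℝ) * s = ((z.re + t₀) + ε * s) - (z.re + t₀) := by ring
      calc |(ε : ℝ) * s| = |((z.re + t₀) + ε * s) - (z.re + t₀)| := by rw [← h5]
        _ ≤ _ := abs_sub _ _
    rw [h3] at h4
    linarith
  obtain ⟨Bε, hBε⟩ : ∃ Bε : ℤ → ℕ → Prop, ∀ ε s, Bε ε s ↔ (B (t₀ + ε * s) ∧ T ≤ s ^ 2 ∧ s ≤ 4 * T) :=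
    ⟨_, fun _ _ => Iff.rfl⟩
  have hcount : ∀ ε : ℤ, (ε = 1 ∨ ε = -1) → (((Finset.Icc 2 (4 * T)).filter (Bε ε)).card : ℝ) ≤
      8 * (M + 1) * 4 * (T : ℝ) ^ (1 - c) := by
    intro ε hε
    have key : ∀ (H s : ℕ), (H + 2) ^ (E + 2) ≤ s → ∀ S : Finset ℕ, (∀ g ∈ S, g ≤ H ∧ Bε ε (s - g)) → S.card ≤ M := by
      intro H s hHs S hS
      rcases S.eq_empty_or_nonempty with rfl | ⟨g₀, hg₀⟩
      · simp
      obtain ⟨hg₀H, hg₀'⟩ := hS g₀ hg₀
      obtain ⟨-, hg₀1, hg₀2⟩ := (hBε _ _).1 hg₀'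
      have hH2 : (H + 2) ^ 2 ≤ s := (Nat.pow_le_pow_right (by omega) (by omega)).trans hHs
      have hHs' : 2 * H + 4 ≤ s := by nlinarith
      have hs1 : 1 ≤ s := by omega
      have hs8 : s ≤ 8 * T := by omega
      refine hB ε hε H (t₀ + ε * s) ?_ ?_ ?_ S ?_
      · have h2 : |ε * (s : ℤ)| = s := by
          rcases hε with rfl | rfl <;> simp
        calc |t₀ + ε * s| ≤ |t₀| + |ε * (s : ℤ)| := abs_add_le _ _
          _ ≤ (T + 1) + 8 * T := by
              rw [h2]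
              have : (s : ℤ) ≤ 8 * T := by exact_mod_cast hs8
              omega
          _ ≤ 10 * T := by
              have : (1 : ℤ) ≤ T := by exact_mod_cast hT
              omega
      · have h2 := hsize ε hε s hs1
        have h3 : (T : ℝ) ≤ (s : ℝ) ^ 2 := by
          have h4 : T ≤ s ^ 2 := hg₀1.trans (Nat.pow_le_pow_left (Nat.sub_le _ _) _)
          exact_mod_cast h4
        have h4 : (4 : ℝ) ≤ s := by
          have : 4 ≤ s := by omega
          exact_mod_cast this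
        calc (T : ℝ) ≤ (s : ℝ) ^ 2 := h3
          _ ≤ ((s : ℝ) / 2) ^ 4 := by
              have h5 : ((s : ℝ) / 2) ^ 4 = (s : ℝ) ^ 2 * ((s : ℝ) ^ 2 / 16) := by ring
              rw [h5]
              refine le_mul_of_one_le_right (by positivity) ?_
              rw [le_div_iff₀ (by norm_num)]
              nlinarith
          _ ≤ _ := pow_le_pow_left₀ (by positivity) h2 4
      · have h2 := hsize ε hε s hs1
        refine le_trans ?_ h2
        rw [le_div_iff₀ (by norm_num)]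
        have h3 : (H + 2) ^ E * 2 ≤ s := by
          calc (H + 2) ^ E * 2 ≤ (H + 2) ^ E * (H + 2) ^ 2 := by
                refine Nat.mul_le_mul_left _ ?_
                nlinarith
            _ = (H + 2) ^ (E + 2) := by rw [pow_add]
            _ ≤ s := hHs
        exact_mod_cast h3
      · intro g hg
        obtain ⟨hgH, hgB'⟩ := hS g hg
        obtain ⟨hgB, -, -⟩ := (hBε _ _).1 hgB'
        refine ⟨hgH, ?_⟩
        have h2 : t₀ + ε * s - ε * g = t₀ + ε * ((s - g : ℕ) : ℤ) := by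
          rw [Nat.cast_sub (by omega)]
          ring
        rw [h2]
        exact hgB
    have h1 := count_win M (E + 2) (4 * T) (by omega) (by omega) ((Finset.Icc 2 (4 * T)).filter (Bε ε))
      (fun n hn => by
        have := Finset.mem_Icc.1 (Finset.mem_filter.1 hn).1
        omega) (fun H n hn S hSB hS => by
        have h2 := key H (n + H) (by omega) (S.image fun s => n + H - s) (fun g hg => by
          obtain ⟨s, hs, rfl⟩ := Finset.mem_image.1 hg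
          have h3 := hS s hs
          refine ⟨by omega, ?_⟩
          have h4 : n + H - (n + H - s) = s := by omega
          rw [h4]
          exact (Finset.mem_filter.1 (hSB hs)).2)
        rwa [Finset.card_image_of_injOn] at h2
        intro s hs s' hs' h
        have h3 := hS s hs
        have h4 := hS s' hs'
        simp only at h
        omega)
    refine h1.trans ?_
    rw [mul_assoc (8 * ((M : ℝ) + 1))]
    refine mul_le_mul_of_nonneg_left ?_ (by positivity)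
    have h5 : (1 : ℝ) - 1 / (2 * ((E + 2 : ℕ) : ℝ)) = 1 - c := by rw [hc]; push_cast; ring
    rw [h5]
    push_cast
    rw [Real.mul_rpow (by norm_num) hT0.le]
    refine mul_le_mul_of_nonneg_right ?_ (by positivity)
    calc (4 : ℝ) ^ (1 - c) ≤ 4 ^ (1 : ℝ) := Real.rpow_le_rpow_of_exponent_le (by norm_num) (by linarith)
      _ = 4 := Real.rpow_one 4
  set ρ : ℕ := Nat.sqrt T + 1 with hρ
  have hsub : (Finset.Icc (-(T : ℤ)) T).filter B ⊆
      (Finset.Icc (t₀ - ρ) (t₀ + ρ)) ∪ ((((Finset.Icc 2 (4 * T)).filter (Bε 1)).image fun s : ℕ => t₀ + 1 * (s : ℤ)) ∪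
      (((Finset.Icc 2 (4 * T)).filter (Bε (-1))).image fun s : ℕ => t₀ + (-1) * (s : ℤ))) := by
    intro n hn
    obtain ⟨hn1, hn2⟩ := Finset.mem_filter.1 hn
    rw [Finset.mem_Icc] at hn1
    by_cases hsmall : |n - t₀| ≤ ρ
    · refine Finset.mem_union_left _ (Finset.mem_Icc.2 ?_)
      rw [abs_le] at hsmall
      constructor <;> linarith [hsmall.1, hsmall.2]
    · refine Finset.mem_union_right _ ?_
      push Not at hsmall
      rw [Int.abs_eq_natAbs] at hsmall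
      have hTZ : (1 : ℤ) ≤ T := by exact_mod_cast hT
      have hs4 : (n - t₀).natAbs ≤ 4 * T := by
        have h1 := abs_le.1 ht₀T
        omega
      have hsρ : ρ < (n - t₀).natAbs := by omega
      have hsT : T ≤ (n - t₀).natAbs ^ 2 := by
        have h2 : T < ρ * ρ := by
          rw [hρ]
          exact Nat.lt_succ_sqrt T
        nlinarith
      have hs2 : 2 ≤ (n - t₀).natAbs := by omega
      rcases le_total 0 (n - t₀) with h0 | h0
      · have h1 : t₀ + 1 * ((n - t₀).natAbs : ℤ) = n := by omega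
        refine Finset.mem_union_left _ (Finset.mem_image.2 ⟨(n - t₀).natAbs, Finset.mem_filter.2
          ⟨Finset.mem_Icc.2 ⟨hs2, hs4⟩, (hBε _ _).2 ⟨?_, hsT, hs4⟩⟩, h1⟩)
        rw [h1]; exact hn2
      · have h1 : t₀ + (-1) * ((n - t₀).natAbs : ℤ) = n := by omega
        refine Finset.mem_union_right _ (Finset.mem_image.2 ⟨(n - t₀).natAbs, Finset.mem_filter.2
          ⟨Finset.mem_Icc.2 ⟨hs2, hs4⟩, (hBε _ _).2 ⟨?_, hsT, hs4⟩⟩, h1⟩)
        rw [h1]; exact hn2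
  have hcard : (((Finset.Icc (-(T : ℤ)) T).filter B).card : ℝ) ≤ ((2 * ρ + 1 : ℕ) : ℝ) +
      ((((Finset.Icc 2 (4 * T)).filter (Bε 1)).card : ℝ) + (((Finset.Icc 2 (4 * T)).filter (Bε (-1))).card : ℝ)) := by
    have h1 : ((Finset.Icc (-(T : ℤ)) T).filter B).card ≤ (2 * ρ + 1) +
        (((Finset.Icc 2 (4 * T)).filter (Bε 1)).card + ((Finset.Icc 2 (4 * T)).filter (Bε (-1))).card) := by
      refine (Finset.card_le_card hsub).trans ((Finset.card_union_le _ _).trans (add_le_add ?_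
        ((Finset.card_union_le _ _).trans (add_le_add Finset.card_image_le Finset.card_image_le))))
      rw [Int.card_Icc]
      omega
    exact_mod_cast h1
  have hhalf : (T : ℝ) ^ (1 / 2 : ℝ) ≤ (T : ℝ) ^ (1 - c) :=
    Real.rpow_le_rpow_of_exponent_le hT1 (by linarith)
  have hTc : (1 : ℝ) ≤ (T : ℝ) ^ (1 - c) := Real.one_le_rpow hT1 (by linarith)
  have hρb : ((2 * ρ + 1 : ℕ) : ℝ) ≤ 7 * (T : ℝ) ^ (1 - c) := by
    have h1 : ((Nat.sqrt T : ℕ) : ℝ) ≤ (T : ℝ) ^ (1 / 2 : ℝ) := by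
      rw [← Real.sqrt_eq_rpow]
      refine Real.le_sqrt_of_sq_le ?_
      have h2 : Nat.sqrt T ^ 2 ≤ T := by rw [pow_two]; exact Nat.sqrt_le T
      exact_mod_cast h2
    rw [hρ]
    push_cast
    linarith
  have h1 := hcount 1 (Or.inl rfl)
  have h2 := hcount (-1) (Or.inr rfl)
  refine hcard.trans ?_
  have h3 : ((64 : ℝ) * M + 71) * (T : ℝ) ^ (1 - c) = 7 * (T : ℝ) ^ (1 - c) + (8 * (M + 1) * 4 * (T : ℝ) ^ (1 - c) +
      8 * (M + 1) * 4 * (T : ℝ) ^ (1 - c)) := by ring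
  rw [h3]
  linarith


end

end Pool.Agent.R351.GD
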